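import Pool.Agent.Lib.MP_b07157_agN.DDefs
import Pool.Agent.Lib.MP_b07157_agT.F0
import Pool.Agent.Lib.MP_b07157_agT.W0
import Pool.Agent.Lib.MP_b07157_agT.Nd
import Pool.Agent.Lib.MP_b07157_agF.FD

/-!
# The Cayley polynomial `f + x₀ h`: definitions

The coordinate `0` of `Fin (n + 1)` is the exponent of the new variable `x₀`, the coordinate
`j.succ` the exponent of `x_j`.
-/

noncomputable section

namespace MPb07157T

open Finset Matrix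

variable {n : ℕ}

/-- The exponent `(0, v)`. -/
def c0 (v : Fin n → ℤ) : Fin (n + 1) → ℤ := Fin.cons 0 v

/-- The exponent `(1, u)`. -/
def c1 (u : Fin n → ℤ) : Fin (n + 1) → ℤ := Fin.cons 1 u

/-- The coefficient function of `h = 1 + ∑ γ_j x_j ^ M`. -/
def Hf (M : ℕ) (g : Fin n → ℂ) : (Fin n → ℤ) →₀ ℂ :=
  Finsupp.single 0 1 + ∑ j, Finsupp.single ((M : ℤ) • ee j) (g j)

/-- The coefficient function of `F + x₀ h`. -/
def Cay (F : (Fin n → ℤ) →₀ ℂ) (M : ℕ) (g : Fin n → ℂ) : (Fin (n + 1) → ℤ) →₀ ℂ :=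
  F.mapDomain c0 + (Hf M g).mapDomain c1

/-- The weight of `F + x₀ h`. -/
def cw (σ : (Fin n → ℤ) × ℤ) : (Fin (n + 1) → ℤ) × ℤ := (Fin.cons σ.2 σ.1, σ.2)

/-- The coordinates of the `x_j`. -/
def CC (n : ℕ) : Finset (Fin (n + 1)) := Finset.univ.image Fin.succ

/-- The shift vector. -/
def bq (n : ℕ) (t : ℚ) : Fin (n + 1) → ℚ := Fin.cons (-t) fun _ => 1

/-- The shift vector over `ℂ`. -/
def bv (n : ℕ) (t : ℚ) : Fin (n + 1) → ℂ := fun i => ((bq n t i : ℚ) : ℂ)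

/-- The value of an integral form at a rational vector. -/
def qf {r : ℕ} (h : Fin r → ℤ) (a : Fin r → ℚ) : ℚ := ∑ i, (h i : ℚ) * a i

/-- The weights used: `σ = (w, N)` with `N > 0`, `w ≥ 0` and `w · v ≥ N` on the exponents. -/
def Wt (f : MvPolynomial (Fin n) ℂ) (σ : (Fin n → ℤ) × ℤ) : Prop :=
  0 < σ.2 ∧ (∀ j, 0 ≤ σ.1 j) ∧ ∀ v ∈ (Fc f).support, σ.2 ≤ σ.1 ⬝ᵥ v

/-- The coordinates `x_j`, `j ∈ S`. -/
def sS (S : List (Fin n)) : List (Fin (n + 1)) := S.map Fin.succ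

/-- The lattice set of the face of `κ`: inner walls only, at `-a`. -/
def MMc (Sg : Finset ((Fin n → ℤ) × ℤ)) (κ : (Fin n → ℤ) × ℤ) (a : Fin (n + 1) → ℚ) :
    Set (Fin (n + 1) → ℤ) :=
  {m | κ.2 ∣ (cw κ).1 ⬝ᵥ m ∧ ∀ h ∈ H2c (CC n) (Sg.image cw) (cw κ), -qf h a ≤ ((h ⬝ᵥ m : ℤ) : ℚ)}

/-- The derivations which show that `h` is in general position with respect to `f`. -/
def Gen (f : MvPolynomial (Fin n) ℂ) (g : Fin n → ℂ) : Prop :=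
  ∀ j, g j ≠ 0 ∧ ∃ D : Derivation ℚ ℂ ℂ, (∀ v, D (MvPolynomial.coeff v f) = 0) ∧ D (g j) = 1 ∧
    ∀ i, i ≠ j → D (g i) = 0

/-- Nondegeneracy on all faces of the parts of `f` of least weight, for the weights with positive
minimum. -/
def NDall (f : MvPolynomial (Fin n) ℂ) : Prop :=
  ∀ a : Fin n → ℕ, 0 < MPb07157.nuf f a → ∀ ω : Fin n → ℤ,
    MPb07157.NondegAt f (MPb07157F.fc (MPb07157.face f a (MPb07157.nuf f a)) ω)

end MPb07157T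

namespace MPb07157F

open Finset

variable {n : ℕ}

/-- A good set for the coordinates in `P`. -/
structure GoodP (P : Finset (Fin n)) (G ρ : Finset (Fin n →₀ ℕ)) (γ : (Fin n →₀ ℕ) → ℚ) :
    Prop where
  sub : ρ ⊆ G
  lin : ∀ g : (Fin n →₀ ℕ) → ℚ, (∀ j, ∑ v ∈ ρ, g v * (v j : ℚ) = 0) → ∀ v ∈ ρ, g v = 0
  one : ∀ j ∈ P, ∑ v ∈ ρ, γ v * (v j : ℚ) = 1
  tw : ∀ j ∈ P, (∃ v ∈ ρ, (∀ m : ℕ, γ v ≠ m + 1) ∧ 0 < v j) ∨
    ∃ j' ∈ P, j' ≠ j ∧ ∀ v ∈ ρ, v j' = v j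
  ri : ∀ h : Fin n → ℚ, (∀ j, j ∉ P → h j = 0) → (∀ v ∈ ρ, qd h v = 0) → (∀ v ∈ G, 0 ≤ qd h v) →
    ∀ v ∈ G, qd h v = 0

end MPb07157F
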