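import Pool.Agent.Lib.MP_b07157_agT.DDefs

/-!
# The microlocal cone without the convenience hypothesis: definitions

`C` is the set of coordinates with a wall, `bt` is the shift vector (`bt = 1` in the convenient
case), `d` a direction that is not bounded by the walls, `Ho σ` the forms of the full cone of the
face of `σ`.
-/

noncomputable section

namespace MPb07157T

open Finset Matrix

variable {k : Type} [Field k] {n : ℕ}

/-- The operators `b_j + bt_j + y θ_j f`. -/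
def EEb (bt : Fin n → k) (F : (Fin n → ℤ) →₀ k) (w : MFun k n) : MFun k n :=
  fun m => con (vec k (Fin.tail m) + bt) (w m) + ∑ v ∈ F.support, F v • con (vec k v) (w (m - sh v))

/-- The forms of the microlocal cone: the weights and the walled coordinates. -/
def HSc (C : Finset (Fin n)) (Sg : Finset ((Fin n → ℤ) × ℤ)) : Finset (Fin (n + 1) → ℤ) :=
  Sg.image hs ∪ C.image he

/-- The forms on the levels of `σ`. -/
def H2c (C : Finset (Fin n)) (Sg : Finset ((Fin n → ℤ) × ℤ)) (σ : (Fin n → ℤ) × ℤ) :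
    Finset (Fin n → ℤ) :=
  Sg.image (et σ) ∪ C.image ee

/-- The standing hypotheses. -/
structure WOKc (C : Finset (Fin n)) (d : Fin n → ℤ) (Sg : Finset ((Fin n → ℤ) × ℤ))
    (Ho : (Fin n → ℤ) × ℤ → Finset (Fin n → ℤ)) (F : (Fin n → ℤ) →₀ k) : Prop where
  posN : ∀ σ ∈ Sg, 0 < σ.2
  posw : ∀ σ ∈ Sg, ∀ j, 0 ≤ σ.1 j
  nonneg : ∀ v ∈ F.support, ∀ j, 0 ≤ v j
  le : ∀ σ ∈ Sg, ∀ v ∈ F.support, σ.2 ≤ σ.1 ⬝ᵥ v
  dC : ∀ j ∈ C, d j = 0
  dS : ∀ σ ∈ Sg, ∀ τ ∈ Sg, et σ τ ⬝ᵥ d = 0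
  sub : ∀ σ ∈ Sg, H2c C Sg σ ⊆ Ho σ
  all : ∀ σ ∈ Sg, ∀ l, ee l ∈ Ho σ
  posd : ∀ σ ∈ Sg, ∀ h ∈ Ho σ, h ∉ H2c C Sg σ → 0 < h ⬝ᵥ d
  hF : ∀ σ ∈ Sg, ∀ h ∈ Ho σ, ∀ v ∈ (Fs σ F).support, 0 ≤ h ⬝ᵥ v
  nd : ∀ σ ∈ Sg, ND (Ho σ) (Fs σ F)

/-- The conic set of the slice `J` at `c`. -/
def NNc (C : Finset (Fin n)) (Sg : Finset ((Fin n → ℤ) × ℤ)) (J : List (Fin n))
    (c : Fin (n + 1) → ℝ) : Set (Fin (n + 1) → ℤ) :=
  Nset (slc J) (HSc C Sg) c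

/-- The statement `X(S, J)`: the quotient of the filled slice complexes at `c + T e₀` and at `c`
is exact in degree `d ≥ 1`. -/
def XStc (C : Finset (Fin n)) (bt : Fin n → k) (F : (Fin n → ℤ) →₀ k)
    (Sg : Finset ((Fin n → ℤ) × ℤ)) (c : Fin (n + 1) → ℝ) (T : ℝ) (S J : List (Fin n)) : Prop :=
  ∀ d : ℕ, 1 ≤ d → ∀ w : MFun k n, MSuppIn (NNc C Sg J (c + Pi.single 0 T)) w → MDeg d w →
    Filled S J w → (∀ m, m ∉ NNc C Sg J c → zet k (eJ J) * EEb bt (Fpart (eJ J) F) w m = 0) →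
    ∃ g : MFun k n, MSuppIn (NNc C Sg J (c + Pi.single 0 T)) g ∧ MDeg (d + 1) g ∧ Filled S J g ∧
      ∀ m, m ∉ NNc C Sg J c → zet k (eJ J) * (w m - EEb bt (Fpart (eJ J) F) g m) = 0

end MPb07157T
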