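import Pool.Agent.Lib.MP_b07157_agT.T1
import Pool.Agent.Lib.MP_b07157_agN.DDefs

/-!
# Elementary properties of `EEb`
-/

noncomputable section

namespace MPb07157T

open Finset Matrix

variable {k : Type} [Field k] {n : ℕ}

private theorem vec_ee_dot (u : Fin n → k) (j : Fin n) : u ⬝ᵥ vec k (ee j) = u j := by
  unfold vec ee
  simp [dotProduct, Pi.single_apply]

private theorem ee_dot (v : Fin n → ℤ) (j : Fin n) : ee j ⬝ᵥ v = v j := by
  unfold ee
  simp

private theorem tail_sub_sh (m : Fin (n + 1) → ℤ) (v : Fin n → ℤ) :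
    Fin.tail (m - sh v) = Fin.tail m - v := by
  funext i
  simp [Fin.tail, sh]

private theorem vec_sub' (a b : Fin n → ℤ) : vec k (a - b) = vec k a - vec k b := by
  funext i
  simp [vec]

private theorem sub_sh_succ (m : Fin (n + 1) → ℤ) (v : Fin n → ℤ) (j : Fin n) :
    (m - sh v) j.succ = m j.succ - v j := by
  simp [sh]

private theorem con_sub' (u v : Fin n → k) (x : Lam k n) :
    con (u - v) x = con u x - con v x := by
  have h := con_add (u - v) v x
  rw [sub_add_cancel] at h
  rw [h, add_sub_cancel_right]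

private theorem d1_mem_Fpart {J : List (Fin n)} {F : (Fin n → ℤ) →₀ k} {v : Fin n → ℤ}
    (hv : v ∈ (Fpart (eJ J) F).support) : v ∈ F.support ∧ ∀ j ∈ J, v j = 0 := by
  classical
  unfold Fpart at hv
  rw [Finsupp.support_filter, Finset.mem_filter] at hv
  refine ⟨hv.1, fun j hj => ?_⟩
  have := hv.2 (ee j) (by unfold eJ; exact List.mem_map.2 ⟨j, hj, rfl⟩)
  rwa [ee_dot] at this

/-- `EE` squares to zero. -/
theorem EEb_EEb (bt : Fin n → k) (F : (Fin n → ℤ) →₀ k) (w : MFun k n) : EEb bt F (EEb bt F w) = 0 := by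
  funext m
  have key : ∑ v ∈ F.support, F v • con (vec k v)
      (∑ v' ∈ F.support, F v' • con (vec k v') (w (m - sh v - sh v'))) = 0 := by
    have h := congrFun (iF_iF F (fun b : Fin n → ℤ => w (Fin.cons (m 0 - 2) b))) (Fin.tail m)
    unfold iF at h
    rw [Pi.zero_apply] at h
    rw [← h]
    refine Finset.sum_congr rfl fun v _ => ?_
    congr 2
    refine Finset.sum_congr rfl fun v' _ => ?_
    congr 3
    funext i
    refine Fin.cases ?_ (fun j => ?_) i
    · simp [sh]
      ring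
    · simp [sh, Fin.tail]
  have h1 : ∀ v ∈ F.support, F v • con (vec k v) (con (vec k (Fin.tail (m - sh v)) + bt)
      (w (m - sh v))) = - con (vec k (Fin.tail m) + bt) (F v • con (vec k v) (w (m - sh v))) := by
    intro v _
    have e1 : vec k (Fin.tail (m - sh v)) + bt = (vec k (Fin.tail m) + bt) - vec k v := by
      rw [tail_sub_sh, vec_sub']
      abel
    rw [e1, con_sub', map_sub, con_self, sub_zero, con_comm, map_smul, smul_neg]
  show con (vec k (Fin.tail m) + bt) (EEb bt F w m) +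
    ∑ v ∈ F.support, F v • con (vec k v) (EEb bt F w (m - sh v)) = 0
  have h2 : ∀ v ∈ F.support, F v • con (vec k v) (EEb bt F w (m - sh v)) =
      - con (vec k (Fin.tail m) + bt) (F v • con (vec k v) (w (m - sh v))) +
      F v • con (vec k v)
        (∑ v' ∈ F.support, F v' • con (vec k v') (w (m - sh v - sh v'))) := by
    intro v hv
    rw [← h1 v hv]
    unfold EEb
    rw [map_add, smul_add]
  rw [Finset.sum_congr rfl h2, Finset.sum_add_distrib, key, add_zero, Finset.sum_neg_distrib]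
  have h3 : EEb bt F w m = con (vec k (Fin.tail m) + bt) (w m) +
      ∑ v ∈ F.support, F v • con (vec k v) (w (m - sh v)) := rfl
  rw [h3, map_add, con_self, zero_add, map_sum, add_neg_cancel]

theorem EEb_add (bt : Fin n → k) (F : (Fin n → ℤ) →₀ k) (w g : MFun k n) :
    EEb bt F (w + g) = EEb bt F w + EEb bt F g := by
  funext m
  unfold EEb
  simp only [Pi.add_apply, map_add, smul_add, Finset.sum_add_distrib]
  abel

theorem EEb_sub (bt : Fin n → k) (F : (Fin n → ℤ) →₀ k) (w g : MFun k n) :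
    EEb bt F (w - g) = EEb bt F w - EEb bt F g := by
  funext m
  unfold EEb
  simp only [Pi.sub_apply, map_sub, smul_sub, Finset.sum_sub_distrib]
  abel

theorem MDeg.EEb {d : ℕ} {w : MFun k n} (hw : MDeg (d + 1) w) (bt : Fin n → k)
    (F : (Fin n → ℤ) →₀ k) :
    MDeg d (MPb07157T.EEb bt F w) := by
  intro m
  unfold MPb07157T.EEb
  exact Submodule.add_mem _ (con_mem_Fil _ (hw m))
    (Submodule.sum_mem _ fun v _ => Submodule.smul_mem _ _ (con_mem_Fil _ (hw _)))

/-- `EE` respects the conic sets (`Fpart (eJ J) F` has exponents with `v_J = 0`, and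
`hs σ ⬝ (1, v) = w·v - N ≥ 0`). -/
theorem MSuppIn.EEb {C : Finset (Fin n)} {dd : Fin n → ℤ}
    {Sg : Finset ((Fin n → ℤ) × ℤ)} {Ho : (Fin n → ℤ) × ℤ → Finset (Fin n → ℤ)}
    {F : (Fin n → ℤ) →₀ k} (hW : WOKc C dd Sg Ho F) (bt : Fin n → k)
    (J : List (Fin n)) (c : Fin (n + 1) → ℝ) {w : MFun k n} (hw : MSuppIn (NNc C Sg J c) w) :
    MSuppIn (NNc C Sg J c) (MPb07157T.EEb bt (Fpart (eJ J) F) w) := by
  classical
  have key : ∀ m, MPb07157T.EEb bt (Fpart (eJ J) F) w m ≠ 0 →
      w m ≠ 0 ∨ ∃ v ∈ (Fpart (eJ J) F).support, w (m - sh v) ≠ 0 := by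
    intro m hm
    by_contra hcon
    push Not at hcon
    apply hm
    unfold MPb07157T.EEb
    rw [hcon.1, map_zero, zero_add]
    refine Finset.sum_eq_zero fun v hv => ?_
    rw [hcon.2 v hv, map_zero, smul_zero]
  refine ⟨?_, fun m hm => ?_⟩
  · have hfin : (Function.support w ∪ ⋃ v ∈ (Fpart (eJ J) F).support,
        (fun m => m + sh v) '' Function.support w).Finite :=
      hw.1.union (Set.Finite.biUnion (Finset.finite_toSet _) fun v _ => hw.1.image _)
    refine hfin.subset fun m hm => ?_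
    rcases key m hm with h | ⟨v, hv, h⟩
    · exact Or.inl h
    · refine Or.inr ?_
      simp only [Set.mem_iUnion]
      exact ⟨v, hv, m - sh v, h, by simp⟩
  · rcases key m hm with h | ⟨v, hv, h⟩
    · exact hw.2 m h
    · obtain ⟨hvF, hvJ⟩ := d1_mem_Fpart hv
      have hmem := hw.2 _ h
      unfold NNc Nset at hmem ⊢
      obtain ⟨h1, h2⟩ := hmem
      have hsplit : ∀ z : Fin (n + 1) → ℤ, z ⬝ᵥ m = z ⬝ᵥ (m - sh v) + z ⬝ᵥ sh v := by
        intro z
        rw [← dotProduct_add, sub_add_cancel]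
      have hhe : ∀ l : Fin n, he l ⬝ᵥ sh v = v l := by
        intro l
        unfold he sh
        rw [dotProduct, Fin.sum_univ_succ]
        simp only [Fin.cons_zero, Fin.cons_succ, zero_mul, zero_add]
        exact ee_dot v l
      have hhs : ∀ σ : (Fin n → ℤ) × ℤ, hs σ ⬝ᵥ sh v = σ.1 ⬝ᵥ v - σ.2 := by
        intro σ
        unfold hs sh
        rw [dotProduct, Fin.sum_univ_succ]
        simp only [Fin.cons_zero, Fin.cons_succ, mul_one]
        rw [add_comm, ← sub_eq_add_neg]
        rfl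
      refine ⟨fun z hz => ?_, fun z hz => ?_⟩
      · rw [← h1 z hz, hsplit z]
        unfold slc at hz
        obtain ⟨j, hj, rfl⟩ := List.mem_map.1 hz
        rw [hhe j, hvJ j hj, add_zero]
      · refine le_trans (h2 z hz) ?_
        rw [hsplit z]
        have : 0 ≤ z ⬝ᵥ sh v := by
          unfold HSc at hz
          rcases Finset.mem_union.1 hz with hz | hz
          · obtain ⟨σ, hσ, rfl⟩ := Finset.mem_image.1 hz
            rw [hhs]
            have := hW.le σ hσ v hvF
            omega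
          · obtain ⟨l, _, rfl⟩ := Finset.mem_image.1 hz
            rw [hhe]
            exact hW.nonneg v hvF l
        exact_mod_cast (by omega : z ⬝ᵥ (m - sh v) ≤ z ⬝ᵥ (m - sh v) + z ⬝ᵥ sh v)

private theorem hcomm (J : List (Fin n)) (u : Fin n → k) (hu : ∀ j ∈ J, u j = 0) (x : Lam k n) :
    zet k (eJ J) * con u x = (-1 : k) ^ (eJ J).length • con u (zet k (eJ J) * x) := by
  refine zet_con _ _ (fun z hz => ?_) _
  unfold eJ at hz
  obtain ⟨j, hj, rfl⟩ := List.mem_map.1 hz
  rw [vec_ee_dot]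
  exact hu j hj

/-- If all values are zero modulo `J` outside a set `A` stable under subtracting shifts from the
complement, this holds for `EE`; pointwise form: `zet * EEb bt F w m` only depends on `zet * w`. -/
theorem zet_EEb_congr (bt : Fin n → k) (F : (Fin n → ℤ) →₀ k) (J : List (Fin n)) (w : MFun k n)
    (m : Fin (n + 1) → ℤ) (hm : ∀ j ∈ J, m j.succ = -1) (hbt : ∀ j ∈ J, bt j = 1)
    (h0 : zet k (eJ J) * w m = 0)
    (h1 : ∀ v ∈ (Fpart (eJ J) F).support, zet k (eJ J) * w (m - sh v) = 0) :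
    zet k (eJ J) * EEb bt (Fpart (eJ J) F) w m = 0 := by
  have h3 : EEb bt (Fpart (eJ J) F) w m = con (vec k (Fin.tail m) + bt) (w m) +
      ∑ v ∈ (Fpart (eJ J) F).support,
        (Fpart (eJ J) F) v • con (vec k v) (w (m - sh v)) := rfl
  rw [h3, mul_add, Finset.mul_sum, hcomm J _ (fun j hj => ?_), h0, map_zero, smul_zero, zero_add]
  · refine Finset.sum_eq_zero fun v hv => ?_
    rw [mul_smul_comm, hcomm J _ (fun j hj => ?_), h1 v hv, map_zero, smul_zero, smul_zero]
    show ((v j : ℤ) : k) = 0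
    rw [(d1_mem_Fpart hv).2 j hj, Int.cast_zero]
  · show ((m j.succ : ℤ) : k) + bt j = 0
    rw [hm j hj, hbt j hj]
    simp

/-- `EE` preserves filledness, for functions supported in `{b_j ≥ -1}`: at `m_j = -1` the
contraction with `b + 1` and with `v`, `v_j = 0`, anticommutes with `e_j`, and the terms with
`v_j > 0` come from `b_j < -1`. -/
theorem Filled.EEb (bt : Fin n → k) (F : (Fin n → ℤ) →₀ k)
    (hF : ∀ v ∈ F.support, ∀ j, 0 ≤ v j) {S J : List (Fin n)} (hbt : ∀ j, j ∈ S ∨ j ∈ J → bt j = 1)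
    {w : MFun k n} (hw : Filled S J w)
    (hsupp : ∀ m, w m ≠ 0 → (∀ j ∈ J, m j.succ = -1) ∧ ∀ j ∈ S, -1 ≤ m j.succ) :
    Filled S J (MPb07157T.EEb bt (Fpart (eJ J) F) w) := by
  intro m j hj hmj
  have h3 : MPb07157T.EEb bt (Fpart (eJ J) F) w m = con (vec k (Fin.tail m) + bt) (w m) +
      ∑ v ∈ (Fpart (eJ J) F).support,
        (Fpart (eJ J) F) v • con (vec k v) (w (m - sh v)) := rfl
  have hanti : ∀ (u : Fin n → k) (x : Lam k n), u j = 0 →
      gi (vec k (ee j)) * con u x = - con u (gi (vec k (ee j)) * x) := by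
    intro u x hu
    rw [con_gi_mul, vec_ee_dot, hu, zero_smul, zero_sub, neg_neg]
  rw [h3, mul_add, mul_add, Finset.mul_sum, Finset.mul_sum]
  have hA : zet k (eJ J) * (gi (vec k (ee j)) * con (vec k (Fin.tail m) + bt) (w m)) = 0 := by
    by_cases hwm : w m = 0
    · rw [hwm, map_zero, mul_zero, mul_zero]
    · obtain ⟨hJ, _⟩ := hsupp m hwm
      rw [hanti _ _ (by show ((m j.succ : ℤ) : k) + bt j = 0; rw [hmj, hbt j (Or.inl hj)]; simp),
        mul_neg,
        hcomm J _ (fun i hi => ?_), hw m j hj hmj, map_zero, smul_zero, neg_zero]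
      show ((m i.succ : ℤ) : k) + bt i = 0
      rw [hJ i hi, hbt i (Or.inr hi)]
      simp
  rw [hA, zero_add]
  refine Finset.sum_eq_zero fun v hv => ?_
  obtain ⟨hvF, hvJ⟩ := d1_mem_Fpart hv
  rw [mul_smul_comm, mul_smul_comm]
  by_cases hvj : v j = 0
  · rw [hanti _ _ (by show ((v j : ℤ) : k) = 0; rw [hvj, Int.cast_zero]), mul_neg,
      hcomm J _ (fun i hi => by show ((v i : ℤ) : k) = 0; rw [hvJ i hi, Int.cast_zero]),
      hw _ j hj (by rw [sub_sh_succ, hvj, sub_zero, hmj]), map_zero, smul_zero, neg_zero,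
      smul_zero]
  · have hz : w (m - sh v) = 0 := by
      by_contra hne
      have h4 := (hsupp _ hne).2 j hj
      rw [sub_sh_succ, hmj] at h4
      have h5 := hF v hvF j
      omega
    rw [hz, map_zero, mul_zero, mul_zero, smul_zero]

end MPb07157T
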