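import Pool.Agent.Lib.MP_b07157_agN.D3b

/-!
# Small perturbations
-/

noncomputable section

namespace MPb07157T

open Finset Matrix

variable {k : Type} [Field k] {n : ℕ}

/-- There is no integer just below a real number. -/
private theorem d3c_gap (y : ℝ) : ∃ δ : ℝ, 0 < δ ∧ ∀ p : ℤ, y - δ < p → y ≤ p := by
  refine ⟨y - ⌈y⌉ + 1, ?_, ?_⟩
  · have := Int.ceil_lt_add_one y
    linarith
  · intro p hp
    have h1 : ((⌈y⌉ - 1 : ℤ) : ℝ) < p := by
      push_cast
      linarith
    have h2 : ⌈y⌉ - 1 < p := by exact_mod_cast h1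
    have h3 : ⌈y⌉ ≤ p := by omega
    exact Int.ceil_le.mp h3

private theorem d3c_unif {ι : Type*} (S : Finset ι) (δ L : ι → ℝ) (hδ : ∀ i, 0 < δ i)
    (hL : ∀ i, 0 < L i) : ∃ ε : ℝ, 0 < ε ∧ ∀ i ∈ S, ε * L i ≤ δ i := by
  classical
  induction S using Finset.induction_on with
  | empty => exact ⟨1, one_pos, by simp⟩
  | insert i S _ ih =>
    obtain ⟨ε, hε, h⟩ := ih
    refine ⟨min ε (δ i / L i), lt_min hε (div_pos (hδ i) (hL i)), ?_⟩
    intro j hj
    rcases Finset.mem_insert.mp hj with rfl | hj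
    · calc min ε (δ j / L j) * L j ≤ δ j / L j * L j :=
          mul_le_mul_of_nonneg_right (min_le_right _ _) (hL j).le
        _ = δ j := div_mul_cancel₀ _ (hL j).ne'
    · calc min ε (δ i / L i) * L j ≤ ε * L j :=
          mul_le_mul_of_nonneg_right (min_le_left _ _) (hL j).le
        _ ≤ δ j := h j hj

private theorem d3c_rdot_sub {r : ℕ} (h : Fin r → ℤ) (x u : Fin r → ℝ) :
    rdot h (x - u) = rdot h x - rdot h u := by
  unfold rdot
  rw [← Finset.sum_sub_distrib]
  exact Finset.sum_congr rfl fun i _ => by simp only [Pi.sub_apply]; ring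

private theorem d3c_rdot_he (j : Fin n) (x : Fin (n + 1) → ℝ) : rdot (he j) x = x j.succ := by
  unfold rdot he ee
  rw [Fin.sum_univ_succ]
  simp only [Fin.cons_zero, Int.cast_zero, zero_mul, Fin.cons_succ, zero_add]
  rw [Finset.sum_eq_single j]
  · simp
  · intro i _ hij
    simp [hij]
  · intro h
    exact absurd (Finset.mem_univ _) h

/-- Small perturbations do not change the lattice points. -/
theorem exists_epsc (C : Finset (Fin n)) (Sg : Finset ((Fin n → ℤ) × ℤ)) (J : List (Fin n)) (c : Fin (n + 1) → ℝ) (T : ℝ)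
    (hw : ∀ σ ∈ Sg, ∀ j, 0 ≤ σ.1 j) (hN : ∀ σ ∈ Sg, 0 < σ.2) :
    ∃ ε : ℝ, 0 < ε ∧ ∀ u : Fin (n + 1) → ℝ, (∀ j ∈ J, u j.succ = 0) →
      (∀ j, j ∉ J → 0 < u j.succ ∧ u j.succ < ε) → (-T - ε < u 0 ∧ u 0 < -T) →
      NNc C Sg J (c - u) = NNc C Sg J (c + Pi.single 0 T) ∧
      ∀ j ∈ C, j ∉ J → ∀ t : ℝ, 0 < t → t ≤ 1 → ∀ p : ℤ, (p : ℝ) ≠ c j.succ - t * u j.succ := by
  classical
  -- the data of every form
  choose δ hδ hgap using fun h : Fin (n + 1) → ℤ => d3c_gap (rdot h (c + Pi.single 0 T))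
  obtain ⟨ε, hε, hεL⟩ := d3c_unif (HSc C Sg) δ (fun h => 1 + ∑ i, |(h i : ℝ)|) hδ
    (fun h => by positivity)
  refine ⟨ε, hε, fun u hJ hJ' h0 => ?_⟩
  have hsign : ∀ h ∈ HSc C Sg, h 0 ≤ 0 ∧ ∀ j : Fin n, 0 ≤ h j.succ := by
    intro h hh
    unfold HSc at hh
    rcases Finset.mem_union.mp hh with hh | hh
    · obtain ⟨σ, hσ, rfl⟩ := Finset.mem_image.mp hh
      refine ⟨?_, fun j => ?_⟩
      · have := hN σ hσ
        simp only [hs, Fin.cons_zero]
        omega
      · simp only [hs, Fin.cons_succ]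
        exact hw σ hσ j
    · obtain ⟨l, -, rfl⟩ := Finset.mem_image.mp hh
      refine ⟨?_, fun j => ?_⟩
      · simp [he]
      · simp only [he, Fin.cons_succ, ee]
        by_cases hjl : j = l
        · subst hjl
          simp
        · simp [hjl]
  have husucc : ∀ j : Fin n, 0 ≤ u j.succ ∧ u j.succ ≤ ε := by
    intro j
    by_cases hj : j ∈ J
    · rw [hJ j hj]
      exact ⟨le_refl _, hε.le⟩
    · exact ⟨(hJ' j hj).1.le, (hJ' j hj).2.le⟩
  have hr : ∀ h ∈ HSc C Sg, 0 ≤ rdot h (u + Pi.single 0 T) ∧ rdot h (u + Pi.single 0 T) < δ h := by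
    intro h hh
    obtain ⟨s0, s1⟩ := hsign h hh
    have s0' : (h 0 : ℝ) ≤ 0 := by exact_mod_cast s0
    have s1' : ∀ j : Fin n, (0 : ℝ) ≤ (h j.succ : ℝ) := fun j => by exact_mod_cast s1 j
    have e : rdot h (u + Pi.single 0 T) = (h 0 : ℝ) * (u 0 + T) + ∑ j : Fin n, (h j.succ : ℝ) * u j.succ := by
      unfold rdot
      rw [Fin.sum_univ_succ]
      simp [Fin.succ_ne_zero]
    constructor
    · rw [e]
      have h1 : 0 ≤ (h 0 : ℝ) * (u 0 + T) :=
        mul_nonneg_of_nonpos_of_nonpos s0' (by linarith [h0.2])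
      have h2 : 0 ≤ ∑ j : Fin n, (h j.succ : ℝ) * u j.succ :=
        Finset.sum_nonneg fun j _ => mul_nonneg (s1' j) (husucc j).1
      linarith
    · have hb := hεL h hh
      have h1 : (h 0 : ℝ) * (u 0 + T) ≤ ε * |(h 0 : ℝ)| := by
        rw [abs_of_nonpos s0']
        nlinarith [h0.1, h0.2]
      have h2 : ∑ j : Fin n, (h j.succ : ℝ) * u j.succ ≤ ∑ j : Fin n, ε * |(h j.succ : ℝ)| := by
        refine Finset.sum_le_sum fun j _ => ?_
        rw [abs_of_nonneg (s1' j), mul_comm]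
        exact mul_le_mul_of_nonneg_right (husucc j).2 (s1' j)
      rw [← Finset.mul_sum] at h2
      have h3 : ∑ i, |(h i : ℝ)| = |(h 0 : ℝ)| + ∑ j : Fin n, |(h j.succ : ℝ)| :=
        Fin.sum_univ_succ _
      rw [e]
      rw [h3] at hb
      nlinarith
  have hrd : ∀ h, rdot h (c - u) = rdot h (c + Pi.single 0 T) - rdot h (u + Pi.single 0 T) := by
    intro h
    rw [← d3c_rdot_sub]
    congr 1
    abel
  refine ⟨?_, ?_⟩
  · unfold NNc Nset
    ext m
    simp only [Set.mem_setOf_eq]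
    refine and_congr ?_ ?_
    · refine forall₂_congr fun z hz => ?_
      obtain ⟨j, hj, rfl⟩ := List.mem_map.mp hz
      rw [d3c_rdot_he, d3c_rdot_he]
      have : (c - u) j.succ = (c + Pi.single 0 T : Fin (n + 1) → ℝ) j.succ := by
        simp [hJ j hj, Fin.succ_ne_zero]
      rw [this]
    · refine forall₂_congr fun h hh => ?_
      obtain ⟨r0, r1⟩ := hr h hh
      rw [hrd h]
      constructor
      · intro hle
        exact hgap h _ (by linarith)
      · intro hle
        linarith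
  · intro j hjC hj t ht ht1 p hp
    have hmem : he j ∈ HSc C Sg := by
      unfold HSc
      exact Finset.mem_union_right _ (Finset.mem_image_of_mem _ hjC)
    have hb := hεL (he j) hmem
    have hy : rdot (he j) (c + Pi.single 0 T) = c j.succ := by
      rw [d3c_rdot_he]
      simp [Fin.succ_ne_zero]
    have hu := hJ' j hj
    have h1 : ε ≤ δ (he j) := by
      have h2 : 0 ≤ ∑ i, |((he j) i : ℝ)| := by positivity
      nlinarith
    have h3 := hgap (he j) p (by rw [hy, hp]; nlinarith)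
    rw [hy, hp] at h3
    nlinarith [mul_pos ht hu.1]

end MPb07157T
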