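import Pool.Agent.Lib.MP_b07157_agT.C1
import Pool.Agent.Lib.MP_b07157_agN.DDefs

/-!
# Exactness on the levels
-/

noncomputable section

namespace MPb07157T

open Finset Matrix

variable {k : Type} [Field k] {n : ℕ} {C : Finset (Fin n)} {dd : Fin n → ℤ}
  {Ho : (Fin n → ℤ) × ℤ → Finset (Fin n → ℤ)} {bt : Fin n → k}

private theorem d3d_dot_he (l : Fin n) (m : Fin (n + 1) → ℤ) :
    he l ⬝ᵥ m = ee l ⬝ᵥ (Fin.tail m : Fin n → ℤ) := by
  unfold he ee
  simp only [dotProduct]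
  rw [Fin.sum_univ_succ]
  simp [Fin.tail]

private theorem d3d_ee_dot (l : Fin n) (b : Fin n → ℤ) : ee l ⬝ᵥ b = b l := by
  unfold ee
  rw [single_dotProduct, one_mul]

private theorem d3d_dot_hs (σ : (Fin n → ℤ) × ℤ) (m : Fin (n + 1) → ℤ) :
    hs σ ⬝ᵥ m = σ.1 ⬝ᵥ (Fin.tail m : Fin n → ℤ) - σ.2 * m 0 := by
  unfold hs
  simp only [dotProduct]
  rw [Fin.sum_univ_succ]
  simp only [Fin.cons_zero, Fin.cons_succ, Fin.tail]
  ring

private theorem d3d_rdot_he (l : Fin n) (y : Fin (n + 1) → ℝ) :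
    rdot (he l) y = rdot (ee l) (Fin.tail y : Fin n → ℝ) := by
  unfold rdot he ee
  rw [Fin.sum_univ_succ]
  simp [Fin.tail]

private theorem d3d_rdot_ee (l : Fin n) (x : Fin n → ℝ) : rdot (ee l) x = x l := by
  unfold rdot ee
  rw [Finset.sum_eq_single l]
  · simp
  · intro i _ hi
    simp [hi]
  · intro h
    exact absurd (Finset.mem_univ _) h

private theorem d3d_rdot_hs (σ : (Fin n → ℤ) × ℤ) (y : Fin (n + 1) → ℝ) :
    rdot (hs σ) y = rdot σ.1 (Fin.tail y : Fin n → ℝ) - σ.2 * y 0 := by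
  unfold rdot hs
  rw [Fin.sum_univ_succ]
  simp only [Fin.cons_zero, Fin.cons_succ, Fin.tail]
  push_cast
  ring

private theorem d3d_dot_et (σ τ : (Fin n → ℤ) × ℤ) (b : Fin n → ℤ) :
    et σ τ ⬝ᵥ b = σ.2 * (τ.1 ⬝ᵥ b) - τ.2 * (σ.1 ⬝ᵥ b) := by
  unfold et
  rw [sub_dotProduct, smul_dotProduct, smul_dotProduct]
  simp only [smul_eq_mul]

private theorem d3d_rdot_et (σ τ : (Fin n → ℤ) × ℤ) (x : Fin n → ℝ) :
    rdot (et σ τ) x = σ.2 * rdot τ.1 x - τ.2 * rdot σ.1 x := by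
  unfold rdot et
  rw [Finset.mul_sum, Finset.mul_sum, ← Finset.sum_sub_distrib]
  refine Finset.sum_congr rfl fun i _ => ?_
  simp only [Pi.sub_apply, Pi.smul_apply, smul_eq_mul]
  push_cast
  ring

/-- The level set in the slice, in the coordinates `tail m`. -/
private theorem d3d_mem (Sg : Finset ((Fin n → ℤ) × ℤ)) (J : List (Fin n))
    (y : Fin (n + 1) → ℝ) (σ : (Fin n → ℤ) × ℤ) (hN : 0 < σ.2) (p : ℤ)
    (hp : (p : ℝ) = rdot (hs σ) y) (m : Fin (n + 1) → ℤ) (hm : hs σ ⬝ᵥ m = p) :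
    m ∈ Nset (hs σ :: slc J) (HSc C Sg) y ↔
      (Fin.tail m : Fin n → ℤ) ∈ Nset (eJ J) (H2c C Sg σ) (Fin.tail y : Fin n → ℝ) := by
  have hNr : (0 : ℝ) < σ.2 := by exact_mod_cast hN
  have key : ∀ τ : (Fin n → ℤ) × ℤ, (rdot (hs τ) y ≤ ((hs τ ⬝ᵥ m : ℤ) : ℝ)) ↔
      (rdot (et σ τ) (Fin.tail y : Fin n → ℝ)
        ≤ ((et σ τ ⬝ᵥ (Fin.tail m : Fin n → ℤ) : ℤ) : ℝ)) := by
    intro τ
    have e1 : rdot (et σ τ) (Fin.tail y : Fin n → ℝ)
        = σ.2 * rdot (hs τ) y - τ.2 * p := by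
      rw [hp, d3d_rdot_et, d3d_rdot_hs, d3d_rdot_hs]
      ring
    have e2 : ((et σ τ ⬝ᵥ (Fin.tail m : Fin n → ℤ) : ℤ) : ℝ)
        = σ.2 * ((hs τ ⬝ᵥ m : ℤ) : ℝ) - τ.2 * p := by
      have : et σ τ ⬝ᵥ (Fin.tail m : Fin n → ℤ) = σ.2 * (hs τ ⬝ᵥ m) - τ.2 * p := by
        rw [← hm, d3d_dot_et, d3d_dot_hs, d3d_dot_hs]
        ring
      rw [this]
      push_cast
      ring
    rw [e1, e2]
    constructor
    · intro h
      have := mul_le_mul_of_nonneg_left h hNr.le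
      linarith
    · intro h
      have h' : (σ.2 : ℝ) * rdot (hs τ) y ≤ σ.2 * ((hs τ ⬝ᵥ m : ℤ) : ℝ) := by linarith
      exact le_of_mul_le_mul_left h' hNr
  constructor
  · rintro ⟨h1, h2⟩
    refine ⟨?_, ?_⟩
    · intro z hz
      unfold eJ at hz
      obtain ⟨j, hj, rfl⟩ := List.mem_map.mp hz
      have := h1 (he j) (List.mem_cons_of_mem _ (List.mem_map.mpr ⟨j, hj, rfl⟩))
      rw [d3d_dot_he, d3d_rdot_he] at this
      exact this
    · intro h hh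
      unfold H2c at hh
      rcases Finset.mem_union.mp hh with hh | hh
      · obtain ⟨τ, hτ, rfl⟩ := Finset.mem_image.mp hh
        exact (key τ).mp (h2 _ (Finset.mem_union_left _ (Finset.mem_image_of_mem _ hτ)))
      · obtain ⟨l, hl, rfl⟩ := Finset.mem_image.mp hh
        have := h2 (he l) (Finset.mem_union_right _ (Finset.mem_image_of_mem _ hl))
        rw [d3d_dot_he, d3d_rdot_he] at this
        exact this
  · rintro ⟨h1, h2⟩
    refine ⟨?_, ?_⟩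
    · intro z hz
      rcases List.mem_cons.mp hz with rfl | hz
      · rw [hm, hp]
      · unfold slc at hz
        obtain ⟨j, hj, rfl⟩ := List.mem_map.mp hz
        rw [d3d_dot_he, d3d_rdot_he]
        exact h1 _ (List.mem_map.mpr ⟨j, hj, rfl⟩)
    · intro h hh
      unfold HSc at hh
      rcases Finset.mem_union.mp hh with hh | hh
      · obtain ⟨τ, hτ, rfl⟩ := Finset.mem_image.mp hh
        exact (key τ).mpr (h2 _ (Finset.mem_union_left _ (Finset.mem_image_of_mem _ hτ)))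
      · obtain ⟨l, hl, rfl⟩ := Finset.mem_image.mp hh
        rw [d3d_dot_he, d3d_rdot_he]
        exact h2 _ (Finset.mem_union_right _ (Finset.mem_image_of_mem _ hl))

/-- The point of the level over `b`. -/
private def d3d_lev (σ : (Fin n → ℤ) × ℤ) (p : ℤ) (b : Fin n → ℤ) : Fin (n + 1) → ℤ :=
  Fin.cons ((σ.1 ⬝ᵥ b - p) / σ.2) b

private theorem d3d_lev_tail (σ : (Fin n → ℤ) × ℤ) (p : ℤ) (b : Fin n → ℤ) :
    (Fin.tail (d3d_lev σ p b) : Fin n → ℤ) = b := by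
  unfold d3d_lev
  exact Fin.tail_cons _ _

private theorem d3d_lev_dot (σ : (Fin n → ℤ) × ℤ) (p : ℤ) (b : Fin n → ℤ)
    (hb : σ.2 ∣ σ.1 ⬝ᵥ b - p) : hs σ ⬝ᵥ d3d_lev σ p b = p := by
  rw [d3d_dot_hs, d3d_lev_tail]
  unfold d3d_lev
  rw [Fin.cons_zero, Int.mul_ediv_cancel' hb]
  ring

private theorem d3d_dvd (σ : (Fin n → ℤ) × ℤ) (p : ℤ) (m : Fin (n + 1) → ℤ)
    (hm : hs σ ⬝ᵥ m = p) : σ.2 ∣ σ.1 ⬝ᵥ (Fin.tail m : Fin n → ℤ) - p := by
  rw [d3d_dot_hs] at hm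
  exact ⟨m 0, by linarith⟩

private theorem d3d_lev_of (σ : (Fin n → ℤ) × ℤ) (hN : 0 < σ.2) (p : ℤ) (m : Fin (n + 1) → ℤ)
    (hm : hs σ ⬝ᵥ m = p) : d3d_lev σ p (Fin.tail m : Fin n → ℤ) = m := by
  have e : (σ.1 ⬝ᵥ (Fin.tail m : Fin n → ℤ) - p) = σ.2 * m 0 := by
    rw [d3d_dot_hs] at hm
    linarith
  unfold d3d_lev
  rw [e, Int.mul_ediv_cancel_left _ hN.ne']
  exact Fin.cons_self_tail m

private theorem d3d_hs_sh (σ : (Fin n → ℤ) × ℤ) (v : Fin n → ℤ) (hv : σ.1 ⬝ᵥ v = σ.2) :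
    hs σ ⬝ᵥ sh v = 0 := by
  rw [d3d_dot_hs]
  unfold sh
  rw [Fin.tail_cons, Fin.cons_zero, hv]
  ring

private theorem d3d_tail_sub (m : Fin (n + 1) → ℤ) (v : Fin n → ℤ) :
    (Fin.tail (m - sh v) : Fin n → ℤ) = (Fin.tail m : Fin n → ℤ) - v := by
  funext i
  simp [Fin.tail, sh]

private theorem d3d_supp (σ : (Fin n → ℤ) × ℤ) (F : (Fin n → ℤ) →₀ k)
    (v : Fin n → ℤ) (hv : v ∈ (Fs σ F).support) : v ∈ F.support ∧ σ.1 ⬝ᵥ v = σ.2 := by
  classical
  unfold Fs at hv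
  rw [Finsupp.support_filter, Finset.mem_filter] at hv
  exact hv

private theorem d3d_suppZ (Z : List (Fin n → ℤ)) (F : (Fin n → ℤ) →₀ k)
    (v : Fin n → ℤ) (hv : v ∈ (Fpart Z F).support) : v ∈ F.support := by
  classical
  unfold Fpart at hv
  rw [Finsupp.support_filter, Finset.mem_filter] at hv
  exact hv.1

/-- A cycle on one level of `σ` in the slice `J` is a boundary.  If `rdot (hs σ) y` is not an
integer, `w = 0`, `g = 0`.  Let `p` be this integer.  On the level, `m ↦ Fin.tail m` is injective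
(`σ.2 * m 0 = σ.1·tail m - p`) with image `{b : σ.2 ∣ σ.1·b - p}`; for `m` on the level,
`m ∈ Nset (hs σ :: slc J) (HSc C Sg) y ↔ tail m ∈ Nset (eJ J) (H2c C Sg σ) (tail y)`, because
`et σ τ · tail m = σ.2 * (hs τ·m) - τ.2 * (hs σ·m)`.  The operator `EEb bt (Fpart (eJ J) (Fs σ F))`
preserves the levels of `σ` and becomes `Eop 1 (Fpart (eJ J) (Fs σ F))`.  Apply `op_exact` with
`H = H2c C Sg σ`, `F = Fs σ F`, `Z = eJ J`, `δ = σ.1`, `N = σ.2`, `b = 1`, `x = tail y`; the bound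
`hbd` holds since the coordinates are bounded below and `σ.1 > 0`; `hb`: `m_j + 1 = 0` for
`j ∈ J`. -/
theorem level_EEc [CharZero k] {F : (Fin n → ℤ) →₀ k} {Sg : Finset ((Fin n → ℤ) × ℤ)}
    (hW : WOKc C dd Sg Ho F) (J : List (Fin n)) (hJC : ∀ j ∈ J, j ∈ C) (hbt : ∀ j ∈ J, bt j = 1)
    (y : Fin (n + 1) → ℝ) (hy : ∀ j ∈ J, y j.succ = -1)
    {σ : (Fin n → ℤ) × ℤ} (hσ : σ ∈ Sg) (hrel : ∃ u, Relint (eJ J) (Ho σ) u) {d : ℕ}
    (hd : 1 ≤ d) {w : MFun k n} (hw : MSuppIn (Nset (hs σ :: slc J) (HSc C Sg) y) w)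
    (hdeg : MDeg d w) (hcyc : ∀ m, zet k (eJ J) * EEb bt (Fpart (eJ J) (Fs σ F)) w m = 0) :
    ∃ g : MFun k n, MSuppIn (Nset (hs σ :: slc J) (HSc C Sg) y) g ∧ MDeg (d + 1) g ∧
      ∀ m, zet k (eJ J) * (w m - EEb bt (Fpart (eJ J) (Fs σ F)) g m) = 0 := by
  classical
  have hN : 0 < σ.2 := hW.posN σ hσ
  by_cases hp : ∃ p : ℤ, (p : ℝ) = rdot (hs σ) y
  swap
  · -- no integer on the level
    have hw0 : ∀ m, w m = 0 := by
      intro m
      by_contra h0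
      exact hp ⟨hs σ ⬝ᵥ m, (hw.2 m h0).1 (hs σ) (List.mem_cons_self)⟩
    refine ⟨0, ⟨?_, ?_⟩, ?_, ?_⟩
    · simp
    · intro m hm
      exact absurd rfl hm
    · intro m
      exact Submodule.zero_mem _
    · intro m
      simp [hw0 m, EEb]
  obtain ⟨p, hp⟩ := hp
  have hwp : ∀ m, w m ≠ 0 → hs σ ⬝ᵥ m = p := by
    intro m h0
    have h1 := (hw.2 m h0).1 (hs σ) (List.mem_cons_self)
    rw [← hp] at h1
    exact_mod_cast h1
  set G : (Fin n → ℤ) →₀ k := Fpart (eJ J) (Fs σ F) with hG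
  have hGv : ∀ v ∈ G.support, σ.1 ⬝ᵥ v = σ.2 := fun v hv =>
    (d3d_supp σ F v (d3d_suppZ _ _ v hv)).2
  -- the function on the small lattice
  let w' : LFun k n := fun b => if σ.2 ∣ σ.1 ⬝ᵥ b - p then w (d3d_lev σ p b) else 0
  have hw'ne : ∀ b, w' b ≠ 0 → σ.2 ∣ σ.1 ⬝ᵥ b - p ∧ w (d3d_lev σ p b) ≠ 0 := by
    intro b hb
    by_cases hc : σ.2 ∣ σ.1 ⬝ᵥ b - p
    · refine ⟨hc, ?_⟩
      simp only [w', if_pos hc] at hb
      exact hb
    · exfalso
      apply hb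
      simp only [w', if_neg hc]
  have hw's : SuppIn {m | m ∈ Nset (eJ J) (H2c C Sg σ) (Fin.tail y : Fin n → ℝ)
      ∧ σ.2 ∣ σ.1 ⬝ᵥ m - p} w' := by
    refine ⟨?_, ?_⟩
    · refine (hw.1.image (fun m => (Fin.tail m : Fin n → ℤ))).subset ?_
      intro b hb
      obtain ⟨h1, h2⟩ := hw'ne b hb
      exact ⟨d3d_lev σ p b, h2, d3d_lev_tail σ p b⟩
    · intro b hb
      obtain ⟨h1, h2⟩ := hw'ne b hb
      have h3 := (d3d_mem Sg J y σ hN p hp _ (d3d_lev_dot σ p b h1)).mp (hw.2 _ h2)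
      rw [d3d_lev_tail] at h3
      exact ⟨h3, h1⟩
  -- the shift in the direction `dd`
  have hdd0 : ∀ h ∈ H2c C Sg σ, h ⬝ᵥ dd = 0 := by
    intro h hh
    unfold H2c at hh
    rcases Finset.mem_union.mp hh with hh | hh
    · obtain ⟨τ, hτ, rfl⟩ := Finset.mem_image.mp hh
      exact hW.dS σ hσ τ hτ
    · obtain ⟨l, hl, rfl⟩ := Finset.mem_image.mp hh
      rw [d3d_ee_dot]
      exact hW.dC l hl
  let T' : ℝ := ∑ h ∈ Ho σ, ∑ b ∈ hw's.1.toFinset,
    |rdot h (Fin.tail y : Fin n → ℝ) - ((h ⬝ᵥ b : ℤ) : ℝ)|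
  let x : Fin n → ℝ := (Fin.tail y : Fin n → ℝ) - T' • fun j => (dd j : ℝ)
  have hx : ∀ h : Fin n → ℤ, rdot h x = rdot h (Fin.tail y : Fin n → ℝ) -
      T' * ((h ⬝ᵥ dd : ℤ) : ℝ) := by
    intro h
    show rdot h ((Fin.tail y : Fin n → ℝ) - T' • fun j => (dd j : ℝ)) = _
    rw [rdot_sub, rdot_smul, rdot_int]
  have hx0 : ∀ h ∈ H2c C Sg σ, rdot h x = rdot h (Fin.tail y : Fin n → ℝ) := by
    intro h hh
    rw [hx, hdd0 h hh, Int.cast_zero, mul_zero, sub_zero]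
  have hxJ : ∀ z ∈ eJ J, rdot z x = rdot z (Fin.tail y : Fin n → ℝ) := by
    intro z hz
    unfold eJ at hz
    obtain ⟨j, hj, rfl⟩ := List.mem_map.mp hz
    exact hx0 _ (Finset.mem_union_right _ (Finset.mem_image_of_mem _ (hJC j hj)))
  have hw'x : SuppIn {m | m ∈ Nset (eJ J) (Ho σ) x ∧ σ.2 ∣ σ.1 ⬝ᵥ m - p} w' := by
    refine ⟨hw's.1, fun b hb => ?_⟩
    obtain ⟨hb1, hb2⟩ := hw's.2 b hb
    refine ⟨⟨fun z hz => ?_, fun h hh => ?_⟩, hb2⟩
    · rw [hxJ z hz]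
      exact hb1.1 z hz
    · by_cases h2 : h ∈ H2c C Sg σ
      · rw [hx0 h h2]
        exact hb1.2 h h2
      · have h3 := hW.posd σ hσ h hh h2
        have h4 : (1 : ℝ) ≤ ((h ⬝ᵥ dd : ℤ) : ℝ) := by exact_mod_cast h3
        have h5 : |rdot h (Fin.tail y : Fin n → ℝ) - ((h ⬝ᵥ b : ℤ) : ℝ)| ≤ T' := by
          have hbm : b ∈ hw's.1.toFinset := by
            rw [Set.Finite.mem_toFinset]
            exact hb
          refine le_trans (Finset.single_le_sum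
            (f := fun b => |rdot h (Fin.tail y : Fin n → ℝ) - ((h ⬝ᵥ b : ℤ) : ℝ)|)
            (fun _ _ => abs_nonneg _) hbm) ?_
          exact Finset.single_le_sum (f := fun h => ∑ b ∈ hw's.1.toFinset,
            |rdot h (Fin.tail y : Fin n → ℝ) - ((h ⬝ᵥ b : ℤ) : ℝ)|)
            (fun _ _ => Finset.sum_nonneg fun _ _ => abs_nonneg _) hh
        have h6 := le_abs_self (rdot h (Fin.tail y : Fin n → ℝ) - ((h ⬝ᵥ b : ℤ) : ℝ))
        have h7 : 0 ≤ T' := le_trans (abs_nonneg _) h5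
        rw [hx]
        nlinarith
  have hw'd : Deg d w' := by
    intro b
    simp only [w']
    split_ifs
    · exact hdeg _
    · exact Submodule.zero_mem _
  -- the operators agree
  have hdvd : ∀ (b v : Fin n → ℤ), v ∈ G.support →
      (σ.2 ∣ σ.1 ⬝ᵥ (b - v) - p ↔ σ.2 ∣ σ.1 ⬝ᵥ b - p) := by
    intro b v hv
    rw [dotProduct_sub, hGv v hv]
    have : σ.1 ⬝ᵥ b - σ.2 - p = (σ.1 ⬝ᵥ b - p) - σ.2 := by ring
    rw [this]
    exact dvd_sub_self_right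
  have hw'cyc : ∀ b, zet k (eJ J) * Eop bt G w' b = 0 := by
    intro b
    by_cases hb : σ.2 ∣ σ.1 ⬝ᵥ b - p
    · have e : Eop bt G w' b = EEb bt G w (d3d_lev σ p b) := by
        unfold Eop EEb iF
        rw [d3d_lev_tail]
        congr 1
        · simp only [w', if_pos hb]
        · refine Finset.sum_congr rfl fun v hv => ?_
          have h1 : σ.2 ∣ σ.1 ⬝ᵥ (b - v) - p := (hdvd b v hv).mpr hb
          have h2 : d3d_lev σ p (b - v) = d3d_lev σ p b - sh v := by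
            have h3 : hs σ ⬝ᵥ (d3d_lev σ p b - sh v) = p := by
              rw [dotProduct_sub, d3d_lev_dot σ p b hb, d3d_hs_sh σ v (hGv v hv), sub_zero]
            have h4 := d3d_lev_of σ hN p _ h3
            rw [d3d_tail_sub, d3d_lev_tail] at h4
            exact h4
          simp only [w', if_pos h1, h2]
      rw [e]
      exact hcyc _
    · have e : Eop bt G w' b = 0 := by
        unfold Eop iF
        have h1 : w' b = 0 := by simp only [w', if_neg hb]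
        rw [h1, map_zero, zero_add]
        refine Finset.sum_eq_zero fun v hv => ?_
        have h2 : w' (b - v) = 0 := by
          simp only [w', if_neg (fun h => hb ((hdvd b v hv).mp h))]
        rw [h2, map_zero, smul_zero]
      rw [e, mul_zero]
  -- the hypotheses of `op_exact`
  have hF : ∀ v ∈ (Fs σ F).support, ∀ h ∈ Ho σ, 0 ≤ h ⬝ᵥ v :=
    fun v hv h hh => hW.hF σ hσ h hh v hv
  have hZ : ∀ z ∈ eJ J, z ∈ Ho σ := by
    intro z hz
    unfold eJ at hz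
    obtain ⟨j, hj, rfl⟩ := List.mem_map.mp hz
    exact hW.all σ hσ j
  have hbd : ∃ B : ℤ, ∀ m ∈ Nset (eJ J) (Ho σ) x, B ≤ σ.1 ⬝ᵥ m := by
    refine ⟨∑ l, σ.1 l * ⌈x l⌉, fun m hm => ?_⟩
    refine Finset.sum_le_sum fun l _ => ?_
    refine mul_le_mul_of_nonneg_left ?_ (hW.posw σ hσ l)
    have h1 := hm.2 (ee l) (hW.all σ hσ l)
    rw [d3d_ee_dot, d3d_rdot_ee] at h1
    exact Int.ceil_le.mpr h1
  have hb : ∀ m ∈ Nset (eJ J) (Ho σ) x, ∀ z ∈ eJ J, (vec k m + bt) ⬝ᵥ vec k z = 0 := by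
    intro m hm z hz
    have h1 := hm.1 z hz
    rw [hxJ z hz] at h1
    unfold eJ at hz
    obtain ⟨j, hj, rfl⟩ := List.mem_map.mp hz
    rw [d3d_ee_dot, d3d_rdot_ee] at h1
    have h2 : (Fin.tail y : Fin n → ℝ) j = -1 := hy j hj
    rw [h2] at h1
    have h3 : m j = -1 := by exact_mod_cast h1
    have h4 : vec k (ee j) = (Pi.single j (1 : k) : Fin n → k) := by
      funext i
      unfold vec ee
      by_cases hi : i = j
      · subst hi
        simp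
      · simp [hi]
    rw [h4, dotProduct_single, mul_one]
    simp [vec, h3, hbt j hj]
  obtain ⟨g', hg's, hg'd, hg'⟩ := op_exact (Ho σ) (Fs σ F) hF (hW.nd σ hσ) (eJ J) hZ hrel
    σ.1 σ.2 hN (fun v hv => (d3d_supp σ F v hv).2) x hbd bt hb p hd
    hw'x hw'd hw'cyc
  have hg'y : ∀ b, g' b ≠ 0 → b ∈ Nset (eJ J) (H2c C Sg σ) (Fin.tail y : Fin n → ℝ) := by
    intro b hb0
    obtain ⟨hb1, -⟩ := hg's.2 b hb0
    refine ⟨fun z hz => ?_, fun h hh => ?_⟩
    · rw [← hxJ z hz]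
      exact hb1.1 z hz
    · rw [← hx0 h hh]
      exact hb1.2 h (hW.sub σ hσ hh)
  -- back to the big lattice
  let g : MFun k n := fun m => if hs σ ⬝ᵥ m = p then g' (Fin.tail m : Fin n → ℤ) else 0
  have hgne : ∀ m, g m ≠ 0 → hs σ ⬝ᵥ m = p ∧ g' (Fin.tail m : Fin n → ℤ) ≠ 0 := by
    intro m hm
    by_cases hc : hs σ ⬝ᵥ m = p
    · refine ⟨hc, ?_⟩
      simp only [g, if_pos hc] at hm
      exact hm
    · exfalso
      apply hm
      simp only [g, if_neg hc]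
  refine ⟨g, ⟨?_, ?_⟩, ?_, ?_⟩
  · refine (hg's.1.image (d3d_lev σ p)).subset ?_
    intro m hm
    obtain ⟨h1, h2⟩ := hgne m hm
    exact ⟨_, h2, d3d_lev_of σ hN p m h1⟩
  · intro m hm
    obtain ⟨h1, h2⟩ := hgne m hm
    exact (d3d_mem Sg J y σ hN p hp m h1).mpr (hg'y _ h2)
  · intro m
    simp only [g]
    split_ifs
    · exact hg'd _
    · exact Submodule.zero_mem _
  · intro m
    have hsub : ∀ v ∈ G.support, (hs σ ⬝ᵥ (m - sh v) = p ↔ hs σ ⬝ᵥ m = p) := by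
      intro v hv
      rw [dotProduct_sub, d3d_hs_sh σ v (hGv v hv), sub_zero]
    by_cases hm : hs σ ⬝ᵥ m = p
    · have e1 : w m = w' (Fin.tail m : Fin n → ℤ) := by
        simp only [w', if_pos (d3d_dvd σ p m hm), d3d_lev_of σ hN p m hm]
      have e2 : EEb bt G g m = Eop bt G g' (Fin.tail m : Fin n → ℤ) := by
        unfold Eop EEb iF
        congr 1
        · simp only [g, if_pos hm]
        · refine Finset.sum_congr rfl fun v hv => ?_
          simp only [g, if_pos ((hsub v hv).mpr hm), d3d_tail_sub]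
      rw [e1, e2]
      exact hg' _
    · have e1 : w m = 0 := by
        by_contra h0
        exact hm (hwp m h0)
      have e2 : EEb bt G g m = 0 := by
        unfold EEb
        have h1 : g m = 0 := by simp only [g, if_neg hm]
        rw [h1, map_zero, zero_add]
        refine Finset.sum_eq_zero fun v hv => ?_
        have h2 : g (m - sh v) = 0 := by
          simp only [g, if_neg (fun h => hm ((hsub v hv).mp h))]
        rw [h2, map_zero, smul_zero]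
      rw [e1, e2, sub_zero, mul_zero]

end MPb07157T
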