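import Pool.Agent.Lib.MP_b07157_agN.D2
import Pool.Agent.Lib.MP_b07157_agN.D3e

/-!
# The injectivity theorem
-/

noncomputable section

namespace MPb07157T

open Finset Matrix

variable {k : Type} [Field k] {n : ℕ} {C : Finset (Fin n)} {dd : Fin n → ℤ}
  {Ho : (Fin n → ℤ) × ℤ → Finset (Fin n → ℤ)} {bt : Fin n → k}

/-- The injectivity theorem: induction on `S` (for all `J`) with `XStc.step` and `XStc.base`. -/
theorem XStc.all [CharZero k] {F : (Fin n → ℤ) →₀ k} {Sg : Finset ((Fin n → ℤ) × ℤ)}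
    (hW : WOKc C dd Sg Ho F) {c : Fin (n + 1) → ℝ} {T : ℝ} (hT : 0 < T) (S J : List (Fin n))
    (hS : S.Nodup) (hSJ : ∀ i ∈ S, i ∉ J) (hc : ∀ i, i ∈ S ∨ i ∈ J → c i.succ = -1)
    (hC : ∀ i, i ∈ S ∨ i ∈ J → i ∈ C) (hbt : ∀ i, i ∈ S ∨ i ∈ J → bt i = 1) :
    XStc C bt F Sg c T S J := by
  induction S generalizing J with
  | nil =>
    exact XStc.base hW hT J (fun j hj => hC j (Or.inr hj)) (fun j hj => hbt j (Or.inr hj))
      (fun j hj => hc j (Or.inr hj))
  | cons j S ih =>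
    have hn := List.nodup_cons.1 hS
    have hjJ : j ∉ J := hSJ j List.mem_cons_self
    have hSJ' : ∀ i ∈ S, i ∉ J := fun i hi => hSJ i (List.mem_cons_of_mem _ hi)
    have h1 : ∀ i, i = j ∨ i ∈ S ∨ i ∈ J → i ∈ j :: S ∨ i ∈ J := by
      rintro i (rfl | h | h)
      · exact Or.inl List.mem_cons_self
      · exact Or.inl (List.mem_cons_of_mem _ h)
      · exact Or.inr h
    have h2 : ∀ i, i ∈ S ∨ i ∈ J → i ∈ j :: S ∨ i ∈ J := by
      rintro i (h | h)
      · exact Or.inl (List.mem_cons_of_mem _ h)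
      · exact Or.inr h
    have h3 : ∀ i, i ∈ S ∨ i ∈ j :: J → i ∈ j :: S ∨ i ∈ J := by
      rintro i (h | h)
      · exact Or.inl (List.mem_cons_of_mem _ h)
      · rcases List.mem_cons.1 h with rfl | h
        · exact Or.inl List.mem_cons_self
        · exact Or.inr h
    refine XStc.step hW hT.le hn.1 hjJ (fun i hi => hc i (h1 i hi)) hSJ'
      (fun i hi => hC i (h1 i hi)) (fun i hi => hbt i (h1 i hi))
      (ih J hn.2 hSJ' (fun i hi => hc i (h2 i hi)) (fun i hi => hC i (h2 i hi))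
        fun i hi => hbt i (h2 i hi))
      (ih (j :: J) hn.2 ?_ (fun i hi => hc i (h3 i hi)) (fun i hi => hC i (h3 i hi))
        fun i hi => hbt i (h3 i hi))
    intro i hi h
    rcases List.mem_cons.1 h with rfl | h
    · exact hn.1 hi
    · exact hSJ' i hi h

end MPb07157T
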