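import Pool.Agent.Lib.MP_b07157_agE1.FaceEnd
import Pool.Agent.Lib.MP_b07157_agN.CDefs

/-!
# E1 for a general cone and a general shift vector
-/

noncomputable section

namespace MP_b07157_agE1

open Finset Module Matrix Polynomial
open MPb07157T (ee rdot LFun SuppIn Deg gi ND)

variable {n : ℕ}

/-- point of the line through `b` and `a` -/
private def ecl (b a : Fin n → ℚ) (t : ℚ) : Fin n → ℚ := fun l => b l + t * (a l - b l)

private theorem ec_rank (G : Geo n) (κ : ℤ) (c : Lat n → ℂ) (b a : Fin n → ℚ)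
    (hb : Good G (fun l => ((b l : ℚ) : ℂ)))
    (hadm : {t : ℚ | Adm G (ecl b a t)}.Infinite)
    (J : ℤ) (hJ : J ≤ κ + G.N) (hF : HF G c J)
    (hstep : ∃ J' : ℤ, ∀ m ∈ G.L0, J' ≤ G.dg m → ∃ v ∈ G.S, m - v ∈ G.L0) :
    finrank ℂ (imD G c (fun l => ((b l : ℚ) : ℂ)) κ) ≤ finrank ℂ (imF G c κ) := by
  classical
  rw [finrank_imD G κ c _ hb]
  set M1 := MxH G κ (fun l => ((b l : ℚ) : ℂ)) + MxF G κ c with hM1
  obtain ⟨P, Q, hPQ⟩ := rank_unit M1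
  -- polynomial matrix
  let bp : Fin n → ℂ[X] := fun l => C ((b l : ℚ) : ℂ) + X * C ((a l : ℂ) - (b l : ℂ))
  let Mp : Matrix (W0 G κ) (W1 G κ) ℂ[X] := MxH G κ bp + MxF G κ (fun v => C (c v))
  let D : ℂ[X] := ((P.map C) * Mp * (Q.map C)).det
  have hev : ∀ t : ℂ, D.eval t =
      (P * (MxH G κ (fun l => (b l : ℂ) + t * ((a l : ℂ) - (b l : ℂ))) + MxF G κ c) * Q).det := by
    intro t
    have h1 : D.eval t = (evalRingHom t) D := rfl
    rw [h1, RingHom.map_det]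
    congr 1
    have h2 : (evalRingHom t).mapMatrix ((P.map C) * Mp * (Q.map C)) =
        ((P.map C) * Mp * (Q.map C)).map (evalRingHom t) := rfl
    have e1 : (P.map C).map (evalRingHom t) = P := by
      ext i j; simp
    have e2 : (Q.map C).map (evalRingHom t) = Q := by
      ext i j; simp
    rw [h2, Matrix.map_mul, Matrix.map_mul, e1, e2, Matrix.map_add _ (map_add _), MxH_map, MxF_map]
    simp [bp]
  have hD0 : D ≠ 0 := by
    intro h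
    have h1 := hev 0
    simp only [zero_mul, add_zero] at h1
    rw [h, eval_zero, ← hM1, hPQ, Matrix.det_one] at h1
    exact zero_ne_one h1
  -- a good `t`
  have hinf : ((fun t : ℚ => (t : ℂ)) '' {t : ℚ | Adm G (ecl b a t)}).Infinite :=
    hadm.image (Rat.cast_injective.injOn)
  have hfin : {x : ℂ | D.IsRoot x}.Finite := by
    refine (D.roots.toFinset.finite_toSet).subset ?_
    intro x hx
    rw [Finset.mem_coe, Multiset.mem_toFinset, mem_roots hD0]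
    exact hx
  obtain ⟨x, ⟨t, ht, rfl⟩, hx⟩ := (hinf.diff hfin).nonempty
  have hx' : D.eval (t : ℂ) ≠ 0 := hx
  rw [hev] at hx'
  set M2 := MxH G κ (fun l => (b l : ℂ) + (t:ℂ) * ((a l : ℂ) - (b l : ℂ))) + MxF G κ c with hM2
  have h1 : M1.rank ≤ M2.rank := by
    have hu : IsUnit (P * M2 * Q) := by
      rw [Matrix.isUnit_iff_isUnit_det]
      exact isUnit_iff_ne_zero.2 hx'
    have h2 : (P * M2 * Q).rank = M1.rank := by
      rw [Matrix.rank_of_isUnit _ hu, Fintype.card_fin]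
    calc M1.rank = (P * M2 * Q).rank := h2.symm
      _ ≤ (P * M2).rank := Matrix.rank_mul_le_left _ _
      _ ≤ M2.rank := Matrix.rank_mul_le_right _ _
  have hlin : (fun l => ((ecl b a t l : ℚ) : ℂ)) =
      fun l => (b l : ℂ) + (t:ℂ) * ((a l : ℂ) - (b l : ℂ)) := by
    funext l
    simp [ecl]
  obtain ⟨hg, q, hq, hsc⟩ := ht
  have h2 := rankD_le_rankF_rat G κ c (ecl b a t) hg q hq hsc J hJ hF hstep
  have hgt : Good G (fun l => ((ecl b a t l : ℚ) : ℂ)) := by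
    intro l hl
    simp [hg l hl]
  rw [finrank_imD G κ c _ hgt, hlin, ← hM2] at h2
  exact h1.trans h2

private theorem ec_geo (G : Geo n) (c : Lat n → ℂ) (b a : Fin n → ℚ)
    (hb : Good G (fun l => ((b l : ℚ) : ℂ)))
    (hadm : {t : ℚ | Adm G (ecl b a t)}.Infinite)
    (J : ℤ) (hF : HF G c J)
    (hstep : ∃ J' : ℤ, ∀ m ∈ G.L0, J' ≤ G.dg m → ∃ v ∈ G.S, m - v ∈ G.L0)
    (m : Lat n) (hm : m ∈ G.L0) (w : Fin n → Fn ℂ n) (hw : w ∈ UP G (fun _ => True))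
    (hwm : TD G c (fun l => ((b l : ℚ) : ℂ)) w = Finsupp.single m 1) :
    ∃ u ∈ (UP G (fun j => j = G.dg m - G.N) : Submodule ℂ (Fin n → Fn ℂ n)),
      TF G c u = Finsupp.single m 1 := by
  classical
  have hN := G.hN
  obtain ⟨B, hB⟩ := ((Finset.univ.biUnion fun l => (w l).support).image G.dg).exists_le
  set κ : ℤ := max (max B J) (G.dg m) with hκ
  have k1 : B ≤ κ := (le_max_left _ _).trans (le_max_left _ _)
  have k2 : J ≤ κ := (le_max_right _ _).trans (le_max_left _ _)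
  have k3 : G.dg m ≤ κ := le_max_right _ _
  have hw2 : w ∈ UP G (fun j => j ≤ κ) := by
    rw [mem_UP] at hw ⊢
    intro l
    have h1 := hw l
    rw [Finsupp.mem_supported] at h1 ⊢
    intro m' hm'
    refine ⟨(h1 hm').1, ?_⟩
    refine le_trans (hB _ ?_) k1
    exact Finset.mem_image_of_mem _ (Finset.mem_biUnion.2 ⟨l, Finset.mem_univ _, hm'⟩)
  have h1 : (Finsupp.single m 1 : Fn ℂ n) ∈ imD G c (fun l => ((b l : ℚ) : ℂ)) κ :=
    ⟨w, hw2, hwm⟩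
  by_cases h2 : (Finsupp.single m 1 : Fn ℂ n) ∈ imF G c κ
  · obtain ⟨u, hu, hu2⟩ := h2
    have h3 := pd_TF G c (fun j => j = G.dg m) u
    rw [hu2, pd_single_mem _ _ (by exact rfl)] at h3
    refine ⟨_, ?_, h3.symm⟩
    refine UP_mono G ?_ (pdU_mem G _ (fun j => j + G.N = G.dg m) _ hu)
    rintro j ⟨-, hj⟩
    omega
  · exfalso
    have h3 := rankF_lt_rankD G c (fun l => ((b l : ℚ) : ℂ)) hb κ m hm (by omega) h1 h2
    have h4 := ec_rank G κ c b a hb hadm J (by omega) hF hstep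
    omega

/-- the lattice set -/
private def ecM (κ : (Fin n → ℤ) × ℤ) (H : Finset (Fin n → ℤ)) (a : Fin n → ℚ) :
    Set (Fin n → ℤ) :=
  {m | κ.2 ∣ κ.1 ⬝ᵥ m ∧ ∀ h ∈ H, -Hq h a ≤ ((h ⬝ᵥ m : ℤ) : ℚ)}

/-- the standing hypotheses -/
private structure ECH (F : (Fin n → ℤ) →₀ ℂ) (κ : (Fin n → ℤ) × ℤ) (H : Finset (Fin n → ℤ)) :
    Prop where
  hN : 0 < κ.2
  hκ : ∀ v ∈ F.support, κ.1 ⬝ᵥ v = κ.2
  hF : ∀ h ∈ H, ∀ v ∈ F.support, 0 ≤ h ⬝ᵥ v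
  hcone : ∀ x : Fin n → ℝ, (∀ h ∈ H, 0 ≤ rdot h x) → ∃ l : (Fin n → ℤ) → ℝ,
      (∀ v ∈ F.support, 0 ≤ l v) ∧ ∀ j, ∑ v ∈ F.support, l v * (v j : ℝ) = x j
  hND : ND H F

private theorem ec_comb (s : Finset (Fin n → ℤ)) (l : (Fin n → ℤ) → ℝ) (h : Fin n → ℤ)
    (x : Fin n → ℝ) (hx : ∀ j, ∑ v ∈ s, l v * (v j : ℝ) = x j) :
    rdot h x = ∑ v ∈ s, l v * ((h ⬝ᵥ v : ℤ) : ℝ) := by
  unfold rdot
  simp only [← hx, Finset.mul_sum]
  rw [Finset.sum_comm]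
  refine Finset.sum_congr rfl fun v _ => ?_
  unfold dotProduct
  push_cast
  rw [Finset.mul_sum]
  exact Finset.sum_congr rfl fun i _ => by ring

/-- decomposition of `m + a` -/
private theorem ec_dec {F : (Fin n → ℤ) →₀ ℂ} {κ : (Fin n → ℤ) × ℤ} {H : Finset (Fin n → ℤ)}
    (hE : ECH F κ H) (a : Fin n → ℚ) {m : Fin n → ℤ} (hm : m ∈ ecM κ H a) :
    ∃ l : (Fin n → ℤ) → ℝ, (∀ v ∈ F.support, 0 ≤ l v) ∧
      (∀ j, ∑ v ∈ F.support, l v * (v j : ℝ) = (m j : ℝ) + (a j : ℝ)) ∧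
      (∀ h : Fin n → ℤ, ∑ v ∈ F.support, l v * ((h ⬝ᵥ v : ℤ) : ℝ) =
        ((h ⬝ᵥ m : ℤ) : ℝ) + ((Hq h a : ℚ) : ℝ)) ∧
      κ.2 * ∑ v ∈ F.support, l v = ((κ.1 ⬝ᵥ m : ℤ) : ℝ) + ((Hq κ.1 a : ℚ) : ℝ) := by
  have hr : ∀ h : Fin n → ℤ, rdot h (fun j => (m j : ℝ) + (a j : ℝ)) =
      ((h ⬝ᵥ m : ℤ) : ℝ) + ((Hq h a : ℚ) : ℝ) := by
    intro h
    have := rdot_add h (fun i => (m i : ℝ)) (rv a)
    rw [rdot_int, rdot_rv] at this
    exact this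
  obtain ⟨l, hl0, hl⟩ := hE.hcone (fun j => (m j : ℝ) + (a j : ℝ)) (fun h hh => by
    rw [hr]
    have h1 := hm.2 h hh
    have h2 : (0:ℚ) ≤ ((h ⬝ᵥ m : ℤ) : ℚ) + Hq h a := by linarith
    exact_mod_cast h2)
  have h3 : ∀ h : Fin n → ℤ, ∑ v ∈ F.support, l v * ((h ⬝ᵥ v : ℤ) : ℝ) =
        ((h ⬝ᵥ m : ℤ) : ℝ) + ((Hq h a : ℚ) : ℝ) := by
    intro h
    rw [← ec_comb _ l h _ hl, hr]
  refine ⟨l, hl0, hl, h3, ?_⟩
  rw [← h3 κ.1, Finset.mul_sum]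
  refine Finset.sum_congr rfl fun v hv => ?_
  rw [hE.hκ v hv, mul_comm]

private theorem ecM_add {F : (Fin n → ℤ) →₀ ℂ} {κ : (Fin n → ℤ) × ℤ} {H : Finset (Fin n → ℤ)}
    (hE : ECH F κ H) (a : Fin n → ℚ) {v m : Fin n → ℤ} (hv : v ∈ F.support)
    (hm : m ∈ ecM κ H a) : m + v ∈ ecM κ H a := by
  refine ⟨?_, fun h hh => ?_⟩
  · rw [dotProduct_add, hE.hκ v hv]
    exact dvd_add hm.1 (dvd_refl _)
  · have h1 := hm.2 h hh
    have h2 : (0:ℚ) ≤ ((h ⬝ᵥ v : ℤ) : ℚ) := by exact_mod_cast hE.hF h hh v hv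
    rw [dotProduct_add]
    push_cast
    linarith

private theorem ecM_lb {F : (Fin n → ℤ) →₀ ℂ} {κ : (Fin n → ℤ) × ℤ} {H : Finset (Fin n → ℤ)}
    (hE : ECH F κ H) (a : Fin n → ℚ) {m : Fin n → ℤ} (hm : m ∈ ecM κ H a) :
    -⌈Hq κ.1 a⌉ ≤ κ.1 ⬝ᵥ m := by
  obtain ⟨l, hl0, -, -, h⟩ := ec_dec hE a hm
  have h1 : (0:ℝ) ≤ κ.2 * ∑ v ∈ F.support, l v :=
    mul_nonneg (by exact_mod_cast hE.hN.le) (Finset.sum_nonneg hl0)
  rw [h] at h1
  have h2 : (0:ℚ) ≤ ((κ.1 ⬝ᵥ m : ℤ) : ℚ) + Hq κ.1 a := by exact_mod_cast h1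
  have h3 := Int.le_ceil (Hq κ.1 a)
  have h4 : (0:ℚ) ≤ ((κ.1 ⬝ᵥ m : ℤ) : ℚ) + ((⌈Hq κ.1 a⌉ : ℤ) : ℚ) := by linarith
  have h5 : 0 ≤ κ.1 ⬝ᵥ m + ⌈Hq κ.1 a⌉ := by exact_mod_cast h4
  linarith

private theorem ecM_fin {F : (Fin n → ℤ) →₀ ℂ} {κ : (Fin n → ℤ) × ℤ} {H : Finset (Fin n → ℤ)}
    (hE : ECH F κ H) (a : Fin n → ℚ) (c : ℤ) :
    {m : Fin n → ℤ | m ∈ ecM κ H a ∧ κ.1 ⬝ᵥ m ≤ c}.Finite := by
  classical
  have hNr : (0:ℝ) < κ.2 := by exact_mod_cast hE.hN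
  let R : ℝ := |((c : ℝ) + ((Hq κ.1 a : ℚ) : ℝ)) / κ.2|
  let U : ℝ := ∑ v ∈ F.support, ∑ j, |(v j : ℝ)|
  let T : ℝ := ∑ j, |(a j : ℝ)|
  obtain ⟨K, hK⟩ : ∃ K : ℤ, R * U + T ≤ K := ⟨⌈R * U + T⌉, Int.le_ceil _⟩
  refine (Set.finite_Icc (fun _ : Fin n => -K) (fun _ => K)).subset ?_
  rintro m ⟨hm, hc⟩
  obtain ⟨l, hl0, hl, -, hs⟩ := ec_dec hE a hm
  have hL : ∑ v ∈ F.support, l v ≤ R := by
    have h1 : ∑ v ∈ F.support, l v = (((κ.1 ⬝ᵥ m : ℤ) : ℝ) + ((Hq κ.1 a : ℚ) : ℝ)) / κ.2 := by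
      rw [← hs]
      field_simp
    rw [h1]
    refine le_trans ?_ (le_abs_self _)
    refine div_le_div_of_nonneg_right ?_ hNr.le
    have : ((κ.1 ⬝ᵥ m : ℤ) : ℝ) ≤ (c : ℝ) := by exact_mod_cast hc
    linarith
  have hlR : ∀ v ∈ F.support, l v ≤ R := fun v hv =>
    (Finset.single_le_sum (f := l) hl0 hv).trans hL
  have hR : 0 ≤ R := abs_nonneg _
  have habs : ∀ j, |(m j : ℝ)| ≤ K := by
    intro j
    have h1 : (m j : ℝ) = ∑ v ∈ F.support, l v * (v j : ℝ) - (a j : ℝ) := by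
      rw [hl j]
      ring
    have h2 : |∑ v ∈ F.support, l v * (v j : ℝ)| ≤ R * U := by
      refine (Finset.abs_sum_le_sum_abs _ _).trans ?_
      show _ ≤ R * ∑ v ∈ F.support, ∑ j, |(v j : ℝ)|
      rw [Finset.mul_sum]
      refine Finset.sum_le_sum fun v hv => ?_
      rw [abs_mul, abs_of_nonneg (hl0 v hv)]
      refine mul_le_mul (hlR v hv) ?_ (abs_nonneg _) hR
      exact Finset.single_le_sum (f := fun j => |(v j : ℝ)|) (fun i _ => abs_nonneg _)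
        (Finset.mem_univ j)
    have h3 : |(a j : ℝ)| ≤ T :=
      Finset.single_le_sum (f := fun j => |(a j : ℝ)|) (fun i _ => abs_nonneg _)
        (Finset.mem_univ j)
    rw [h1]
    have h4 := abs_sub (∑ v ∈ F.support, l v * (v j : ℝ)) (a j : ℝ)
    linarith
  refine Set.mem_Icc.2 ⟨fun j => ?_, fun j => ?_⟩
  · have h1 := neg_le_of_abs_le (habs j)
    show -K ≤ m j
    exact_mod_cast h1
  · have h1 := le_of_abs_le (habs j)
    show m j ≤ K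
    exact_mod_cast h1

private theorem ecM_coord {κ : (Fin n → ℤ) × ℤ} {H : Finset (Fin n → ℤ)} {a : Fin n → ℚ}
    {m : Fin n → ℤ} (hm : m ∈ ecM κ H a) {j : Fin n} (hj : ee j ∈ H) (haj : a j = 1) :
    -1 ≤ m j := by
  have h1 := hm.2 (ee j) hj
  rw [Hq_ee, haj, ee_dot] at h1
  exact_mod_cast h1

/-- The geometric data of the cone. -/
private def ecG {F : (Fin n → ℤ) →₀ ℂ} {κ : (Fin n → ℤ) × ℤ} {H : Finset (Fin n → ℤ)}
    (hE : ECH F κ H) (a : Fin n → ℚ) (S : Finset (Fin n)) (hSH : ∀ j ∈ S, ee j ∈ H)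
    (haS1 : ∀ j ∈ S, a j = 1) : Geo n where
  S := F.support
  L0 := {m | m ∈ ecM κ H a ∧ ∀ j ∈ S, 0 ≤ m j}
  L l := {m | m ∈ ecM κ H a ∧ ∀ j ∈ S, j ≠ l → 0 ≤ m j}
  dg := { toFun := fun m => κ.1 ⬝ᵥ m
          map_zero' := dotProduct_zero _
          map_add' := dotProduct_add _ }
  N := κ.2
  B := -⌈Hq κ.1 a⌉
  hN := hE.hN
  hS := fun v hv => hE.hκ v hv
  sub := fun l m hm => ⟨hm.1, fun j hj _ => hm.2 j hj⟩
  add0 := fun v hv m hm => ⟨ecM_add hE a hv hm.1, fun j hj => by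
    have h1 := hm.2 j hj
    have h2 := hE.hF _ (hSH j hj) v hv
    rw [ee_dot] at h2
    rw [Pi.add_apply]; omega⟩
  add := fun l v hv m hm => ⟨ecM_add hE a hv hm.1, fun j hj hjl => by
    have h1 := hm.2 j hj hjl
    have h2 := hE.hF _ (hSH j hj) v hv
    rw [ee_dot] at h2
    rw [Pi.add_apply]; omega⟩
  jump := by
    rintro l m ⟨hm1, hm2⟩ hm0
    have hl : l ∈ S ∧ m l < 0 := by
      by_contra hcon
      apply hm0
      refine ⟨hm1, fun j hj => ?_⟩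
      by_cases hjl : j = l
      · subst hjl
        by_contra h
        exact hcon ⟨hj, not_le.1 h⟩
      · exact hm2 j hj hjl
    have h2 : -1 ≤ m l := ecM_coord hm1 (hSH l hl.1) (haS1 l hl.1)
    have h3 : m l = -1 := by have := hl.2; omega
    refine ⟨h3, fun v hv hv0 => ⟨ecM_add hE a hv hm1, fun j hj => ?_⟩⟩
    have h4 := hE.hF _ (hSH j hj) v hv
    rw [ee_dot] at h4
    rw [Pi.add_apply]
    by_cases hjl : j = l
    · subst hjl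
      omega
    · have := hm2 j hj hjl
      omega
  fin0 := fun c => (ecM_fin hE a c).subset fun m hm => ⟨hm.1.1, hm.2⟩
  finL := fun l c => (ecM_fin hE a c).subset fun m hm => ⟨hm.1.1, hm.2⟩
  lb := fun m hm => ecM_lb hE a hm.1

private theorem ec_Hq (h : Fin n → ℤ) (b a : Fin n → ℚ) (t : ℚ) :
    Hq h (ecl b a t) = Hq h b + t * (Hq h a - Hq h b) := by
  unfold Hq ecl
  rw [← Finset.sum_sub_distrib, Finset.mul_sum, ← Finset.sum_add_distrib]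
  exact Finset.sum_congr rfl fun j _ => by ring

private theorem ec_stable (h : Fin n → ℤ) (b a : Fin n → ℚ)
    (hgen : Hq h a = Hq h b ∨ ∀ z : ℤ, Hq h a ≠ z) :
    ∀ᶠ t in nhds (1:ℚ), ∀ z : ℤ, (-Hq h (ecl b a t) ≤ z ↔ -Hq h a ≤ z) := by
  rcases hgen with h0 | hz
  · refine Filter.Eventually.of_forall fun t z => ?_
    rw [ec_Hq, h0, sub_self, mul_zero, add_zero]
  · have hcont : Continuous fun t : ℚ => Hq h (ecl b a t) := by
      simp only [ec_Hq]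
      fun_prop
    have h1 : Hq h (ecl b a 1) = Hq h a := by rw [ec_Hq]; ring
    have h2 : Hq h (ecl b a 1) ∈ Set.Ioo ((⌊Hq h a⌋ : ℤ) : ℚ) ((⌊Hq h a⌋ : ℤ) + 1) := by
      rw [h1]
      refine ⟨lt_of_le_of_ne (Int.floor_le _) (Ne.symm (hz _)), Int.lt_floor_add_one _⟩
    have h3 := hcont.continuousAt.eventually (isOpen_Ioo.mem_nhds h2)
    filter_upwards [h3] with t ht z
    have h4 : ⌊Hq h (ecl b a t)⌋ = ⌊Hq h a⌋ := by
      rw [Int.floor_eq_iff]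
      exact ⟨ht.1.le, ht.2⟩
    have h5 : ∀ x : ℚ, (-x ≤ z ↔ -z ≤ ⌊x⌋) := by
      intro x
      rw [Int.le_floor, neg_le]
      push_cast
      rfl
    rw [h5, h5, h4]

private theorem ec_stable_all (H : Finset (Fin n → ℤ)) (b a : Fin n → ℚ)
    (hgen : ∀ h ∈ H, Hq h a = Hq h b ∨ ∀ z : ℤ, Hq h a ≠ z) :
    ∀ᶠ t in nhds (1:ℚ), ∀ h ∈ H, ∀ z : ℤ, (-Hq h (ecl b a t) ≤ z ↔ -Hq h a ≤ z) := by
  rw [Filter.eventually_all_finset]
  exact fun h hh => ec_stable h b a (hgen h hh)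

private theorem ecM_lin (κ : (Fin n → ℤ) × ℤ) (H : Finset (Fin n → ℤ)) (b a : Fin n → ℚ) (t : ℚ)
    (ht : ∀ h ∈ H, ∀ z : ℤ, (-Hq h (ecl b a t) ≤ z ↔ -Hq h a ≤ z)) :
    ecM κ H (ecl b a t) = ecM κ H a := by
  ext m
  constructor
  · rintro ⟨h1, h2⟩
    exact ⟨h1, fun h hh => (ht h hh _).1 (h2 h hh)⟩
  · rintro ⟨h1, h2⟩
    exact ⟨h1, fun h hh => (ht h hh _).2 (h2 h hh)⟩

private theorem ec_adm {F : (Fin n → ℤ) →₀ ℂ} {κ : (Fin n → ℤ) × ℤ} {H : Finset (Fin n → ℤ)}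
    (hE : ECH F κ H) (b a : Fin n → ℚ) (S : Finset (Fin n)) (hSH : ∀ j ∈ S, ee j ∈ H)
    (haS1 : ∀ j ∈ S, a j = 1) (hbS1 : ∀ j ∈ S, b j = 1) (t : ℚ)
    (ht : ∀ h ∈ H, ∀ z : ℤ, (-Hq h (ecl b a t) ≤ z ↔ -Hq h a ≤ z)) :
    Adm (ecG hE a S hSH haS1) (ecl b a t) := by
  have hb1 : ∀ j ∈ S, ecl b a t j = 1 := by
    intro j hj
    simp [ecl, haS1 j hj, hbS1 j hj]
  refine ⟨?_, ?_⟩
  · rintro l ⟨m, hm, hm0⟩
    by_cases hl : l ∈ S
    · exact hb1 l hl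
    · exfalso
      apply hm0
      exact ⟨hm.1, fun j hj => hm.2 j hj (fun h => hl (h ▸ hj))⟩
  · obtain ⟨q, hq, hqp⟩ := exists_beta (ecl b a t) κ.2 hE.hN
    refine ⟨q, hq, fun p hp hpq => ?_⟩
    obtain ⟨γ, s, hs, hγ⟩ := hqp p hp hpq
    refine ⟨κ.2 • γ, hγ, ?_⟩
    have hp0 : (0:ℚ) < p := by exact_mod_cast hp.pos
    have key : ∀ m : Fin n → ℤ, κ.2 • γ + p • m ∈ ecM κ H a ↔ m ∈ ecM κ H a := by
      intro m
      rw [← ecM_lin κ H b a t ht]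
      have e1 : κ.2 ∣ κ.1 ⬝ᵥ (κ.2 • γ + p • m) ↔ κ.2 ∣ κ.1 ⬝ᵥ m := by
        have h1 : κ.1 ⬝ᵥ (κ.2 • γ + p • m) = κ.1 ⬝ᵥ m +
            κ.2 * (κ.1 ⬝ᵥ γ + s * (κ.1 ⬝ᵥ m)) := by
          rw [dotProduct_add, dotProduct_smul, dotProduct_smul, nsmul_eq_mul, hs, smul_eq_mul]
          ring
        rw [h1]
        exact (dvd_add_left (Dvd.intro _ rfl))
      have e2 : ∀ h : Fin n → ℤ,
          (-Hq h (ecl b a t) ≤ ((h ⬝ᵥ (κ.2 • γ + p • m) : ℤ) : ℚ)) ↔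
          (-Hq h (ecl b a t) ≤ ((h ⬝ᵥ m : ℤ) : ℚ)) := by
        intro h
        have h1 : ((h ⬝ᵥ (κ.2 • γ + p • m) : ℤ) : ℚ) = ((p:ℚ) - 1) * Hq h (ecl b a t) +
            p * ((h ⬝ᵥ m : ℤ) : ℚ) := by
          rw [dotProduct_add, dotProduct_smul (p : ℕ), nsmul_eq_mul]
          push_cast
          congr 1
          rw [← Hq_int]
          unfold Hq
          rw [Finset.mul_sum]
          refine Finset.sum_congr rfl fun j _ => ?_
          change (h j : ℚ) * (((κ.2 • γ) j : ℤ) : ℚ) = _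
          rw [hγ j]
          ring
        rw [h1]
        constructor
        · intro h2
          have h3 : 0 ≤ p * (Hq h (ecl b a t) + ((h ⬝ᵥ m : ℤ) : ℚ)) := by linarith
          have h4 := nonneg_of_mul_nonneg_right h3 hp0
          linarith
        · intro h2
          have h4 : 0 ≤ Hq h (ecl b a t) + ((h ⬝ᵥ m : ℤ) : ℚ) := by linarith
          have h3 := mul_nonneg hp0.le h4
          linarith
      constructor
      · rintro ⟨h1, h2⟩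
        exact ⟨e1.1 h1, fun h hh => (e2 h).1 (h2 h hh)⟩
      · rintro ⟨h1, h2⟩
        exact ⟨e1.2 h1, fun h hh => (e2 h).2 (h2 h hh)⟩
    have keyS : ∀ m : Fin n → ℤ, ∀ j ∈ S, (0 ≤ (κ.2 • γ + p • m) j ↔ 0 ≤ m j) := by
      intro m j hj
      have h1 : (κ.2 • γ) j = (p : ℤ) - 1 := by
        have := hγ j
        rw [hb1 j hj, mul_one] at this
        exact_mod_cast this
      rw [Pi.add_apply, h1, Pi.smul_apply, nsmul_eq_mul]
      have hp1 : (0:ℤ) < p := by exact_mod_cast hp.pos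
      constructor
      · intro h2
        by_contra h3
        push Not at h3
        have h4 : m j ≤ -1 := by omega
        nlinarith
      · intro h2
        have h4 := mul_nonneg hp1.le h2
        have h5 : (1:ℤ) ≤ p := hp1
        linarith
    exact
      { h0 := fun m => by
          constructor
          · rintro ⟨h1, h2⟩
            exact ⟨(key m).1 h1, fun j hj => (keyS m j hj).1 (h2 j hj)⟩
          · rintro ⟨h1, h2⟩
            exact ⟨(key m).2 h1, fun j hj => (keyS m j hj).2 (h2 j hj)⟩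
        h := fun l m => by
          constructor
          · rintro ⟨h1, h2⟩
            exact ⟨(key m).1 h1, fun j hj hjl => (keyS m j hj).1 (h2 j hj hjl)⟩
          · rintro ⟨h1, h2⟩
            exact ⟨(key m).2 h1, fun j hj hjl => (keyS m j hj).2 (h2 j hj hjl)⟩ }

private theorem ec_hadm {F : (Fin n → ℤ) →₀ ℂ} {κ : (Fin n → ℤ) × ℤ} {H : Finset (Fin n → ℤ)}
    (hE : ECH F κ H) (b a : Fin n → ℚ) (S : Finset (Fin n)) (hSH : ∀ j ∈ S, ee j ∈ H)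
    (haS1 : ∀ j ∈ S, a j = 1) (hbS1 : ∀ j ∈ S, b j = 1)
    (hgen : ∀ h ∈ H, Hq h a = Hq h b ∨ ∀ z : ℤ, Hq h a ≠ z) :
    {t : ℚ | Adm (ecG hE a S hSH haS1) (ecl b a t)}.Infinite := by
  have h1 : {t : ℚ | Adm (ecG hE a S hSH haS1) (ecl b a t)} ∈ nhds (1:ℚ) := by
    filter_upwards [ec_stable_all H b a hgen] with t ht
    exact ec_adm hE b a S hSH haS1 hbS1 t ht
  exact infinite_of_mem_nhds 1 h1

private theorem ec_hf {F : (Fin n → ℤ) →₀ ℂ} {κ : (Fin n → ℤ) × ℤ} {H : Finset (Fin n → ℤ)}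
    (hE : ECH F κ H) (a : Fin n → ℚ) (S : Finset (Fin n)) (hSH : ∀ j ∈ S, ee j ∈ H)
    (haS1 : ∀ j ∈ S, a j = 1) : ∃ J, HF (ecG hE a S hSH haS1) (fun v => F v) J := by
  classical
  let c : (Fin n → ℤ) → ℤ := fun h => if ∃ j ∈ S, h = ee j then 0 else ⌈-Hq h a⌉
  have hfin := MPb07157T.fin_bad H F (fun v hv h hh => hE.hF h hh v hv) hE.hND c
  obtain ⟨B, hB⟩ := (hfin.toFinset.image fun m => κ.1 ⬝ᵥ m).exists_le
  refine ⟨B + 1, ?_⟩
  intro m hm hd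
  have hd' : B + 1 ≤ κ.1 ⬝ᵥ m := hd
  have hm1 : m ∈ ecM κ H a := hm.1
  have hm2 : ∀ j ∈ S, 0 ≤ m j := hm.2
  have hc : ∀ h ∈ H, c h ≤ h ⬝ᵥ m := by
    intro h hh
    by_cases hj : ∃ j ∈ S, h = ee j
    · have e : c h = 0 := if_pos hj
      obtain ⟨j, hj, rfl⟩ := hj
      rw [e, ee_dot]
      exact hm2 j hj
    · have e : c h = ⌈-Hq h a⌉ := if_neg hj
      rw [e]
      exact Int.ceil_le.2 (hm1.2 h hh)
  have hnb : ∃ g : Fin n → ((Fin n → ℤ) →₀ ℂ), (∀ i, ∀ v ∈ (g i).support,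
      ∀ h ∈ H, c h ≤ h ⬝ᵥ v) ∧
        ∀ m' : Fin n → ℤ,
          (∑ i, ∑ v ∈ (g i).support, (g i) v * (((m' - v) i : ℤ) : ℂ) * F (m' - v)) =
            if m' = m then 1 else 0 := by
    by_contra hcon
    have h1 : m ∈ hfin.toFinset := by
      rw [Set.Finite.mem_toFinset]
      exact ⟨hc, hcon⟩
    have h2 : κ.1 ⬝ᵥ m ≤ B := hB _ (Finset.mem_image_of_mem (fun m => κ.1 ⬝ᵥ m) h1)
    omega
  obtain ⟨g, hg, hgm⟩ := hnb
  have hTF : TF (ecG hE a S hSH haS1) (fun v => F v) g = Finsupp.single m 1 := by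
    ext m'
    rw [TF_apply, Finsupp.finsetSum_apply, Finsupp.single_apply]
    have h1 := hgm m'
    simp only [eq_comm (a := m)]
    rw [← h1]
    exact Finset.sum_congr rfl fun l _ => Fop_apply' F l (g l) m'
  have h3 := pd_TF (ecG hE a S hSH haS1) (fun v => F v)
    (fun j => j = (ecG hE a S hSH haS1).dg m) g
  rw [hTF, pd_single_mem _ _ (by exact rfl)] at h3
  refine ⟨_, ?_, h3.symm⟩
  rw [mem_UP]
  intro l
  rw [Finsupp.mem_supported]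
  intro v hv
  have h4 : pd {m' | (ecG hE a S hSH haS1).dg m' + (ecG hE a S hSH haS1).N =
      (ecG hE a S hSH haS1).dg m} (g l) ∈ Finsupp.supported ℂ ℂ
      (((g l).support : Set (Lat n)) ∩ {m' | (ecG hE a S hSH haS1).dg m' +
        (ecG hE a S hSH haS1).N = (ecG hE a S hSH haS1).dg m}) :=
    pd_mem _ _ _ (Finsupp.mem_supported_support ℂ (g l))
  rw [Finsupp.mem_supported] at h4
  obtain ⟨h5, h6⟩ := h4 hv
  have h6' : κ.1 ⬝ᵥ v + κ.2 = κ.1 ⬝ᵥ m := h6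
  have h7 := hg l v h5
  refine ⟨⟨⟨?_, fun h hh => ?_⟩, ?_⟩, ?_⟩
  · have h8 : κ.1 ⬝ᵥ v = κ.1 ⬝ᵥ m - κ.2 := by omega
    rw [h8]
    exact dvd_sub hm1.1 (dvd_refl _)
  · have h8 := h7 h hh
    by_cases hj : ∃ j ∈ S, h = ee j
    · have e : c h = 0 := if_pos hj
      obtain ⟨j, hj, rfl⟩ := hj
      rw [e, ee_dot] at h8
      rw [Hq_ee, haS1 j hj, ee_dot]
      have h9 : (0:ℚ) ≤ (v j : ℚ) := by exact_mod_cast h8
      linarith
    · have e : c h = ⌈-Hq h a⌉ := if_neg hj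
      rw [e] at h8
      exact Int.ceil_le.1 h8
  · intro j hj _
    have h8 := h7 (ee j) (hSH j hj)
    have e : c (ee j) = 0 := if_pos ⟨j, hj, rfl⟩
    rw [e, ee_dot] at h8
    exact h8
  · change κ.1 ⬝ᵥ v = κ.1 ⬝ᵥ m - κ.2
    omega

private theorem ec_step {F : (Fin n → ℤ) →₀ ℂ} {κ : (Fin n → ℤ) × ℤ} {H : Finset (Fin n → ℤ)}
    (hE : ECH F κ H) (a : Fin n → ℚ) (S : Finset (Fin n)) (hSH : ∀ j ∈ S, ee j ∈ H)
    (haS1 : ∀ j ∈ S, a j = 1) :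
    ∃ J' : ℤ, ∀ m ∈ (ecG hE a S hSH haS1).L0, J' ≤ (ecG hE a S hSH haS1).dg m →
      ∃ v ∈ (ecG hE a S hSH haS1).S, m - v ∈ (ecG hE a S hSH haS1).L0 := by
  classical
  have hNr : (0:ℝ) < κ.2 := by exact_mod_cast hE.hN
  obtain ⟨J', hJ'⟩ : ∃ J' : ℤ,
      (2 * (F.support.card : ℝ) + 1) * κ.2 - ((Hq κ.1 a : ℚ) : ℝ) ≤ J' :=
    ⟨⌈(2 * (F.support.card : ℝ) + 1) * κ.2 - ((Hq κ.1 a : ℚ) : ℝ)⌉, Int.le_ceil _⟩
  refine ⟨J', ?_⟩
  intro m hm hd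
  have hd' : J' ≤ κ.1 ⬝ᵥ m := hd
  have hm1 : m ∈ ecM κ H a := hm.1
  have hm2 : ∀ j ∈ S, 0 ≤ m j := hm.2
  obtain ⟨l, hl0, -, hlh, hs⟩ := ec_dec hE a hm1
  have hcard0 : (0:ℝ) ≤ (F.support.card : ℝ) := Nat.cast_nonneg _
  have hL : 2 * (F.support.card : ℝ) + 1 ≤ ∑ v ∈ F.support, l v := by
    have h1 : (J' : ℝ) ≤ ((κ.1 ⬝ᵥ m : ℤ) : ℝ) := by exact_mod_cast hd'
    have h2 : (κ.2 : ℝ) * (2 * (F.support.card : ℝ) + 1) ≤ κ.2 * ∑ v ∈ F.support, l v := by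
      rw [hs]
      linarith
    exact le_of_mul_le_mul_left h2 hNr
  -- a large coefficient
  obtain ⟨v, hv, hlv⟩ : ∃ v ∈ F.support, 2 ≤ l v := by
    by_contra hcon
    push Not at hcon
    have h1 : ∑ v ∈ F.support, l v ≤ ∑ v ∈ F.support, (2:ℝ) :=
      Finset.sum_le_sum fun v hv => (hcon v hv).le
    rw [Finset.sum_const, nsmul_eq_mul] at h1
    linarith
  have hdiff : ∀ h ∈ H, ((h ⬝ᵥ v : ℤ) : ℚ) ≤ ((h ⬝ᵥ (m - v) : ℤ) : ℚ) + Hq h a := by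
    intro h hh
    have h3 : l v * ((h ⬝ᵥ v : ℤ) : ℝ) ≤ ∑ v' ∈ F.support, l v' * ((h ⬝ᵥ v' : ℤ) : ℝ) := by
      refine Finset.single_le_sum (f := fun v' => l v' * ((h ⬝ᵥ v' : ℤ) : ℝ)) ?_ hv
      intro v' hv'
      have h5 : (0:ℝ) ≤ ((h ⬝ᵥ v' : ℤ) : ℝ) := by exact_mod_cast hE.hF h hh v' hv'
      exact mul_nonneg (hl0 v' hv') h5
    rw [hlh h] at h3
    have h7 : (0:ℝ) ≤ ((h ⬝ᵥ v : ℤ) : ℝ) := by exact_mod_cast hE.hF h hh v hv
    have h8 : 2 * ((h ⬝ᵥ v : ℤ) : ℝ) ≤ l v * ((h ⬝ᵥ v : ℤ) : ℝ) :=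
      mul_le_mul_of_nonneg_right hlv h7
    have h9 : 2 * ((h ⬝ᵥ v : ℤ) : ℝ) ≤ ((h ⬝ᵥ m : ℤ) : ℝ) + ((Hq h a : ℚ) : ℝ) := h8.trans h3
    have h10 : 2 * ((h ⬝ᵥ v : ℤ) : ℚ) ≤ ((h ⬝ᵥ m : ℤ) : ℚ) + Hq h a := by exact_mod_cast h9
    rw [dotProduct_sub]
    push_cast
    linarith
  refine ⟨v, hv, ⟨?_, fun h hh => ?_⟩, fun j hj => ?_⟩
  · rw [dotProduct_sub, hE.hκ v hv]
    exact dvd_sub hm1.1 (dvd_refl _)
  · have h1 := hdiff h hh
    have h2 : (0:ℚ) ≤ ((h ⬝ᵥ v : ℤ) : ℚ) := by exact_mod_cast hE.hF h hh v hv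
    linarith
  · have hmj := hm2 j hj
    have hvj := hE.hF _ (hSH j hj) v hv
    rw [ee_dot] at hvj
    rw [Pi.sub_apply]
    by_cases h0 : v j = 0
    · rw [h0, sub_zero]; exact hmj
    · have h1 := hdiff (ee j) (hSH j hj)
      rw [ee_dot, ee_dot, Hq_ee, haS1 j hj, Pi.sub_apply] at h1
      have h5 : v j ≤ m j - v j + 1 := by exact_mod_cast h1
      omega

end MP_b07157_agE1

namespace MPb07157T

open Finset Matrix

/-- **E1 for a cone.**  As `MP_b07157_agE1.e1_face`, with an arbitrary finite set `H` of forms that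
cuts out the cone of the exponents of `F` (all on the level `κ.1·v = κ.2`), and the shift vector `b`
instead of `1`: the line through `b` and `a` (`Line.lean`: `lin b a t = b + t (a - b)`; `Good` at
`b` since `b j = 1` on `S`), everything else as in `FaceGeo`, `FaceAdm`, `FaceFin`, `FaceEnd` with
`H` instead of `H2 Sg κ`.  The sets are finite in every degree since `m + a` is in the cone, which
is generated by the exponents (`hcone`). -/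
theorem e1_cone {r : ℕ} (F : (Fin r → ℤ) →₀ ℂ) (κ : (Fin r → ℤ) × ℤ) (hN : 0 < κ.2)
    (hκ : ∀ v ∈ F.support, κ.1 ⬝ᵥ v = κ.2) (H : Finset (Fin r → ℤ))
    (hF : ∀ h ∈ H, ∀ v ∈ F.support, 0 ≤ h ⬝ᵥ v)
    (hcone : ∀ x : Fin r → ℝ, (∀ h ∈ H, 0 ≤ rdot h x) → ∃ l : (Fin r → ℤ) → ℝ,
      (∀ v ∈ F.support, 0 ≤ l v) ∧ ∀ j, ∑ v ∈ F.support, l v * (v j : ℝ) = x j)
    (hND : ND H F) (b a : Fin r → ℚ) (ha : ∀ h ∈ H, 0 ≤ qf h a)
    (hgen : ∀ h ∈ H, qf h a = qf h b ∨ ∀ z : ℤ, qf h a ≠ z)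
    (S : List (Fin r)) (hSH : ∀ j ∈ S, ee j ∈ H) (haS : ∀ j ∈ S, a j = 1)
    (hbS : ∀ j ∈ S, b j = 1) (β : ℂ) (hβ : β ≠ 0) (V : LFun ℂ r)
    (hV1 : SuppIn {m | κ.2 ∣ κ.1 ⬝ᵥ m ∧ ∀ h ∈ H, -qf h a ≤ ((h ⬝ᵥ m : ℤ) : ℚ)} V)
    (hV2 : Deg 1 V) (hV3 : ∀ m, ∀ j ∈ S, m j = -1 → gi (vec ℂ (ee j)) * V m = 0)
    (hV4 : ∀ m, Eop (fun i => ((b i : ℚ) : ℂ)) F V m =
      if m = 0 then algebraMap ℂ _ β else 0) :
    ∃ u : Fin r → LP ℂ r, ∑ l, u l * thF F l = 1 ∧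
      ∀ l, ∀ m ∈ (u l).coeff.support, (∀ h ∈ H, -qf h a ≤ ((h ⬝ᵥ m : ℤ) : ℚ)) ∧
        κ.1 ⬝ᵥ m = -κ.2 ∧ ∀ j ∈ S, j ≠ l → 0 ≤ m j := by
  classical
  have hE : MP_b07157_agE1.ECH F κ H := ⟨hN, hκ, hF, hcone, hND⟩
  have hSH' : ∀ j ∈ S.toFinset, ee j ∈ H := fun j hj => hSH j (List.mem_toFinset.1 hj)
  have haS1' : ∀ j ∈ S.toFinset, a j = 1 := fun j hj => haS j (List.mem_toFinset.1 hj)
  have hbS1' : ∀ j ∈ S.toFinset, b j = 1 := fun j hj => hbS j (List.mem_toFinset.1 hj)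
  set G := MP_b07157_agE1.ecG hE a S.toFinset hSH' haS1' with hG
  have hadm := MP_b07157_agE1.ec_hadm hE b a S.toFinset hSH' haS1' hbS1' hgen
  obtain ⟨J, hJ⟩ := MP_b07157_agE1.ec_hf hE a S.toFinset hSH' haS1'
  have hstep := MP_b07157_agE1.ec_step hE a S.toFinset hSH' haS1'
  have hgood : MP_b07157_agE1.Good G (fun l => ((b l : ℚ) : ℂ)) := by
    rintro l ⟨m, hm, hm0⟩
    by_cases hl : l ∈ S.toFinset
    · show ((b l : ℚ) : ℂ) = 1
      rw [hbS1' l hl, Rat.cast_one]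
    · exfalso
      apply hm0
      exact ⟨hm.1, fun j hj => hm.2 j hj (fun h => hl (h ▸ hj))⟩
  -- the vector field
  let w : Fin r → MP_b07157_agE1.Fn ℂ r := fun l => Finsupp.onFinset hV1.1.toFinset
    (fun m => β⁻¹ * MP_b07157_agE1.p1 (V m) l) (fun m hm => by
      rw [Set.Finite.mem_toFinset, Function.mem_support]
      intro h
      apply hm
      rw [h, map_zero]
      simp)
  have hw0 : ∀ l m, w l m = β⁻¹ * MP_b07157_agE1.p1 (V m) l := fun l m => rfl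
  have hw : w ∈ MP_b07157_agE1.UP G (fun _ => True) := by
    rw [MP_b07157_agE1.mem_UP]
    intro l
    rw [Finsupp.mem_supported]
    intro m hm
    rw [Finset.mem_coe, Finsupp.mem_support_iff, hw0] at hm
    have hVm : V m ≠ 0 := by
      intro h
      apply hm
      rw [h, map_zero]
      simp
    have h1 := hV1.2 m hVm
    refine ⟨⟨h1, fun j hj hjl => ?_⟩, trivial⟩
    have hjS : j ∈ S := List.mem_toFinset.1 hj
    have h3 : -1 ≤ m j := MP_b07157_agE1.ecM_coord (κ := κ) (H := H) (a := a) h1 (hSH j hjS)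
      (haS j hjS)
    by_contra h4
    have h5 : m j = -1 := by omega
    apply hm
    rw [MP_b07157_agE1.filled_comp (hV2 m) j l (Ne.symm hjl) (hV3 m j hjS h5), mul_zero]
  have hTD : MP_b07157_agE1.TD G (fun v => F v) (fun l => ((b l : ℚ) : ℂ)) w =
      Finsupp.single 0 1 := by
    ext m
    have h1 := congrArg MP_b07157_agE1.p0 (hV4 m)
    have h2 : MP_b07157_agE1.p0 (Eop (fun i => ((b i : ℚ) : ℂ)) F V m) =
        (vec ℂ m + fun i => ((b i : ℚ) : ℂ)) ⬝ᵥ MP_b07157_agE1.p1 (V m) +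
        ∑ v ∈ F.support, F v * (vec ℂ v ⬝ᵥ MP_b07157_agE1.p1 (V (m - v))) := by
      unfold Eop iF
      rw [map_add, map_sum, MP_b07157_agE1.p0_con (hV2 m)]
      congr 1
      refine Finset.sum_congr rfl fun v _ => ?_
      rw [map_smul, MP_b07157_agE1.p0_con (hV2 _), smul_eq_mul]
    have h3 : MP_b07157_agE1.p0 (if m = 0 then algebraMap ℂ (Lam ℂ r) β else 0) =
        if m = 0 then β else 0 := by
      split_ifs
      · exact MP_b07157_agE1.p0.commutes β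
      · exact map_zero _
    rw [h2, h3] at h1
    have h4 : (MP_b07157_agE1.TD G (fun v => F v) (fun l => ((b l : ℚ) : ℂ)) w) m =
        β⁻¹ * ((vec ℂ m + fun i => ((b i : ℚ) : ℂ)) ⬝ᵥ MP_b07157_agE1.p1 (V m) +
        ∑ v ∈ F.support, F v * (vec ℂ v ⬝ᵥ MP_b07157_agE1.p1 (V (m - v)))) := by
      rw [MP_b07157_agE1.TD_apply, Finsupp.finsetSum_apply]
      have h5 : ∀ l, (MP_b07157_agE1.Dop G.S (fun v => F v) (fun l => ((b l : ℚ) : ℂ)) l (w l)) m =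
          ((m l : ℂ) + (b l : ℂ)) * (β⁻¹ * MP_b07157_agE1.p1 (V m) l) +
          ∑ v ∈ F.support, F v * (v l : ℂ) * (β⁻¹ * MP_b07157_agE1.p1 (V (m - v)) l) := by
        intro l
        unfold MP_b07157_agE1.Dop
        rw [LinearMap.add_apply, Finsupp.add_apply, MP_b07157_agE1.th_apply,
          MP_b07157_agE1.Fop_apply]
        rfl
      simp only [h5]
      rw [Finset.sum_add_distrib, Finset.sum_comm]
      unfold dotProduct
      rw [mul_add, Finset.mul_sum, Finset.mul_sum]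
      congr 1
      · refine Finset.sum_congr rfl fun l _ => ?_
        simp only [Pi.add_apply, vec]
        ring
      · refine Finset.sum_congr rfl fun v _ => ?_
        rw [Finset.mul_sum, Finset.mul_sum]
        refine Finset.sum_congr rfl fun l _ => ?_
        simp only [vec]
        ring
    rw [h4, h1, Finsupp.single_apply]
    by_cases h0 : m = 0
    · rw [if_pos h0, if_pos h0.symm, inv_mul_cancel₀ hβ]
    · rw [if_neg h0, if_neg (Ne.symm h0), mul_zero]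
  -- the point 0
  have h0 : (0 : Fin r → ℤ) ∈ G.L0 := by
    refine ⟨⟨?_, fun h hh => ?_⟩, fun j _ => le_refl _⟩
    · rw [dotProduct_zero]; exact dvd_zero _
    · rw [dotProduct_zero, Int.cast_zero]
      have h1 : 0 ≤ MP_b07157_agE1.Hq h a := ha h hh
      linarith
  obtain ⟨u, hu, hu2⟩ := MP_b07157_agE1.ec_geo G (fun v => F v) b a hgood hadm J hJ hstep 0 h0 w
    hw hTD
  refine ⟨fun l => AddMonoidAlgebra.ofCoeff (u l), ?_, fun l m hm => ?_⟩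
  · ext m
    rw [AddMonoidAlgebra.coeff_sum, Finsupp.finsetSum_apply, AddMonoidAlgebra.one_def,
      AddMonoidAlgebra.coeff_single]
    have h1 : (MP_b07157_agE1.TF G (fun v => F v) u) m = (Finsupp.single 0 1 :
      MP_b07157_agE1.Fn ℂ r) m := by rw [hu2]
    rw [MP_b07157_agE1.TF_apply, Finsupp.finsetSum_apply] at h1
    rw [← h1]
    refine Finset.sum_congr rfl fun l _ => ?_
    rw [coeff_mul_thF]
    exact (MP_b07157_agE1.Fop_apply' F l (u l) m).symm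
  · rw [MP_b07157_agE1.mem_UP] at hu
    have h1 := hu l
    rw [Finsupp.mem_supported] at h1
    obtain ⟨⟨h2, h3⟩, h4⟩ := h1 hm
    refine ⟨h2.2, ?_, fun j hj hjl => h3 j (List.mem_toFinset.2 hj) hjl⟩
    have h5 : κ.1 ⬝ᵥ m = κ.1 ⬝ᵥ (0 : Fin r → ℤ) - κ.2 := h4
    rw [h5, dotProduct_zero, zero_sub]

end MPb07157T
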