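import Pool.Agent.Lib.MP_b07157_agT.W2
import Pool.Agent.Lib.MP_b07157_agT.W3
import Pool.Agent.Lib.MP_b07157_agN.CDefs

/-!
# The outer walls of the Cayley cones
-/

noncomputable section

namespace MPb07157T

open Finset Matrix

variable {n : ℕ}

theorem c0_injective : Function.Injective (c0 : (Fin n → ℤ) → Fin (n + 1) → ℤ) := by
  intro u v h
  funext j
  have := congrFun h j.succ
  simpa [c0] using this

theorem c1_injective : Function.Injective (c1 : (Fin n → ℤ) → Fin (n + 1) → ℤ) := by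
  intro u v h
  funext j
  have := congrFun h j.succ
  simpa [c1] using this

theorem c0_ne_c1 (u v : Fin n → ℤ) : c0 u ≠ c1 v := by
  intro h
  have := congrFun h 0
  simp [c0, c1] at this

theorem Cay_c0 (F : (Fin n → ℤ) →₀ ℂ) (M : ℕ) (g : Fin n → ℂ) (v : Fin n → ℤ) :
    Cay F M g (c0 v) = F v := by
  unfold Cay
  rw [Finsupp.add_apply, Finsupp.mapDomain_apply c0_injective, Finsupp.mapDomain_of_notMem_range,
    add_zero]
  rintro ⟨u, hu⟩
  exact c0_ne_c1 _ _ hu.symm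

theorem Cay_c1 (F : (Fin n → ℤ) →₀ ℂ) (M : ℕ) (g : Fin n → ℂ) (v : Fin n → ℤ) :
    Cay F M g (c1 v) = Hf M g v := by
  unfold Cay
  rw [Finsupp.add_apply, Finsupp.mapDomain_apply c1_injective, Finsupp.mapDomain_of_notMem_range,
    zero_add]
  rintro ⟨u, hu⟩
  exact c0_ne_c1 _ _ hu

theorem Cay_other (F : (Fin n → ℤ) →₀ ℂ) (M : ℕ) (g : Fin n → ℂ) (m : Fin (n + 1) → ℤ)
    (h0 : ∀ v, m ≠ c0 v) (h1 : ∀ v, m ≠ c1 v) : Cay F M g m = 0 := by
  unfold Cay
  rw [Finsupp.add_apply, Finsupp.mapDomain_of_notMem_range, Finsupp.mapDomain_of_notMem_range, zero_add]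
  · rintro ⟨u, hu⟩
    exact h1 _ hu.symm
  · rintro ⟨u, hu⟩
    exact h0 _ hu.symm

theorem smul_ee_ne_zero {M : ℕ} (hM : 1 ≤ M) (j : Fin n) : (M : ℤ) • ee j ≠ 0 := by
  intro h
  have := congrFun h j
  simp [ee] at this
  omega

theorem smul_ee_inj {M : ℕ} (hM : 1 ≤ M) {i j : Fin n} (h : (M : ℤ) • ee i = (M : ℤ) • ee j) :
    i = j := by
  by_contra hij
  have := congrFun h i
  simp [ee, hij] at this
  omega

theorem Hf_apply (M : ℕ) (g : Fin n → ℂ) (u : Fin n → ℤ) :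
    Hf M g u = (if u = 0 then 1 else 0) + ∑ j, if u = (M : ℤ) • ee j then g j else 0 := by
  classical
  unfold Hf
  rw [Finsupp.add_apply, Finsupp.finsetSum_apply]
  congr 1
  · rw [Finsupp.single_apply]
    simp only [eq_comm]
  · refine Finset.sum_congr rfl fun j _ => ?_
    rw [Finsupp.single_apply]
    simp only [eq_comm]

theorem Hf_zero {M : ℕ} (hM : 1 ≤ M) (g : Fin n → ℂ) : Hf M g 0 = 1 := by
  rw [Hf_apply, if_pos rfl, Finset.sum_eq_zero, add_zero]
  intro j _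
  rw [if_neg]
  exact fun h => smul_ee_ne_zero hM j h.symm

theorem Hf_smul_ee {M : ℕ} (hM : 1 ≤ M) (g : Fin n → ℂ) (j : Fin n) :
    Hf M g ((M : ℤ) • ee j) = g j := by
  rw [Hf_apply, if_neg (smul_ee_ne_zero hM j), zero_add, Finset.sum_eq_single j]
  · rw [if_pos rfl]
  · intro i _ hi
    rw [if_neg]
    exact fun h => hi (smul_ee_inj hM h).symm
  · intro h
    exact absurd (Finset.mem_univ j) h

theorem Hf_other (M : ℕ) (g : Fin n → ℂ) (u : Fin n → ℤ) (h0 : u ≠ 0)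
    (h1 : ∀ j, u ≠ (M : ℤ) • ee j) : Hf M g u = 0 := by
  rw [Hf_apply, if_neg h0, zero_add]
  exact Finset.sum_eq_zero fun j _ => if_neg (h1 j)

theorem cw_dot_c0 (κ : (Fin n → ℤ) × ℤ) (v : Fin n → ℤ) : (cw κ).1 ⬝ᵥ c0 v = κ.1 ⬝ᵥ v := by
  simp only [cw, c0, dotProduct, Fin.sum_univ_succ, Fin.cons_zero, Fin.cons_succ, mul_zero,
    zero_add]

theorem cw_dot_c1 (κ : (Fin n → ℤ) × ℤ) (v : Fin n → ℤ) :
    (cw κ).1 ⬝ᵥ c1 v = κ.2 + κ.1 ⬝ᵥ v := by
  simp only [cw, c1, dotProduct, Fin.sum_univ_succ, Fin.cons_zero, Fin.cons_succ, mul_one]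

theorem dot_smul_ee (w : Fin n → ℤ) (M : ℤ) (j : Fin n) : w ⬝ᵥ (M • ee j) = M * w j := by
  unfold ee
  rw [dotProduct_smul, dotProduct_single, mul_one, smul_eq_mul]

theorem mem_Fs_support {r : ℕ} {k : Type} [Field k] (σ : (Fin r → ℤ) × ℤ) (F : (Fin r → ℤ) →₀ k)
    (v : Fin r → ℤ) : v ∈ (Fs σ F).support ↔ σ.1 ⬝ᵥ v = σ.2 ∧ F v ≠ 0 := by
  classical
  unfold Fs
  rw [Finsupp.support_filter, Finset.mem_filter, Finsupp.mem_support_iff]
  tauto

/-- The exponents of the face of the Cayley polynomial. -/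
theorem mem_cay_support (f : MvPolynomial (Fin n) ℂ) {M : ℕ} (hM : 1 ≤ M) {g : Fin n → ℂ}
    (hg : ∀ j, g j ≠ 0) {κ : (Fin n → ℤ) × ℤ} (v : Fin (n + 1) → ℤ) :
    v ∈ (Fs (cw κ) (Cay (Fc f) M g)).support ↔
      (∃ v' ∈ (Fc f).support, κ.1 ⬝ᵥ v' = κ.2 ∧ v = c0 v') ∨ v = c1 0 ∨
        ∃ j, κ.1 j = 0 ∧ v = c1 ((M : ℤ) • ee j) := by
  rw [mem_Fs_support]
  have hκ2 : (cw κ).2 = κ.2 := rfl
  rw [hκ2]
  constructor
  · rintro ⟨h1, h2⟩
    by_cases hc0 : ∃ v', v = c0 v'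
    · obtain ⟨v', rfl⟩ := hc0
      rw [cw_dot_c0] at h1
      rw [Cay_c0] at h2
      exact Or.inl ⟨v', Finsupp.mem_support_iff.2 h2, h1, rfl⟩
    by_cases hc1 : ∃ v', v = c1 v'
    · obtain ⟨u, rfl⟩ := hc1
      rw [cw_dot_c1] at h1
      rw [Cay_c1] at h2
      by_cases hu0 : u = 0
      · exact Or.inr (Or.inl (by rw [hu0]))
      by_cases hu1 : ∃ j, u = (M : ℤ) • ee j
      · obtain ⟨j, rfl⟩ := hu1
        refine Or.inr (Or.inr ⟨j, ?_, rfl⟩)
        rw [dot_smul_ee] at h1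
        have h3 : (M : ℤ) * κ.1 j = 0 := by linarith
        rcases mul_eq_zero.1 h3 with h | h
        · exfalso
          have : M = 0 := by exact_mod_cast h
          omega
        · exact h
      · exfalso
        push Not at hu1
        exact h2 (Hf_other M g u hu0 hu1)
    · exfalso
      push Not at hc0 hc1
      exact h2 (Cay_other _ _ _ _ hc0 hc1)
  · rintro (⟨v', hv', h1, rfl⟩ | rfl | ⟨j, hj, rfl⟩)
    · refine ⟨by rw [cw_dot_c0, h1], ?_⟩
      rw [Cay_c0]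
      exact Finsupp.mem_support_iff.1 hv'
    · refine ⟨by rw [cw_dot_c1, dotProduct_zero, add_zero], ?_⟩
      rw [Cay_c1, Hf_zero hM]
      exact one_ne_zero
    · refine ⟨by rw [cw_dot_c1, dot_smul_ee, hj, mul_zero, add_zero], ?_⟩
      rw [Cay_c1, Hf_smul_ee hM]
      exact hg j

theorem rdot_cw (τ : (Fin n → ℤ) × ℤ) (x : Fin (n + 1) → ℝ) :
    rdot (cw τ).1 x = τ.2 * x 0 + rdot τ.1 (Fin.tail x) := by
  simp only [rdot, cw, Fin.sum_univ_succ, Fin.cons_zero, Fin.cons_succ, Fin.tail]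

theorem rdot_et_cw (κ τ : (Fin n → ℤ) × ℤ) (x : Fin (n + 1) → ℝ) :
    rdot (et (cw κ) (cw τ)) x = rdot (et κ τ) (Fin.tail x) := by
  rw [rdot_et, rdot_et, rdot_cw, rdot_cw]
  simp only [cw]
  ring

/-- The outer walls: forms that are positive on `c1 0` and, together with the inner walls, cut out
the cone of the exponents.

Proof.  `weyl` for the support gives `A`; `O` = the `h ∈ A` with `h 0 > 0`, and `ee 0`.  (`h 0 ≥ 0`
for `h ∈ A` since `c1 0` is an exponent.)  Let `x` satisfy the inequalities of `H2c` and `O`, let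
`h ∈ A` with `h 0 = 0`, `x' = tail x`, `s = κ.1·x' / κ.2 ≥ 0`
(`et (cw κ) (cw τ) ⬝ x = et κ τ ⬝ x'`).  If `s > 0`, `CutsOut` for `q = x' / s` gives
`∑ l_v v ≤ q`; since `κ.1·q = κ.2`, `l_v > 0` only for `κ.1·v = κ.2`, and `q - ∑ l_v v` is
supported on `κ.1 j = 0`.  If `s = 0`, `x'` is supported on `κ.1 j = 0`.  And `h (c0 v) ≥ 0`,
`M h_{j.succ} = h (c1 (M ee j)) ≥ 0` if `κ.1 j = 0`.  So `h x ≥ 0`; `weyl` gives the answer. -/
theorem exists_out {f : MvPolynomial (Fin n) ℂ} {Sg : Finset ((Fin n → ℤ) × ℤ)}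
    (hcut : CutsOut Sg f) (hSg : ∀ σ ∈ Sg, Wt f σ) {κ : (Fin n → ℤ) × ℤ} (hκ : κ ∈ Sg) {M : ℕ}
    (hM : 1 ≤ M) {g : Fin n → ℂ} (hg : ∀ j, g j ≠ 0) :
    ∃ O : Finset (Fin (n + 1) → ℤ), ee 0 ∈ O ∧ (∀ h ∈ O, 0 < h 0) ∧
      (∀ h ∈ O, ∀ v ∈ (Fs (cw κ) (Cay (Fc f) M g)).support, 0 ≤ h ⬝ᵥ v) ∧
      ∀ x : Fin (n + 1) → ℝ,
        (∀ h ∈ H2c (CC n) (Sg.image cw) (cw κ) ∪ O, 0 ≤ rdot h x) →
        ∃ l : (Fin (n + 1) → ℤ) → ℝ, (∀ v ∈ (Fs (cw κ) (Cay (Fc f) M g)).support, 0 ≤ l v) ∧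
          ∀ j, ∑ v ∈ (Fs (cw κ) (Cay (Fc f) M g)).support, l v * (v j : ℝ) = x j := by
  classical
  set S := (Fs (cw κ) (Cay (Fc f) M g)).support with hS
  obtain ⟨A, hA⟩ := weyl S
  have hAS : ∀ a ∈ A, ∀ w ∈ S, 0 ≤ a ⬝ᵥ w := by
    intro a ha w hw
    have h := (hA (fun i => (w i : ℝ))).mp ⟨fun v => if v = w then 1 else 0, by
      intro v _
      dsimp only
      split_ifs <;> norm_num, by
      simp [ite_smul, Finset.sum_ite_eq', hw]⟩ a ha
    rw [rdot_int] at h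
    exact_mod_cast h
  have hmem : ∀ v, v ∈ S ↔ (∃ v' ∈ (Fc f).support, κ.1 ⬝ᵥ v' = κ.2 ∧ v = c0 v') ∨ v = c1 0 ∨
        ∃ j, κ.1 j = 0 ∧ v = c1 ((M : ℤ) • ee j) := fun v => mem_cay_support f hM hg v
  obtain ⟨hκ2, hκ1, hκle⟩ := hSg κ hκ
  have hA0 : ∀ a ∈ A, 0 ≤ a 0 := by
    intro a ha
    have h := hAS a ha (c1 0) ((hmem _).2 (Or.inr (Or.inl rfl)))
    have h2 : a ⬝ᵥ (c1 0 : Fin (n + 1) → ℤ) = a 0 := by
      simp [c1, dotProduct, Fin.sum_univ_succ]
    rwa [h2] at h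
  have hAj : ∀ a ∈ A, a 0 = 0 → ∀ j, κ.1 j = 0 → 0 ≤ a j.succ := by
    intro a ha ha0 j hj
    have h := hAS a ha (c1 ((M : ℤ) • ee j)) ((hmem _).2 (Or.inr (Or.inr ⟨j, hj, rfl⟩)))
    have h2 : a ⬝ᵥ (c1 ((M : ℤ) • ee j) : Fin (n + 1) → ℤ) = a 0 + M * a j.succ := by
      have h3 : a ⬝ᵥ (c1 ((M : ℤ) • ee j) : Fin (n + 1) → ℤ) =
          a 0 + Fin.tail a ⬝ᵥ ((M : ℤ) • ee j) := by
        simp only [c1, dotProduct, Fin.sum_univ_succ, Fin.cons_zero, Fin.cons_succ, mul_one,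
          Fin.tail]
      rw [h3, dot_smul_ee]
      rfl
    rw [h2, ha0, zero_add] at h
    have hM' : (0 : ℤ) < M := by exact_mod_cast hM
    exact nonneg_of_mul_nonneg_right (by linarith) hM'
  have hAv : ∀ a ∈ A, a 0 = 0 → ∀ v ∈ (Fc f).support, κ.1 ⬝ᵥ v = κ.2 → 0 ≤ Fin.tail a ⬝ᵥ v := by
    intro a ha ha0 v hv hv2
    have h := hAS a ha (c0 v) ((hmem _).2 (Or.inl ⟨v, hv, hv2, rfl⟩))
    have h2 : a ⬝ᵥ (c0 v : Fin (n + 1) → ℤ) = Fin.tail a ⬝ᵥ v := by
      simp only [c0, dotProduct, Fin.sum_univ_succ, Fin.cons_zero, Fin.cons_succ, mul_zero,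
        Fin.tail, zero_add]
    rwa [h2] at h
  refine ⟨(A.filter fun h => 0 < h 0) ∪ {ee 0}, ?_, ?_, ?_, ?_⟩
  · exact Finset.mem_union_right _ (Finset.mem_singleton_self _)
  · intro h hh
    rcases Finset.mem_union.1 hh with hh | hh
    · exact (Finset.mem_filter.1 hh).2
    · rw [Finset.mem_singleton.1 hh]
      simp [ee]
  · intro h hh v hv
    rcases Finset.mem_union.1 hh with hh | hh
    · exact hAS h (Finset.mem_filter.1 hh).1 v hv
    · rw [Finset.mem_singleton.1 hh, ee_dotProduct]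
      rcases (hmem v).1 hv with ⟨v', -, -, rfl⟩ | rfl | ⟨j, -, rfl⟩
      · simp [c0]
      · simp [c1]
      · simp [c1]
  · intro x hx
    have hxj : ∀ j, 0 ≤ Fin.tail x j := by
      intro j
      have h := hx (ee j.succ) (Finset.mem_union_left _ (Finset.mem_union_right _
        (Finset.mem_image_of_mem _ (Finset.mem_image_of_mem _ (Finset.mem_univ j)))))
      rwa [rdot_ee] at h
    have hxτ : ∀ τ ∈ Sg, 0 ≤ rdot (et κ τ) (Fin.tail x) := by
      intro τ hτ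
      have h := hx (et (cw κ) (cw τ)) (Finset.mem_union_left _ (Finset.mem_union_left _
        (Finset.mem_image_of_mem _ (Finset.mem_image_of_mem _ hτ))))
      rwa [rdot_et_cw] at h
    have hκ2' : (0 : ℝ) < κ.2 := by exact_mod_cast hκ2
    have hκ1' : ∀ j, (0 : ℝ) ≤ κ.1 j := fun j => by exact_mod_cast hκ1 j
    have hAx : ∀ a ∈ A, 0 ≤ rdot a x := by
      intro a ha
      by_cases ha0 : 0 < a 0
      · exact hx a (Finset.mem_union_right _ (Finset.mem_union_left _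
          (Finset.mem_filter.2 ⟨ha, ha0⟩)))
      have ha0' : a 0 = 0 := le_antisymm (not_lt.1 ha0) (hA0 a ha)
      have hax : rdot a x = rdot (Fin.tail a) (Fin.tail x) := by
        simp only [rdot, Fin.sum_univ_succ, ha0', Int.cast_zero, zero_mul, zero_add, Fin.tail]
      rw [hax]
      have hs : 0 ≤ rdot κ.1 (Fin.tail x) :=
        Finset.sum_nonneg fun j _ => mul_nonneg (hκ1' j) (hxj j)
      rcases hs.eq_or_lt with hs | hs
      · -- `x'` is supported on `κ.1 j = 0`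
        have hz : ∀ j, (κ.1 j : ℝ) * Fin.tail x j = 0 := by
          intro j
          exact (Finset.sum_eq_zero_iff_of_nonneg fun j _ => mul_nonneg (hκ1' j) (hxj j)).1
            hs.symm j (Finset.mem_univ j)
        refine Finset.sum_nonneg fun j _ => ?_
        rcases mul_eq_zero.1 (hz j) with h | h
        · exact mul_nonneg (by exact_mod_cast hAj a ha ha0' j (by exact_mod_cast h)) (hxj j)
        · rw [h, mul_zero]
      · set t : ℝ := κ.2 / rdot κ.1 (Fin.tail x) with ht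
        have ht0 : 0 < t := div_pos hκ2' hs
        set q : Fin n → ℝ := t • Fin.tail x with hq
        have hκq : rdot κ.1 q = κ.2 := by
          rw [hq, rdot_smul, ht, div_mul_cancel₀ _ hs.ne']
        have hq0 : ∀ j, 0 ≤ q j := fun j => by
          rw [hq, Pi.smul_apply, smul_eq_mul]
          exact mul_nonneg ht0.le (hxj j)
        obtain ⟨l, hl0, hl1, hlq⟩ := hcut q hq0 (fun τ hτ => by
          have h2 : 0 ≤ rdot (et κ τ) q := by
            rw [hq, rdot_smul]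
            exact mul_nonneg ht0.le (hxτ τ hτ)
          rw [rdot_et, hκq] at h2
          have h3 : (κ.2 : ℝ) * τ.2 ≤ κ.2 * rdot τ.1 q := by linarith
          exact le_of_mul_le_mul_left h3 hκ2')
        have hκv : ∀ v ∈ (Fc f).support, (κ.2 : ℝ) ≤ ((κ.1 ⬝ᵥ v : ℤ) : ℝ) := fun v hv => by
          exact_mod_cast hκle v hv
        have hswap : ∀ h : Fin n → ℤ, ∑ j, (h j : ℝ) * ∑ v ∈ (Fc f).support, l v * (v j : ℝ) =
            ∑ v ∈ (Fc f).support, l v * ((h ⬝ᵥ v : ℤ) : ℝ) := by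
          intro h
          simp only [Finset.mul_sum]
          rw [Finset.sum_comm]
          refine Finset.sum_congr rfl fun v _ => ?_
          rw [← rdot_int]
          unfold rdot
          rw [Finset.mul_sum]
          exact Finset.sum_congr rfl fun j _ => by ring
        have hge : (κ.2 : ℝ) ≤ ∑ v ∈ (Fc f).support, l v * ((κ.1 ⬝ᵥ v : ℤ) : ℝ) := by
          calc (κ.2 : ℝ) = ∑ v ∈ (Fc f).support, l v * (κ.2 : ℝ) := by
                rw [← Finset.sum_mul, hl1, one_mul]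
            _ ≤ _ := Finset.sum_le_sum fun v hv => mul_le_mul_of_nonneg_left (hκv v hv) (hl0 v hv)
        have hle : ∑ v ∈ (Fc f).support, l v * ((κ.1 ⬝ᵥ v : ℤ) : ℝ) ≤ κ.2 := by
          rw [← hswap, ← hκq]
          unfold rdot
          exact Finset.sum_le_sum fun j _ => mul_le_mul_of_nonneg_left (hlq j) (hκ1' j)
        have heq : ∑ v ∈ (Fc f).support, l v * ((κ.1 ⬝ᵥ v : ℤ) : ℝ) = κ.2 := le_antisymm hle hge
        -- `l v` is supported on the face
        have hlv : ∀ v ∈ (Fc f).support, l v * (((κ.1 ⬝ᵥ v : ℤ) : ℝ) - κ.2) = 0 := by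
          have h1 : ∑ v ∈ (Fc f).support, l v * (((κ.1 ⬝ᵥ v : ℤ) : ℝ) - κ.2) = 0 := by
            simp only [mul_sub]
            rw [Finset.sum_sub_distrib, heq, ← Finset.sum_mul, hl1, one_mul, sub_self]
          exact (Finset.sum_eq_zero_iff_of_nonneg fun v hv =>
            mul_nonneg (hl0 v hv) (sub_nonneg.2 (hκv v hv))).1 h1
        -- the difference is supported on `κ.1 j = 0`
        have hqj : ∀ j, (κ.1 j : ℝ) * (q j - ∑ v ∈ (Fc f).support, l v * (v j : ℝ)) = 0 := by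
          have h1 : ∑ j, (κ.1 j : ℝ) * (q j - ∑ v ∈ (Fc f).support, l v * (v j : ℝ)) = 0 := by
            simp only [mul_sub]
            rw [Finset.sum_sub_distrib, hswap, heq]
            have h2 : ∑ j, (κ.1 j : ℝ) * q j = rdot κ.1 q := rfl
            rw [h2, hκq, sub_self]
          intro j
          exact (Finset.sum_eq_zero_iff_of_nonneg fun j _ =>
            mul_nonneg (hκ1' j) (sub_nonneg.2 (hlq j))).1 h1 j (Finset.mem_univ j)
        have hmain : 0 ≤ rdot (Fin.tail a) q := by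
          have h1 : rdot (Fin.tail a) q =
              ∑ j, ((Fin.tail a j : ℤ) : ℝ) * (q j - ∑ v ∈ (Fc f).support, l v * (v j : ℝ)) +
                ∑ v ∈ (Fc f).support, l v * ((Fin.tail a ⬝ᵥ v : ℤ) : ℝ) := by
            rw [← hswap, ← Finset.sum_add_distrib]
            unfold rdot
            exact Finset.sum_congr rfl fun j _ => by ring
          rw [h1]
          refine add_nonneg (Finset.sum_nonneg fun j _ => ?_) (Finset.sum_nonneg fun v hv => ?_)
          · rcases mul_eq_zero.1 (hqj j) with h | h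
            · exact mul_nonneg (by exact_mod_cast hAj a ha ha0' j (by exact_mod_cast h))
                (sub_nonneg.2 (hlq j))
            · rw [h, mul_zero]
          · rcases mul_eq_zero.1 (hlv v hv) with h | h
            · rw [h, zero_mul]
            · refine mul_nonneg (hl0 v hv) ?_
              exact_mod_cast hAv a ha ha0' v hv (by
                have h2 : ((κ.1 ⬝ᵥ v : ℤ) : ℝ) = κ.2 := by linarith
                exact_mod_cast h2)
        have h2 : rdot (Fin.tail a) q = t * rdot (Fin.tail a) (Fin.tail x) := by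
          rw [hq, rdot_smul]
        rw [h2] at hmain
        exact nonneg_of_mul_nonneg_right hmain ht0
    obtain ⟨l, hl0, hl⟩ := (hA x).2 hAx
    refine ⟨l, hl0, fun j => ?_⟩
    rw [hl, Finset.sum_apply]
    exact Finset.sum_congr rfl fun v _ => by rw [Pi.smul_apply, smul_eq_mul]

end MPb07157T
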