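import Pool.Agent.Lib.MP_b07157_agN.Lat
import Pool.Agent.Lib.MP_b07157_agN.D3f

/-!
# The face identity for the Cayley polynomial, raw form
-/

noncomputable section

namespace MPb07157T

open Finset Matrix MvPolynomial MPb07157

variable {n : ℕ}

private theorem f7_zet_nil {r : ℕ} : zet ℂ (eJ ([] : List (Fin r))) = 1 := by
  simp [zet, eJ]

private theorem f7_Fpart_nil {r : ℕ} (F : (Fin r → ℤ) →₀ ℂ) :
    Fpart (eJ ([] : List (Fin r))) F = F := by
  classical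
  ext v
  simp [Fpart, eJ]

private theorem f7_rdot_cons {r : ℕ} (σ : (Fin r → ℤ) × ℤ) (x : ℝ) (y : Fin r → ℝ) :
    rdot (hs σ) (Fin.cons x y) = -(σ.2 : ℝ) * x + rdot σ.1 y := by
  simp only [rdot, hs, Fin.sum_univ_succ, Fin.cons_zero, Fin.cons_succ]
  push_cast
  ring

private theorem f7_rdot_single {r : ℕ} (σ : (Fin r → ℤ) × ℤ) (T : ℝ) :
    rdot (hs σ) (Pi.single 0 T) = -(σ.2 : ℝ) * T := by
  unfold rdot
  rw [Fin.sum_univ_succ, Pi.single_eq_same, Finset.sum_eq_zero, add_zero]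
  · simp [hs]
  · intro j _
    rw [Pi.single_eq_of_ne (Fin.succ_ne_zero j), mul_zero]

private theorem f7_rdot_add {r : ℕ} (h : Fin r → ℤ) (x y : Fin r → ℝ) :
    rdot h (x + y) = rdot h x + rdot h y := by
  unfold rdot
  rw [← Finset.sum_add_distrib]
  exact Finset.sum_congr rfl fun i _ => by rw [Pi.add_apply]; ring

private theorem f7_hs_dot {r : ℕ} (σ : (Fin r → ℤ) × ℤ) (m : Fin (r + 1) → ℤ) :
    hs σ ⬝ᵥ m = -σ.2 * m 0 + σ.1 ⬝ᵥ Fin.tail m := by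
  simp only [hs, dotProduct, Fin.sum_univ_succ, Fin.cons_zero, Fin.cons_succ, Fin.tail]

private theorem f7_he_dot {r : ℕ} (j : Fin r) (m : Fin (r + 1) → ℤ) : he j ⬝ᵥ m = m j.succ := by
  simp only [he, dotProduct, Fin.sum_univ_succ, Fin.cons_zero, Fin.cons_succ, ee]
  rw [Finset.sum_eq_single j]
  · simp
  · intro i _ hij
    simp [hij]
  · simp

private theorem f7_ee_dot {r : ℕ} (j : Fin r) (m : Fin r → ℤ) : ee j ⬝ᵥ m = m j := by
  unfold ee
  rw [single_one_dotProduct]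

private theorem f7_he_rdot {r : ℕ} (j : Fin r) (u : Fin (r + 1) → ℝ) :
    rdot (he j) u = u j.succ := by
  simp only [he, rdot, Fin.sum_univ_succ, Fin.cons_zero, Fin.cons_succ, ee]
  rw [Finset.sum_eq_single j]
  · simp
  · intro i _ hij
    simp [hij]
  · simp

private theorem f7_rdot_et {r : ℕ} (κ τ : (Fin r → ℤ) × ℤ) (a : Fin r → ℝ) :
    rdot (et κ τ) a = κ.2 * rdot τ.1 a - τ.2 * rdot κ.1 a := by
  simp only [rdot, et, Pi.sub_apply, Pi.smul_apply, smul_eq_mul, Finset.mul_sum,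
    ← Finset.sum_sub_distrib]
  apply Finset.sum_congr rfl
  intro i _
  push_cast
  ring

private theorem f7_et_dot {r : ℕ} (κ τ : (Fin r → ℤ) × ℤ) (m : Fin r → ℤ) :
    et κ τ ⬝ᵥ m = κ.2 * (τ.1 ⬝ᵥ m) - τ.2 * (κ.1 ⬝ᵥ m) := by
  simp only [et, sub_dotProduct, smul_dotProduct, smul_eq_mul]

private theorem f7_rdot_neg {r : ℕ} (h : Fin r → ℤ) (a : Fin r → ℝ) :
    rdot h (fun j => -a j) = -rdot h a := by
  simp [rdot]

theorem rdot_cast_qf {r : ℕ} (h : Fin r → ℤ) (a : Fin r → ℚ) :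
    rdot h (fun i => ((a i : ℚ) : ℝ)) = ((qf h a : ℚ) : ℝ) := by
  unfold rdot qf
  push_cast
  rfl

/-- The level restriction of the lattice functional equation for the Cayley polynomial. -/
theorem exists_face_rawC {f : MvPolynomial (Fin n) ℂ} (hf : f ≠ 0) {M : ℕ} (hM : 1 ≤ M)
    {g : Fin n → ℂ} {Sg : Finset ((Fin n → ℤ) × ℤ)} (hSg : ∀ σ ∈ Sg, Wt f σ)
    {Ho : (Fin (n + 1) → ℤ) × ℤ → Finset (Fin (n + 1) → ℤ)}
    (hW : WOKc (CC n) (ee 0) (Sg.image cw) Ho (Cay (Fc f) M g)) {b : Polynomial ℂ}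
    (hb : IsBernsteinSato f b) {κ : (Fin n → ℤ) × ℤ} (hκ : κ ∈ Sg) (t : ℚ)
    (a : Fin (n + 1) → ℚ) (ha : ∀ j : Fin n, 1 ≤ a j.succ)
    (haS : ∀ τ ∈ Sg, 0 ≤ qf (et (cw κ) (cw τ)) a) (S : List (Fin n)) (hS : S.Nodup)
    (haS1 : ∀ j ∈ S, a j.succ = 1) :
    ∃ V : LFun ℂ (n + 1), SuppIn (MMc Sg κ a) V ∧ Deg 1 V ∧
      (∀ m, ∀ j ∈ sS S, m j = -1 → gi (vec ℂ (ee j)) * V m = 0) ∧
      ∀ m, Eop (bv n t) (Fs (cw κ) (Cay (Fc f) M g)) V m = algebraMap ℂ _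
        (if κ.2 ∣ (cw κ).1 ⬝ᵥ m then ins (fun m' => ∑ i ∈ range (b.natDegree + 1), b.coeff i *
          (thL (Fc f))^[i] (Pi.single 0 1) m') (Fin.cons (((cw κ).1 ⬝ᵥ m) / κ.2) m) else 0) := by
  classical
  set F := Cay (Fc f) M g with hFdef
  have hmemκ : cw κ ∈ Sg.image cw := Finset.mem_image_of_mem _ hκ
  have hN : 0 < κ.2 := (hSg κ hκ).1
  have hκ2 : (cw κ).2 = κ.2 := rfl
  have hNR : (0 : ℝ) < κ.2 := by exact_mod_cast hN
  set ar : Fin (n + 1) → ℝ := fun i => ((a i : ℚ) : ℝ) with har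
  set c : Fin (n + 2) → ℝ := Fin.cons (-(rdot (cw κ).1 ar / κ.2)) (fun j => -ar j) with hcdef
  have hcs : ∀ j : Fin (n + 1), c j.succ = -ar j := fun j => by simp [hcdef]
  have hcσ : ∀ σ : (Fin (n + 1) → ℤ) × ℤ, κ.2 * rdot (hs σ) c = -rdot (et (cw κ) σ) ar := by
    intro σ
    rw [hcdef, f7_rdot_cons, f7_rdot_et, f7_rdot_neg, hκ2]
    field_simp
    ring
  have hcS : ∀ σ ∈ Sg, rdot (hs (cw σ)) c ≤ 0 := by
    intro σ hσ
    have h1 := hcσ (cw σ)
    have h2 := haS σ hσ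
    have h3 : rdot (et (cw κ) (cw σ)) ar = ((qf (et (cw κ) (cw σ)) a : ℚ) : ℝ) :=
      rdot_cast_qf _ _
    have h4 : (0 : ℝ) ≤ rdot (et (cw κ) (cw σ)) ar := by
      rw [h3]
      exact_mod_cast h2
    by_contra h
    push Not at h
    have := mul_pos hNR h
    linarith
  have hcκ : rdot (hs (cw κ)) c = 0 := by
    have h1 := hcσ (cw κ)
    rw [f7_rdot_et] at h1
    have h2 : (κ.2 : ℝ) * rdot (hs (cw κ)) c = 0 := by rw [h1]; ring
    rcases mul_eq_zero.mp h2 with h | h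
    · exact absurd h hNR.ne'
    · exact h
  obtain ⟨W, hWs, hWd, hWb, hWf, hWz, hWk⟩ := exists_latticeC hf hM g hb t
  rw [← hFdef] at hWz hWk
  have haj : ∀ j : Fin n, c j.succ.succ ≤ -1 := by
    intro j
    rw [hcs]
    have : (1 : ℝ) ≤ ar j.succ := by
      simp only [har]
      exact_mod_cast ha j
    linarith
  -- the bound `T`
  obtain ⟨T, hT, hTb⟩ : ∃ T : ℝ, 0 < T ∧ ∀ σ ∈ Sg, ∀ m, W m ≠ 0 →
      rdot (hs (cw σ)) c - T ≤ ((hs (cw σ) ⬝ᵥ m : ℤ) : ℝ) := by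
    refine ⟨1 + ∑ σ ∈ Sg, ∑ m ∈ hWs.toFinset, |rdot (hs (cw σ)) c - ((hs (cw σ) ⬝ᵥ m : ℤ) : ℝ)|,
      by positivity, fun σ hσ m hm => ?_⟩
    have h1 : |rdot (hs (cw σ)) c - ((hs (cw σ) ⬝ᵥ m : ℤ) : ℝ)| ≤
        ∑ m ∈ hWs.toFinset, |rdot (hs (cw σ)) c - ((hs (cw σ) ⬝ᵥ m : ℤ) : ℝ)| :=
      Finset.single_le_sum (f := fun m => |rdot (hs (cw σ)) c - ((hs (cw σ) ⬝ᵥ m : ℤ) : ℝ)|)
        (fun _ _ => abs_nonneg _) (hWs.mem_toFinset.2 hm)
    have h2 : ∑ m ∈ hWs.toFinset, |rdot (hs (cw σ)) c - ((hs (cw σ) ⬝ᵥ m : ℤ) : ℝ)| ≤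
        ∑ σ ∈ Sg, ∑ m ∈ hWs.toFinset, |rdot (hs (cw σ)) c - ((hs (cw σ) ⬝ᵥ m : ℤ) : ℝ)| :=
      Finset.single_le_sum
        (f := fun σ => ∑ m ∈ hWs.toFinset, |rdot (hs (cw σ)) c - ((hs (cw σ) ⬝ᵥ m : ℤ) : ℝ)|)
        (fun _ _ => Finset.sum_nonneg fun _ _ => abs_nonneg _) hσ
    have h3 := le_abs_self (rdot (hs (cw σ)) c - ((hs (cw σ) ⬝ᵥ m : ℤ) : ℝ))
    linarith
  have hHe : ∀ j : Fin n, he (j.succ : Fin (n + 1)) ∈ HSc (CC n) (Sg.image cw) := fun j =>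
    Finset.mem_union_right _ (Finset.mem_image_of_mem _
      (Finset.mem_image_of_mem _ (Finset.mem_univ j)))
  have hHs : ∀ σ ∈ Sg, hs (cw σ) ∈ HSc (CC n) (Sg.image cw) := fun σ hσ =>
    Finset.mem_union_left _ (Finset.mem_image_of_mem _ (Finset.mem_image_of_mem _ hσ))
  have hHSc : ∀ h ∈ HSc (CC n) (Sg.image cw), (∃ σ ∈ Sg, h = hs (cw σ)) ∨
      ∃ j : Fin n, h = he (j.succ : Fin (n + 1)) := by
    intro h hh
    unfold HSc CC at hh
    rcases Finset.mem_union.1 hh with hh | hh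
    · obtain ⟨σ', hσ', rfl⟩ := Finset.mem_image.1 hh
      obtain ⟨σ, hσ, rfl⟩ := Finset.mem_image.1 hσ'
      exact Or.inl ⟨σ, hσ, rfl⟩
    · obtain ⟨j', hj', rfl⟩ := Finset.mem_image.1 hh
      obtain ⟨j, -, rfl⟩ := Finset.mem_image.1 hj'
      exact Or.inr ⟨j, rfl⟩
  have hWT : MSuppIn (NNc (CC n) (Sg.image cw) [] (c + Pi.single 0 T)) W := by
    refine ⟨hWs, fun m hm => ⟨by simp [slc], fun h hh => ?_⟩⟩
    rcases hHSc h hh with ⟨σ, hσ, rfl⟩ | ⟨j, rfl⟩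
    · rw [f7_rdot_add, f7_rdot_single]
      have h1 := hTb σ hσ m hm
      have h2 : (1 : ℝ) ≤ ((cw σ).2 : ℝ) := by
        have h0 := (hSg σ hσ).1
        have h3 : (1 : ℤ) ≤ (cw σ).2 := h0
        exact_mod_cast h3
      nlinarith
    · rw [f7_he_rdot, f7_he_dot]
      have h1 := hWb m hm j
      have h2 : (-1 : ℝ) ≤ ((m j.succ.succ : ℤ) : ℝ) := by exact_mod_cast h1
      have h3 : (c + (Pi.single 0 T : Fin (n + 2) → ℝ)) (j.succ.succ : Fin (n + 2)) =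
          c j.succ.succ := by
        rw [Pi.add_apply, Pi.single_eq_of_ne (Fin.succ_ne_zero _), add_zero]
      rw [h3]
      exact (haj j).trans h2
  have hWin : ∀ m, m ∉ NNc (CC n) (Sg.image cw) [] c → EEb (bv n t) F W m = 0 := by
    intro m hm
    by_contra hne
    apply hm
    obtain ⟨h1, h2⟩ := hWz m hne
    refine ⟨by simp [slc], fun h hh => ?_⟩
    rcases hHSc h hh with ⟨σ, hσ, rfl⟩ | ⟨j, rfl⟩
    · have h3 := h2 σ (hSg σ hσ)
      have h4 : (0 : ℝ) ≤ ((hs (cw σ) ⬝ᵥ m : ℤ) : ℝ) := by exact_mod_cast h3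
      exact (hcS σ hσ).trans h4
    · rw [f7_he_rdot, f7_he_dot]
      have h4 : (0 : ℝ) ≤ ((m j.succ.succ : ℤ) : ℝ) := by exact_mod_cast h1 j
      exact (by linarith [haj j] : c j.succ.succ ≤ 0).trans h4
  have hsS : ∀ i : Fin (n + 1), i ∈ sS S → ∃ j ∈ S, i = j.succ := by
    intro i hi
    obtain ⟨j, hj, rfl⟩ := List.mem_map.1 hi
    exact ⟨j, hj, rfl⟩
  have hcS1 : ∀ i : Fin (n + 1), i ∈ sS S → c i.succ = -1 := by
    intro i hi
    obtain ⟨j, hj, rfl⟩ := hsS i hi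
    rw [hcs]
    simp only [har]
    rw [haS1 j hj]
    simp
  have hbS1 : ∀ i : Fin (n + 1), i ∈ sS S → bv n t i = 1 := by
    intro i hi
    obtain ⟨j, hj, rfl⟩ := hsS i hi
    simp [bv, bq]
  have hX := XStc.all (k := ℂ) (bt := bv n t) hW (c := c) hT (sS S) []
    (List.Nodup.map (Fin.succ_injective n) hS) (by simp) (by
      intro i hi
      rcases hi with hi | hi
      · exact hcS1 i hi
      · simp at hi) (by
      intro i hi
      rcases hi with hi | hi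
      · obtain ⟨j, hj, rfl⟩ := hsS i hi
        exact Finset.mem_image_of_mem _ (Finset.mem_univ j)
      · simp at hi) (by
      intro i hi
      rcases hi with hi | hi
      · exact hbS1 i hi
      · simp at hi)
  have hWfill : ∀ m : Fin (n + 2) → ℤ, ∀ i ∈ sS S, m i.succ = -1 →
      gi (vec ℂ (ee i)) * W m = 0 := by
    intro m i hi hm
    obtain ⟨j, hj, rfl⟩ := hsS i hi
    exact hWf m j hm
  obtain ⟨g', hgs, hgd, hgf, hgz⟩ := hX 1 le_rfl W hWT hWd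
    (by intro m j hj hm; rw [hWfill m j hj hm, mul_zero])
    (by
      intro m hm
      rw [f7_Fpart_nil, hWin m hm, mul_zero])
  simp only [f7_Fpart_nil, f7_zet_nil, one_mul] at hgz
  -- the corrected function
  have hgEs := MSuppIn.EEb hW (bv n t) [] (c + Pi.single 0 T) hgs
  rw [f7_Fpart_nil] at hgEs
  have hgEf : Filled (sS S) [] (EEb (bv n t) F g') := by
    have h := Filled.EEb (bv n t) F hW.nonneg (J := []) (by
      intro i hi
      rcases hi with hi | hi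
      · exact hbS1 i hi
      · simp at hi) hgf (by
      intro m hm
      refine ⟨by simp, ?_⟩
      intro i hi
      obtain ⟨j, hj, hij⟩ := hsS i hi
      have h1 := (hgs.2 m hm).2 (he i) (by rw [hij]; exact hHe j)
      rw [f7_he_rdot, f7_he_dot] at h1
      have h2 : (c + (Pi.single 0 T : Fin (n + 2) → ℝ)) i.succ = -1 := by
        rw [Pi.add_apply, Pi.single_eq_of_ne (Fin.succ_ne_zero _), add_zero, hcS1 i hi]
      rw [h2] at h1
      exact_mod_cast h1)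
    rwa [f7_Fpart_nil] at h
  set V' : MFun ℂ (n + 1) := W - EEb (bv n t) F g' with hV'
  have hV'fin : (Function.support V').Finite := by
    apply (hWs.union hgEs.1).subset
    intro m hm
    by_contra h
    simp only [Set.mem_union, Function.mem_support, not_or, not_not] at h
    apply hm
    rw [hV', Pi.sub_apply, h.1, h.2, sub_zero]
  have hV'supp : ∀ m, V' m ≠ 0 → m ∈ NNc (CC n) (Sg.image cw) [] c := by
    intro m hm
    by_contra h
    exact hm (hgz m h)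
  have hV'deg : ∀ m, V' m ∈ Fil ℂ (n + 1) 1 := by
    intro m
    exact Submodule.sub_mem _ (hWd m) (MDeg.EEb hgd (bv n t) F m)
  have hV'fill : ∀ m : Fin (n + 2) → ℤ, ∀ j ∈ sS S, m j.succ = -1 →
      gi (vec ℂ (ee j)) * V' m = 0 := by
    intro m j hj hm
    have h1 := hgEf m j hj hm
    rw [f7_zet_nil, one_mul] at h1
    rw [hV', Pi.sub_apply, mul_sub, hWfill m j hj hm, h1, sub_zero]
  have hV'E : EEb (bv n t) F V' = EEb (bv n t) F W := by
    rw [hV', EEb_sub, EEb_EEb, sub_zero]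
  -- restriction to the level
  let cc : (Fin (n + 1) → ℤ) → (Fin (n + 2) → ℤ) := fun m => Fin.cons (((cw κ).1 ⬝ᵥ m) / κ.2) m
  let V : LFun ℂ (n + 1) := fun m => if κ.2 ∣ (cw κ).1 ⬝ᵥ m then V' (cc m) else 0
  have hccs : ∀ m (j : Fin (n + 1)), cc m j.succ = m j := fun m j => by simp [cc]
  have hcc0 : ∀ m, cc m 0 = ((cw κ).1 ⬝ᵥ m) / κ.2 := fun m => by simp [cc]
  have hcct : ∀ m, Fin.tail (cc m) = m := fun m => by simp [cc]
  have hVdiv : ∀ m, κ.2 ∣ (cw κ).1 ⬝ᵥ m → V m = V' (cc m) := fun m h => by simp [V, h]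
  have hVnd : ∀ m, ¬ κ.2 ∣ (cw κ).1 ⬝ᵥ m → V m = 0 := fun m h => by simp [V, h]
  have hVne : ∀ m, V m ≠ 0 → κ.2 ∣ (cw κ).1 ⬝ᵥ m ∧ V' (cc m) ≠ 0 := by
    intro m hm
    by_cases h : κ.2 ∣ (cw κ).1 ⬝ᵥ m
    · exact ⟨h, by rw [← hVdiv m h]; exact hm⟩
    · exact absurd (hVnd m h) hm
  refine ⟨V, ⟨?_, ?_⟩, ?_, ?_, ?_⟩
  · apply (hV'fin.image Fin.tail).subset
    intro m hm
    exact ⟨cc m, (hVne m hm).2, hcct m⟩
  · intro m hm
    obtain ⟨hd, h0⟩ := hVne m hm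
    have hN' := (hV'supp _ h0).2
    refine ⟨hd, ?_⟩
    intro h hh
    unfold H2c CC at hh
    rcases Finset.mem_union.1 hh with hh | hh
    · obtain ⟨τ', hτ', rfl⟩ := Finset.mem_image.1 hh
      obtain ⟨τ, hτ, rfl⟩ := Finset.mem_image.1 hτ'
      have h1 := hN' (hs (cw τ)) (hHs τ hτ)
      have h2 : (κ.2 : ℝ) * rdot (hs (cw τ)) c ≤ (κ.2 : ℝ) * ((hs (cw τ) ⬝ᵥ cc m : ℤ) : ℝ) :=
        mul_le_mul_of_nonneg_left h1 hNR.le
      rw [hcσ (cw τ), ← Int.cast_mul] at h2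
      have h3 : κ.2 * (hs (cw τ) ⬝ᵥ cc m) = et (cw κ) (cw τ) ⬝ᵥ m := by
        rw [f7_hs_dot, f7_et_dot, hcc0, hcct, hκ2]
        have h4 : κ.2 * (((cw κ).1 ⬝ᵥ m) / κ.2) = (cw κ).1 ⬝ᵥ m := Int.mul_ediv_cancel' hd
        linear_combination (-(cw τ).2) * h4
      rw [h3, rdot_cast_qf] at h2
      have h5 : ((-qf (et (cw κ) (cw τ)) a : ℚ) : ℝ) ≤
          ((((et (cw κ) (cw τ) ⬝ᵥ m : ℤ) : ℚ) : ℚ) : ℝ) := by
        push_cast
        exact h2
      exact_mod_cast h5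
    · obtain ⟨j', hj', rfl⟩ := Finset.mem_image.1 hh
      obtain ⟨j, -, rfl⟩ := Finset.mem_image.1 hj'
      have h1 := hN' (he (j.succ : Fin (n + 1))) (hHe j)
      rw [f7_he_rdot, f7_he_dot, hcs, hccs] at h1
      rw [f7_ee_dot]
      have h2 : qf (ee (j.succ : Fin (n + 1))) a = a j.succ := by
        unfold qf ee
        rw [Finset.sum_eq_single j.succ]
        · rw [Pi.single_eq_same]
          simp
        · intro i _ hi
          rw [Pi.single_eq_of_ne hi]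
          simp
        · intro h
          exact absurd (Finset.mem_univ _) h
      rw [h2]
      have h3 : ((-a j.succ : ℚ) : ℝ) ≤ (((m j.succ : ℤ) : ℚ) : ℝ) := by
        push_cast
        exact h1
      exact_mod_cast h3
  · intro m
    by_cases h : κ.2 ∣ (cw κ).1 ⬝ᵥ m
    · rw [hVdiv m h]
      exact hV'deg _
    · rw [hVnd m h]
      exact Submodule.zero_mem _
  · intro m j hj hm
    by_cases h : κ.2 ∣ (cw κ).1 ⬝ᵥ m
    · rw [hVdiv m h]
      exact hV'fill _ j hj (by rw [hccs, hm])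
    · rw [hVnd m h, mul_zero]
  · intro m
    have hFsup : (Fs (cw κ) F).support =
        F.support.filter (fun v => (cw κ).1 ⬝ᵥ v = κ.2) := by
      ext v
      simp [Fs, and_comm, hκ2]
    have hFval : ∀ v, (cw κ).1 ⬝ᵥ v = κ.2 → Fs (cw κ) F v = F v := by
      intro v hv
      simp [Fs, hv, hκ2]
    by_cases h : κ.2 ∣ (cw κ).1 ⬝ᵥ m
    · rw [if_pos h]
      have hk0 : hs (cw κ) ⬝ᵥ cc m = 0 := by
        rw [f7_hs_dot, hcc0, hcct, hκ2]
        have h4 : κ.2 * (((cw κ).1 ⬝ᵥ m) / κ.2) = (cw κ).1 ⬝ᵥ m := Int.mul_ediv_cancel' h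
        linear_combination -h4
      have h5 := hWk κ (hSg κ hκ) (cc m) hk0
      rw [← hV'E] at h5
      have h6 : (Fin.cons (((cw κ).1 ⬝ᵥ m) / κ.2) m : Fin (n + 2) → ℤ) = cc m := rfl
      rw [h6, ← h5]
      simp only [Eop, EEb, iF]
      rw [hcct, hVdiv m h]
      congr 1
      rw [hFsup, Finset.sum_filter]
      apply Finset.sum_congr rfl
      intro v hv
      by_cases hvk : (cw κ).1 ⬝ᵥ v = κ.2
      · rw [if_pos hvk, hFval v hvk]
        have hd' : κ.2 ∣ (cw κ).1 ⬝ᵥ (m - v) := by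
          rw [dotProduct_sub, hvk]
          exact dvd_sub h (dvd_refl _)
        rw [hVdiv _ hd']
        congr 3
        have h7 : ((cw κ).1 ⬝ᵥ (m - v)) / κ.2 = ((cw κ).1 ⬝ᵥ m) / κ.2 - 1 := by
          rw [dotProduct_sub, hvk, Int.sub_ediv_of_dvd _ (dvd_refl _), Int.ediv_self hN.ne']
        funext i
        refine Fin.cases ?_ (fun j => ?_) i
        · rw [hcc0, h7, Pi.sub_apply, hcc0]
          simp [sh]
        · rw [hccs, Pi.sub_apply, Pi.sub_apply, hccs]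
          simp [sh]
      · rw [if_neg hvk]
        have h8 : V' (cc m - sh v) = 0 := by
          by_contra hne
          have h9 := (hV'supp _ hne).2 (hs (cw κ)) (hHs κ hκ)
          rw [hcκ] at h9
          have h10 : (0 : ℤ) ≤ hs (cw κ) ⬝ᵥ (cc m - sh v) := by exact_mod_cast h9
          rw [dotProduct_sub, hk0] at h10
          have h11 : hs (cw κ) ⬝ᵥ sh v = -κ.2 + (cw κ).1 ⬝ᵥ v := by
            rw [f7_hs_dot, hκ2]
            simp [sh]
          have h12 : κ.2 ≤ (cw κ).1 ⬝ᵥ v := hW.le (cw κ) hmemκ v hv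
          rw [h11] at h10
          exact hvk (by omega)
        rw [h8]
        simp
    · rw [if_neg h, map_zero]
      simp only [Eop, iF]
      rw [hVnd m h, map_zero, zero_add]
      apply Finset.sum_eq_zero
      intro v hv
      rw [hFsup, Finset.mem_filter] at hv
      have hd' : ¬ κ.2 ∣ (cw κ).1 ⬝ᵥ (m - v) := by
        rw [dotProduct_sub, hv.2]
        intro hh
        apply h
        have := dvd_add hh (dvd_refl κ.2)
        simpa using this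
      rw [hVnd _ hd']
      simp

end MPb07157T
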