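import Pool.Agent.Lib.MP_b07157_agN.Main
import Pool.Agent.Lib.MP_b07157_agZ.A4

/-!
# The final form
-/

noncomputable section

namespace MPb07157

open MvPolynomial

variable {n : ℕ}

/-- The initial part of `f` for the integral weights `w`: the sum of the terms of `f` of least
weight. -/
def initialPartZ (f : MvPolynomial (Fin n) ℂ) (w : Fin n → ℤ) : MvPolynomial (Fin n) ℂ :=
  ∑ v ∈ f.support.filter (fun v => ∀ u ∈ f.support, ∑ j, w j * (v j : ℤ) ≤ ∑ j, w j * (u j : ℤ)),
    monomial v (coeff v f)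

/-- `g` has no zero in the torus at which all its partial derivatives vanish. -/
def IsNondeg (g : MvPolynomial (Fin n) ℂ) : Prop :=
  ∀ u : Fin n → ℂ, (∀ j, u j ≠ 0) → eval u g = 0 → ∃ j, eval u (pderiv j g) ≠ 0

theorem coeff_inForm (f : MvPolynomial (Fin n) ℂ) (I : Finset (Fin n →₀ ℕ)) (v : Fin n →₀ ℕ) :
    coeff v (inForm f I) = if v ∈ I then coeff v f else 0 := by
  classical
  unfold inForm
  rw [coeff_sum]
  simp only [coeff_monomial]
  rw [Finset.sum_ite_eq']

theorem support_inForm {f : MvPolynomial (Fin n) ℂ} {I : Finset (Fin n →₀ ℕ)}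
    (hI : I ⊆ f.support) : (inForm f I).support = I := by
  classical
  ext v
  rw [mem_support_iff, coeff_inForm]
  constructor
  · intro h
    by_contra h'
    rw [if_neg h'] at h
    exact h rfl
  · intro h
    rw [if_pos h]
    exact mem_support_iff.1 (hI h)

theorem initialPartZ_inForm {f : MvPolynomial (Fin n) ℂ} {I : Finset (Fin n →₀ ℕ)}
    (hI : I ⊆ f.support) (ω : Fin n → ℤ) :
    initialPartZ (inForm f I) ω = inForm f (MPb07157F.fc I ω) := by
  classical
  ext v
  rw [coeff_inForm]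
  unfold initialPartZ
  rw [coeff_sum]
  simp only [coeff_monomial]
  rw [Finset.sum_ite_eq', coeff_inForm, support_inForm hI]
  simp only [Finset.mem_filter, MPb07157F.fc, MPb07157F.zd]
  by_cases h : v ∈ I
  · by_cases h' : ∀ u ∈ I, ∑ j, ω j * (v j : ℤ) ≤ ∑ j, ω j * (u j : ℤ)
    · rw [if_pos ⟨h, h'⟩, if_pos h, if_pos ⟨h, h'⟩]
    · rw [if_neg (fun h1 => h' h1.2), if_neg (fun h1 => h' h1.2)]
  · rw [if_neg (fun h1 => h h1.1), if_neg (fun h1 => h h1.1)]

/-- **The strong monodromy conjecture** for Newton non-degenerate polynomials. -/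
theorem smc_initialPart {f : MvPolynomial (Fin n) ℂ} (hf : f ≠ 0) (h0 : coeff 0 f = 0)
    (hnd : ∀ w : Fin n → ℕ, IsNondeg (initialPart f w))
    (hnd' : ∀ (w : Fin n → ℕ) (ω : Fin n → ℤ), (∀ v ∈ f.support, 0 < ∑ j, w j * v j) →
      IsNondeg (initialPartZ (initialPart f w) ω))
    (s₀ : ℚ) (hp : IsPole (Zmot f) s₀) : IsBernsteinSatoRoot f s₀ := by
  have h0' : (0 : Fin n →₀ ℕ) ∉ f.support := by rwa [notMem_support_iff]
  refine MPb07157Z.smc_nondeg hf h0' (fun w => nondegAt_of_initialPart hf (hnd w)) ?_ s₀ hp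
  intro a ha ω
  have h1 := hnd' a ω (by
    intro v hv
    exact lt_of_lt_of_le ha ((isMinWt_nuf hf a).1 v hv))
  have hsub : face f a (nuf f a) ⊆ f.support := Finset.filter_subset _ _
  rw [initialPart_eq hf, initialPartZ_inForm hsub] at h1
  exact h1

end MPb07157
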