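import Pool.Agent.Lib.MP_b07157_ag.NewtGeneric
import Pool.Agent.Lib.MP_b07157_agN.CDefs

/-!
# Coefficients in general position
-/

noncomputable section

namespace MPb07157T

open Finset Matrix Cardinal

variable {n : ℕ}

/-- There are coefficients `γ_j` in general position with respect to `f`: algebraically independent
over the (countable) field generated by the coefficients of `f`.  (`ℂ` has an infinite
transcendence basis over this field; derivations from
`Pool.Agent.Lib.MP_e52354_nt.exists_derivation`, compare `MPb07157.exists_der`.) -/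
theorem exists_gam (f : MvPolynomial (Fin n) ℂ) : ∃ g : Fin n → ℂ, Gen f g := by
  classical
  let S : Set ℂ := Set.range fun v => MvPolynomial.coeff v f
  let K := IntermediateField.adjoin ℚ S
  have hScount : S.Countable := Set.countable_range _
  have hK : #K ≤ ℵ₀ := by
    have h1 := IntermediateField.cardinalMk_adjoin_le ℚ S
    refine h1.trans (max_le (max_le (by simp) ?_) le_rfl)
    exact hScount.le_aleph0
  obtain ⟨s, hs⟩ := exists_isTranscendenceBasis K ℂ
  have hC : ℵ₀ < #ℂ := by
    rw [Cardinal.mk_complex]
    exact Cardinal.aleph0_lt_continuum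
  have hcard := IsAlgClosed.cardinal_eq_cardinal_transcendence_basis_of_aleph0_lt' _ hs hK hC
  have hinf : Infinite s := by
    rw [Cardinal.infinite_iff, ← hcard]
    exact hC.le
  obtain ⟨e⟩ : Nonempty (Fin n ↪ s) := by
    have : Infinite s := hinf
    exact ⟨(Fin.valEmbedding (n := n)).trans (Infinite.natEmbedding s)⟩
  have halg := hs.isAlgebraic
  refine ⟨fun j => (e j : ℂ), fun j => ?_⟩
  obtain ⟨D, hD⟩ := Pool.Agent.Lib.MP_e52354_nt.exists_derivation hs.1
    (fun i => if i = e j then 1 else 0)
  have hDj : D (e j : ℂ) = 1 := by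
    have := hD (e j)
    simpa using this
  refine ⟨fun h => ?_, D.restrictScalars ℚ, fun v => ?_, ?_, fun i hi => ?_⟩
  · have h0 : (e j : ℂ) = 0 := h
    rw [h0, map_zero] at hDj
    exact zero_ne_one hDj
  · have h1 : MvPolynomial.coeff v f = algebraMap K ℂ ⟨MvPolynomial.coeff v f,
      IntermediateField.subset_adjoin ℚ S ⟨v, rfl⟩⟩ := rfl
    rw [h1]
    exact D.map_algebraMap _
  · exact hDj
  · have := hD (e i)
    rw [if_neg (fun h => hi (e.injective h))] at this
    exact this

end MPb07157T
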