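import Pool.Agent.Lib.MP_b07157_agF.H1
import Pool.Agent.Lib.MP_b07157_agN.CDefs

/-!
# From a good set to a face with the good set in its relative interior (weights with zeros)
-/

noncomputable section

namespace MPb07157F

open Finset MvPolynomial MPb07157

variable {n : ℕ}

private theorem hp_int_mult (h : Fin n → ℚ) :
    ∃ d : ℕ, 0 < d ∧ ∃ z : Fin n → ℤ, ∀ j, (z j : ℚ) = d * h j := by
  classical
  refine ⟨∏ i, (h i).den, Finset.prod_pos fun i _ => (h i).den_pos, ?_⟩
  have h1 : ∀ j, ∃ z : ℤ, (z : ℚ) = ((∏ i, (h i).den : ℕ) : ℚ) * h j := by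
    intro j
    obtain ⟨e, he⟩ := Finset.dvd_prod_of_mem (fun i => (h i).den) (Finset.mem_univ j)
    refine ⟨(h j).num * e, ?_⟩
    rw [he]
    push_cast
    have h2 : ((h j).num : ℚ) = h j * (h j).den := (Rat.mul_den_eq_num (h j)).symm
    rw [h2]
    ring
  choose z hz using h1
  exact ⟨z, hz⟩

private theorem hp_zd_cast {h : Fin n → ℚ} {d : ℕ} {z : Fin n → ℤ}
    (hz : ∀ j, (z j : ℚ) = d * h j) (v : Fin n →₀ ℕ) : ((zd z v : ℤ) : ℚ) = d * qd h v := by
  unfold zd qd
  push_cast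
  rw [Finset.mul_sum]
  refine Finset.sum_congr rfl fun j _ => ?_
  rw [hz j]
  ring

/-- One step: a form that vanishes on `ρ` and is nonnegative, not zero on the face makes the face
smaller. -/
private theorem hp_step {f : MvPolynomial (Fin n) ℂ} {ρ : Finset (Sf f)} {w : Fin n → ℕ} {N : ℕ}
    {P : Finset (Fin n)}
    (hw : ∀ j, j ∈ P ↔ 0 < w j) (hN : 0 < N) (hmin : ∀ v ∈ f.support, N ≤ wt w v)
    (hρ : ∀ v ∈ ρ, wt w v.1 = N) {h : Fin n → ℚ} (hP : ∀ j, j ∉ P → h j = 0)
    (h1 : ∀ v ∈ ρ, qd h v.1 = 0)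
    (h2 : ∀ v ∈ face f w N, 0 ≤ qd h v) {v₀ : Fin n →₀ ℕ} (hv₀ : v₀ ∈ face f w N)
    (h3 : qd h v₀ ≠ 0) :
    ∃ (w' : Fin n → ℕ) (N' : ℕ), (∀ j, j ∈ P ↔ 0 < w' j) ∧ 0 < N' ∧
      (∀ v ∈ f.support, N' ≤ wt w' v) ∧ (∀ v ∈ ρ, wt w' v.1 = N') ∧ (face f w' N').card < (face f w N).card := by
  classical
  obtain ⟨d, hd, z, hz⟩ := hp_int_mult h
  have hzd := hp_zd_cast hz
  have hd' : (0 : ℚ) < d := by exact_mod_cast hd
  set M : ℕ := 1 + ∑ j, (z j).natAbs + ∑ u ∈ f.support, (zd z u).natAbs with hM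
  have hM1 : ∀ j, |z j| < (M : ℤ) := by
    intro j
    have e1 : (z j).natAbs ≤ ∑ j, (z j).natAbs :=
      Finset.single_le_sum (f := fun j => (z j).natAbs) (fun _ _ => Nat.zero_le _)
        (Finset.mem_univ j)
    have e2 : (z j).natAbs < M := by omega
    rw [Int.abs_eq_natAbs]
    exact_mod_cast e2
  have hM2 : ∀ u ∈ f.support, |zd z u| < (M : ℤ) := by
    intro u hu
    have e1 : (zd z u).natAbs ≤ ∑ u ∈ f.support, (zd z u).natAbs :=
      Finset.single_le_sum (f := fun u => (zd z u).natAbs) (fun _ _ => Nat.zero_le _) hu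
    have e2 : (zd z u).natAbs < M := by omega
    rw [Int.abs_eq_natAbs]
    exact_mod_cast e2
  have hMpos : 0 < M := by omega
  have hw'' : ∀ j ∈ P, (0 : ℤ) < M * w j + z j := by
    intro j hj
    have e1 := abs_lt.1 (hM1 j)
    have e2 : (M : ℤ) * 1 ≤ M * w j := by
      have : (1 : ℤ) ≤ w j := by exact_mod_cast (hw j).1 hj
      exact mul_le_mul_of_nonneg_left this (by positivity)
    linarith [e1.1]
  have hw0 : ∀ j, j ∉ P → (M : ℤ) * w j + z j = 0 := by
    intro j hj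
    have e1 : w j = 0 := by
      by_contra h4
      exact hj ((hw j).2 (Nat.pos_of_ne_zero h4))
    have e2 : ((z j : ℤ) : ℚ) = 0 := by rw [hz j, hP j hj, mul_zero]
    have e3 : z j = 0 := by exact_mod_cast e2
    rw [e1, e3]
    simp
  have hw' : ∀ j, (0 : ℤ) ≤ M * w j + z j := by
    intro j
    by_cases hj : j ∈ P
    · exact (hw'' j hj).le
    · exact (hw0 j hj).ge
  set w' : Fin n → ℕ := fun j => ((M : ℤ) * w j + z j).toNat with hw'def
  have hw'c : ∀ j, (w' j : ℤ) = M * w j + z j := fun j => Int.toNat_of_nonneg (hw' j)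
  have hwt : ∀ u : Fin n →₀ ℕ, ((wt w' u : ℕ) : ℤ) = M * (wt w u : ℕ) + zd z u := by
    intro u
    unfold wt zd
    push_cast
    rw [Finset.mul_sum, ← Finset.sum_add_distrib]
    refine Finset.sum_congr rfl fun j _ => ?_
    rw [hw'c j]
    ring
  have hzface : ∀ u ∈ face f w N, 0 ≤ zd z u := by
    intro u hu
    have e1 : (0 : ℚ) ≤ ((zd z u : ℤ) : ℚ) := by
      rw [hzd u]
      exact mul_nonneg hd'.le (h2 u hu)
    exact_mod_cast e1
  have hout : ∀ u ∈ f.support, u ∉ face f w N → ((M * N : ℕ) : ℤ) < (wt w' u : ℕ) := by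
    intro u hu hnf
    have e1 := hmin u hu
    have e2 : wt w u ≠ N := fun e => hnf (Finset.mem_filter.2 ⟨hu, e⟩)
    have e3 : N + 1 ≤ wt w u := by omega
    have e4 := abs_lt.1 (hM2 u hu)
    rw [hwt u]
    push_cast
    have e5 : (M : ℤ) * (N + 1) ≤ M * (wt w u : ℕ) := by
      have : ((N : ℤ) + 1) ≤ (wt w u : ℕ) := by exact_mod_cast e3
      exact mul_le_mul_of_nonneg_left this (by positivity)
    nlinarith [e4.1]
  have hin : ∀ u ∈ face f w N, ((wt w' u : ℕ) : ℤ) = ((M * N : ℕ) : ℤ) + zd z u := by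
    intro u hu
    rw [hwt u, (Finset.mem_filter.1 hu).2]
    push_cast
    ring
  refine ⟨w', M * N, fun j => ?_, Nat.mul_pos hMpos hN, ?_, ?_, ?_⟩
  · constructor
    · intro hj
      have := hw'' j hj
      rw [← hw'c j] at this
      exact_mod_cast this
    · intro hj
      by_contra h4
      have := hw0 j h4
      rw [← hw'c j] at this
      have e1 : w' j = 0 := by exact_mod_cast this
      omega
  · intro u hu
    by_cases hf : u ∈ face f w N
    · have e1 := hin u hf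
      have e2 := hzface u hf
      have : ((M * N : ℕ) : ℤ) ≤ (wt w' u : ℕ) := by linarith
      exact_mod_cast this
    · exact_mod_cast (hout u hu hf).le
  · intro v hv
    have hf : v.1 ∈ face f w N := Finset.mem_filter.2 ⟨v.2, hρ v hv⟩
    have e1 := hin v.1 hf
    have e2 : ((zd z v.1 : ℤ) : ℚ) = 0 := by rw [hzd, h1 v hv, mul_zero]
    have e3 : zd z v.1 = 0 := by exact_mod_cast e2
    rw [e3, add_zero] at e1
    exact_mod_cast e1
  · refine Finset.card_lt_card ?_
    rw [Finset.ssubset_iff_of_subset]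
    · refine ⟨v₀, hv₀, fun hv => ?_⟩
      have e1 := (Finset.mem_filter.1 hv).2
      have e2 := hin v₀ hv₀
      rw [e1] at e2
      have e3 : zd z v₀ = 0 := by linarith
      have e4 := hzd v₀
      rw [e3, Int.cast_zero] at e4
      rcases mul_eq_zero.1 e4.symm with e5 | e5
      · exact absurd e5 hd'.ne'
      · exact h3 e5
    · intro u hu
      by_contra hf
      have e1 := hout u (Finset.mem_filter.1 hu).1 hf
      rw [(Finset.mem_filter.1 hu).2] at e1
      exact lt_irrefl _ e1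

/-- As `exists_face` (`H1.lean`), for `k` with zero entries: the weights keep the support of `k.1`,
the forms `h` in `ri` are supported on it. -/
theorem exists_faceP {f : MvPolynomial (Fin n) ℂ} {s₀ : ℚ} {k : GG n} (hk : 0 < k.2)
    (hmem : k ∈ car f k) {ρ : Finset (Sf f)} {γ : Sf f → ℚ} (hg : GoodSet f s₀ k ρ γ) :
    ∃ (w : Fin n → ℕ) (N : ℕ) (P : Finset (Fin n)) (ρ' : Finset (Fin n →₀ ℕ))
      (γ' : (Fin n →₀ ℕ) → ℚ), (∀ j, j ∈ P ↔ 0 < w j) ∧ 0 < N ∧
      (∀ v ∈ f.support, N ≤ wt w v) ∧ GoodP P (face f w N) ρ' γ' ∧ ∑ v ∈ ρ', γ' v = -s₀ := by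
  classical
  have hex : ∃ c : ℕ, ∃ (w : Fin n → ℕ) (N : ℕ), (∀ j, j ∈ suppG k ↔ 0 < w j) ∧ 0 < N ∧
      (∀ v ∈ f.support, N ≤ wt w v) ∧ (∀ v ∈ ρ, wt w v.1 = N) ∧ (face f w N).card = c := by
    have hwt : ∀ u : Fin n →₀ ℕ, ((wt (fun j => (k.1 j).toNat) u : ℕ) : ℤ) = dotH u k := by
      intro u
      rw [dotH_apply]
      unfold wt
      push_cast
      refine Finset.sum_congr rfl fun j _ => ?_
      rw [Int.toNat_of_nonneg (hmem.1 j)]
    refine ⟨_, fun j => (k.1 j).toNat, k.2.toNat, fun j => (by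
      have h1 := hmem.1 j
      show j ∈ suppG k ↔ 0 < (k.1 j).toNat
      constructor
      · intro h2
        have h3 := (Finset.mem_filter.1 h2).2
        omega
      · intro h2
        exact Finset.mem_filter.2 ⟨Finset.mem_univ j, by omega⟩), by omega,
      ?_, ?_, rfl⟩
    · intro v hv
      have e1 := hmem.2.2.1 v hv
      rw [← hwt v] at e1
      omega
    · intro v hv
      have e1 := (Finset.mem_filter.1 (hg.face v hv)).2
      rw [← hwt v.1] at e1
      omega
  obtain ⟨w, N, hw, hN, hmin, hρ, hc⟩ := Nat.find_spec hex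
  have hleast : ∀ (w' : Fin n → ℕ) (N' : ℕ), (∀ j, j ∈ suppG k ↔ 0 < w' j) → 0 < N' →
      (∀ v ∈ f.support, N' ≤ wt w' v) → (∀ v ∈ ρ, wt w' v.1 = N') →
      ¬ (face f w' N').card < (face f w N).card := by
    intro w' N' a1 a2 a3 a4 a5
    rw [hc] at a5
    exact Nat.find_min hex a5 ⟨w', N', a1, a2, a3, a4, rfl⟩
  set γ' : (Fin n →₀ ℕ) → ℚ := fun v => if h : v ∈ f.support then γ ⟨v, h⟩ else 0 with hγ'
  have hγv : ∀ v : Sf f, γ' v.1 = γ v := by
    intro v
    rw [hγ']
    exact dif_pos v.2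
  have hinj : Set.InjOn (Subtype.val : Sf f → Fin n →₀ ℕ) (ρ : Set (Sf f)) :=
    Subtype.val_injective.injOn
  have hsum : ∀ F : (Fin n →₀ ℕ) → ℚ, ∑ v ∈ ρ.image Subtype.val, F v = ∑ v ∈ ρ, F v.1 :=
    fun F => Finset.sum_image hinj
  have hsum2 : ∀ F : (Fin n →₀ ℕ) → ℚ,
      ∑ v ∈ ρ.image Subtype.val, γ' v * F v = ∑ v, γ v * F v.1 := by
    intro F
    rw [hsum]
    rw [← Finset.sum_subset (Finset.subset_univ ρ) (fun v _ hv => by rw [hg.zero v hv, zero_mul])]
    exact Finset.sum_congr rfl fun v _ => by rw [hγv v]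
  refine ⟨w, N, suppG k, ρ.image Subtype.val, γ', hw, hN, hmin, ?_, ?_⟩
  · constructor
    · intro v hv
      obtain ⟨u, hu, rfl⟩ := Finset.mem_image.1 hv
      exact Finset.mem_filter.2 ⟨u.2, hρ u hu⟩
    · intro g hg1 v hv
      obtain ⟨u, hu, rfl⟩ := Finset.mem_image.1 hv
      have e1 := hg.lin (fun v => if v ∈ ρ then g v.1 else 0) (fun v hv => if_neg hv) (by
        intro j
        have e2 := hg1 j
        rw [hsum] at e2
        refine Eq.trans ?_ e2
        symm
        refine (Finset.sum_congr rfl fun v hv => ?_).trans (Finset.sum_subset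
          (Finset.subset_univ ρ) (fun v _ hv => ?_))
        · rw [if_pos hv]
        · rw [if_neg hv, zero_mul])
      have e3 := congrFun e1 u
      simp only [if_pos hu, Pi.zero_apply] at e3
      exact e3
    · intro j hj
      rw [hsum2 fun v => (v j : ℚ)]
      exact hg.one j hj
    · intro j hj
      rcases hg.tw j hj with ⟨v, hv, h1, h2⟩ | ⟨j', h0, h1, h2⟩
      · exact Or.inl ⟨v.1, Finset.mem_image_of_mem _ hv, by rw [hγv v]; exact h1, h2⟩
      · refine Or.inr ⟨j', h0, h1, fun v hv => ?_⟩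
        obtain ⟨u, hu, rfl⟩ := Finset.mem_image.1 hv
        exact h2 u hu
    · intro h h0 h1 h2
      by_contra h3
      push Not at h3
      obtain ⟨v₀, hv₀, h4⟩ := h3
      obtain ⟨w', N', a1, a2, a3, a4, a5⟩ := hp_step hw hN hmin hρ (h := h) h0
        (fun v hv => h1 v.1 (Finset.mem_image_of_mem _ hv)) h2 hv₀ h4
      exact hleast w' N' a1 a2 a3 a4 a5
  · have e1 := hsum2 fun _ => 1
    simp only [mul_one] at e1
    rw [e1]
    have e2 := hg.sum
    linarith

end MPb07157F
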