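import Pool.Agent.Lib.MP_b07157_agN.LPb

/-!
# The linear program for the coordinates in `P`
-/

noncomputable section

namespace MPb07157F

open Finset

variable {n : ℕ}

/-- As `exists_ya` (F1, F2, F3), with the linear program in the coordinates of `P` only (`y = 0`
outside `P`) and without the perturbation.  In `F2.no_deficit` the form `h = ∑ t_j (e_j - e_{τ j})`
is supported on `P` (`J ⊆ P`, `τ j ∈ P`), so `hg.ri` applies; the ranks are full ranks. -/
theorem exists_yaP {P : Finset (Fin n)} {G ρ : Finset (Fin n →₀ ℕ)} {γ : (Fin n →₀ ℕ) → ℚ}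
    (hg : GoodP P G ρ γ) :
    ∃ (y : Fin n → ℚ) (α : (Fin n →₀ ℕ) → ℚ), (∀ v ∈ G, 0 < α v) ∧
      (∀ j ∈ P, 1 ≤ ∑ v ∈ G, α v * (v j : ℚ)) ∧
      (∀ j, 0 < y j → ∑ v ∈ G, α v * (v j : ℚ) = 1) ∧
      (∀ j, 0 ≤ y j) ∧ (∀ j, j ∉ P → y j = 0) ∧ (∀ v ∈ G, qd y v ≤ 1) ∧
      ∑ v ∈ G, α v - ∑ j, y j < 1 ∧
      (∀ j, y j < 1 → ∑ v ∈ G, α v - ∑ j, y j < 1 - y j) ∧
      ∀ J : Finset (Fin n), (∀ j ∈ J, y j = 1) → J.Nonempty →
        2 * J.card ≤ Module.finrank ℚ (Submodule.span ℚ (onS G J)) := by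
  classical
  have hcol : ∀ j, ∃ v ∈ Gp P G, v j ≠ 0 := by
    intro j
    by_cases hj : j ∈ P
    · by_contra hcon
      push Not at hcon
      have h1 := hg.one j hj
      rw [Finset.sum_eq_zero fun v hv => by
        rw [hcon v (Finset.mem_union_left _ (hg.sub hv))]; simp] at h1
      exact absurd h1 (by norm_num)
    · exact ⟨Finsupp.single j 1, Finset.mem_union_right _ (Finset.mem_image_of_mem _
        (Finset.mem_filter.2 ⟨Finset.mem_univ _, hj⟩)), by simp⟩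
  -- the minimal good `y`
  obtain ⟨y, hy, hmin⟩ : ∃ y, GoodYP P G y ∧
      ∀ y', GoodYP P G y' → (ones y).card ≤ (ones y').card := by
    have hne : ∃ m, ∃ y, GoodYP P G y ∧ (ones y).card = m := by
      obtain ⟨y, hy⟩ := exists_goodY_gen hcol (ellP P G)
      exact ⟨_, y, hy, rfl⟩
    obtain ⟨y, hy, hm⟩ := Nat.find_spec hne
    refine ⟨y, hy, fun y' hy' => ?_⟩
    rw [hm]
    exact Nat.find_min' hne ⟨y', hy', rfl⟩
  have hyY := hy.1
  have hyP := hy.zero
  have hyG : ∀ v ∈ G, qd y v ≤ 1 := fun v hv => hyY.2 v (Finset.mem_union_left _ hv)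
  -- a threshold for `k`
  obtain ⟨ε, hε0, hε1, hε⟩ : ∃ ε : ℚ, 0 < ε ∧ ε < 1 ∧ ∀ j, y j < 1 → ε < 1 - y j := by
    have h1 : Small fun t => ∀ j ∈ (Finset.univ : Finset (Fin n)), y j < 1 → t < 1 - y j := by
      refine Small.finset _ fun j _ => ?_
      by_cases hj : y j < 1
      · exact ⟨1 - y j, sub_pos.2 hj, fun t _ ht _ => ht⟩
      · exact ⟨1, one_pos, fun t _ _ h => absurd h hj⟩
    obtain ⟨t, h2, h3, h4⟩ := h1.exists
    exact ⟨t, h2, h3, fun j hj => h4 j (Finset.mem_univ j) hj⟩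
  obtain ⟨K, hK⟩ := exists_nat_gt ((G.card : ℚ) / ε)
  obtain ⟨k, hk, hKk⟩ := hy.2.exists_gt K
  obtain ⟨hk0, hmx⟩ := hk
  have hkq : (0 : ℚ) < k := by exact_mod_cast hk0
  obtain ⟨lam, hlam0, hlam1, hlam2, hlam3, hlam4⟩ := dual_of_mx hcol hmx
  have hout : ∀ F : (Fin n →₀ ℕ) → ℚ, ∑ v ∈ Gp P G, lam v * F v = ∑ v ∈ G, lam v * F v := by
    intro F
    symm
    refine Finset.sum_subset Finset.subset_union_left fun v hv hvG => ?_
    obtain ⟨j, hj, rfl⟩ := Finset.mem_image.1 ((Finset.mem_union.1 hv).resolve_left hvG)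
    have h0 : lam (Finsupp.single j 1) = 0 := by
      by_contra hne
      have h1 := hlam3 _ hv hne
      rw [qd_single, hyP j (Finset.mem_filter.1 hj).2] at h1
      exact zero_ne_one h1
    rw [h0, zero_mul]
  have hout1 : ∑ v ∈ Gp P G, lam v = ∑ v ∈ G, lam v := by
    have := hout fun _ => 1
    simpa using this
  let α₀ : (Fin n →₀ ℕ) → ℚ := fun v => lam v + 1 / k
  have hα₀ : ∀ v ∈ G, 0 < α₀ v := fun v hv =>
    add_pos_of_nonneg_of_pos (hlam0 v (Finset.mem_union_left _ hv)) (div_pos one_pos hkq)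
  have ha₀ : ∀ j, ∑ v ∈ G, α₀ v * (v j : ℚ) =
      ∑ v ∈ G, lam v * (v j : ℚ) + (∑ v ∈ G, (v j : ℚ)) / k := by
    intro j
    simp only [α₀, add_mul]
    rw [Finset.sum_add_distrib, Finset.sum_div]
    congr 1
    exact Finset.sum_congr rfl fun v _ => by ring
  have ha₀1 : ∀ j ∈ P, 1 ≤ ∑ v ∈ G, α₀ v * (v j : ℚ) := by
    intro j hj
    have h1 := hlam1 j
    rw [hout] at h1
    unfold ellP ell at h1
    rw [if_pos hj] at h1
    rw [ha₀]
    linarith
  have ha₀2 : ∀ j, 0 < y j → ∑ v ∈ G, α₀ v * (v j : ℚ) = 1 := by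
    intro j hj
    have hjP : j ∈ P := by
      by_contra h
      rw [hyP j h] at hj
      exact lt_irrefl _ hj
    have h1 := hlam4 j hj
    rw [hout] at h1
    unfold ellP ell at h1
    rw [if_pos hjP] at h1
    rw [ha₀, h1]
    ring
  have hD : ∑ v ∈ G, α₀ v - ∑ j, y j < ε := by
    have e1 : ∑ v ∈ G, α₀ v = ∑ v ∈ G, lam v + (G.card : ℚ) / k := by
      simp only [α₀]
      rw [Finset.sum_add_distrib, Finset.sum_const, nsmul_eq_mul]
      ring
    have e2 : ∑ v ∈ G, lam v ≤ ∑ j, y j := by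
      rw [← hout1, hlam2]
      refine Finset.sum_le_sum fun j _ => ?_
      unfold ellP ell
      have h1 : 0 ≤ (∑ v ∈ G, (v j : ℚ)) / k :=
        div_nonneg (Finset.sum_nonneg fun v _ => Nat.cast_nonneg _) hkq.le
      have h2 := hyY.1 j
      split_ifs
      · nlinarith
      · linarith
    have e3 : (G.card : ℚ) / k < ε := by
      rw [div_lt_iff₀ hkq]
      rw [div_lt_iff₀ hε0] at hK
      have h1 : (K : ℚ) < k := by exact_mod_cast hKk
      nlinarith
    rw [e1]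
    linarith
  refine ⟨y, α₀, hα₀, ha₀1, ha₀2, hyY.1, hyP, hyG, ?_, fun j hj => ?_, fun J hJ _ => ?_⟩
  · linarith
  · have := hε j hj
    linarith
  · exact no_deficitP hg hy hmin J fun j hj => Finset.mem_filter.2 ⟨Finset.mem_univ _, hJ j hj⟩

end MPb07157F
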