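import Pool.Agent.Lib.MP_b07157_agF.F3
import Pool.Agent.Lib.MP_b07157_agN.LPa

/-!
# The linear program for the coordinates in `P`: no deficit
-/

noncomputable section

namespace MPb07157F

open Finset

variable {n : ℕ}

theorem qd_single (y : Fin n → ℚ) (j : Fin n) : qd y (Finsupp.single j 1) = y j := by
  classical
  unfold qd
  rw [Finset.sum_eq_single j]
  · rw [Finsupp.single_eq_same]
    simp
  · intro i _ hi
    rw [Finsupp.single_eq_of_ne hi]
    simp
  · intro h
    exact absurd (Finset.mem_univ _) h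

/-- The exponents, and unit vectors for the coordinates outside of `P`. -/
def Gp (P : Finset (Fin n)) (G : Finset (Fin n →₀ ℕ)) : Finset (Fin n →₀ ℕ) :=
  G ∪ (Finset.univ.filter (fun j => j ∉ P)).image fun j => Finsupp.single j 1

/-- The objectives: negative outside of `P`. -/
def ellP (P : Finset (Fin n)) (G : Finset (Fin n →₀ ℕ)) (k : ℕ) : Fin n → ℚ :=
  fun j => if j ∈ P then ell G k j else -1

/-- `y` is optimal for infinitely many perturbations. -/
def GoodYP (P : Finset (Fin n)) (G : Finset (Fin n →₀ ℕ)) (y : Fin n → ℚ) : Prop :=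
  y ∈ Ys (Gp P G) ∧ {k : ℕ | 0 < k ∧ Mx (Gp P G) (ellP P G k) y}.Infinite

theorem Mx.zero {P : Finset (Fin n)} {G : Finset (Fin n →₀ ℕ)} {k : ℕ} {y : Fin n → ℚ}
    (h : Mx (Gp P G) (ellP P G k) y) (j : Fin n) (hj : j ∉ P) : y j = 0 := by
  classical
  by_contra hne
  have hpos : 0 < y j := lt_of_le_of_ne (h.1.1 j) (Ne.symm hne)
  let y' : Fin n → ℚ := fun i => if i ∈ P then y i else 0
  have hy'0 : ∀ i, 0 ≤ y' i := fun i => by
    show 0 ≤ (if i ∈ P then y i else 0)
    split_ifs
    · exact h.1.1 i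
    · exact le_rfl
  have hle : ∀ i, y' i ≤ y i := fun i => by
    show (if i ∈ P then y i else 0) ≤ y i
    split_ifs
    · exact le_rfl
    · exact h.1.1 i
  have h1 := h.2 y' ⟨hy'0, fun v hv => (Finset.sum_le_sum fun i _ =>
    mul_le_mul_of_nonneg_right (hle i) (by positivity)).trans (h.1.2 v hv)⟩
  have h2 : ∑ i, ellP P G k i * y i < ∑ i, ellP P G k i * y' i := by
    refine Finset.sum_lt_sum (fun i _ => ?_) ⟨j, Finset.mem_univ _, ?_⟩
    · show _ ≤ ellP P G k i * (if i ∈ P then y i else 0)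
      unfold ellP
      split_ifs
      · exact le_rfl
      · have := h.1.1 i
        linarith
    · show _ < ellP P G k j * (if j ∈ P then y j else 0)
      unfold ellP
      rw [if_neg hj, if_neg hj]
      linarith
  linarith

theorem GoodYP.zero {P : Finset (Fin n)} {G : Finset (Fin n →₀ ℕ)} {y : Fin n → ℚ}
    (h : GoodYP P G y) (j : Fin n) (hj : j ∉ P) : y j = 0 := by
  obtain ⟨k, hk⟩ := h.2.nonempty
  exact hk.2.zero j hj

theorem no_deficitP {P : Finset (Fin n)} {G ρ : Finset (Fin n →₀ ℕ)} {γ : (Fin n →₀ ℕ) → ℚ}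
    (hg : GoodP P G ρ γ) {y : Fin n → ℚ} (hy : GoodYP P G y)
    (hmin : ∀ y', GoodYP P G y' → (ones y).card ≤ (ones y').card)
    (J : Finset (Fin n)) (hJ : J ⊆ ones y) :
    2 * J.card ≤ Module.finrank ℚ (Submodule.span ℚ (onS G J)) := by
  classical
  by_contra hcon
  push Not at hcon
  have hyJ : ∀ j ∈ J, y j = 1 := fun j hj => (Finset.mem_filter.1 (hJ hj)).2
  have hyP := hy.zero
  obtain ⟨⟨hy0, hyv'⟩, hinf⟩ := hy
  have hyv : ∀ v ∈ G, qd y v ≤ 1 := fun v hv => hyv' v (Finset.mem_union_left _ hv)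
  have hJP : J ⊆ P := by
    intro j hj
    by_contra hjP
    have h1 := hyJ j hj
    rw [hyP j hjP] at h1
    exact zero_ne_one h1
  have hJ1 : ∀ v ∈ G, ∑ j ∈ J, v j ≤ 1 := by
    intro v hv
    have h1 := hyv v hv
    have h2 : ((∑ j ∈ J, v j : ℕ) : ℚ) ≤ qd y v := by
      unfold qd
      push_cast
      calc ∑ j ∈ J, (v j : ℚ) = ∑ j ∈ J, y j * (v j : ℚ) := by
            refine Finset.sum_congr rfl fun j hj => ?_
            rw [hyJ j hj, one_mul]
        _ ≤ _ := Finset.sum_le_sum_of_subset_of_nonneg (Finset.subset_univ _)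
            fun j _ _ => mul_nonneg (hy0 j) (by positivity)
    exact_mod_cast h2.trans h1
  obtain ⟨t, τ, ht0, htJ, ⟨j₀, hj₀⟩, htτ, hrel⟩ := exists_relationP hg J hJP hJ1 hcon
  have htJ' : ∀ j, t j ≠ 0 → j ∈ J := fun j hj => by
    by_contra h
    exact hj (htJ j h)
  have hyτ : ∀ j, t j ≠ 0 → y (τ j) = 0 := by
    intro j hj
    obtain ⟨-, h1, v, hv, hv1, hv2⟩ := htτ j hj
    have h2 := hyv v hv
    have hne : j ≠ τ j := fun h => h1 (h ▸ htJ' j hj)
    have h3 : ∑ i ∈ ({j, τ j} : Finset (Fin n)), y i * (v i : ℚ) ≤ qd y v := by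
      unfold qd
      exact Finset.sum_le_sum_of_subset_of_nonneg (Finset.subset_univ _)
        fun i _ _ => mul_nonneg (hy0 i) (by positivity)
    rw [Finset.sum_pair hne, hv1, hv2, hyJ j (htJ' j hj)] at h3
    have h4 := hy0 (τ j)
    push_cast at h3
    linarith
  set T := ∑ j, t j with hT
  have hT0 : 0 ≤ T := Finset.sum_nonneg fun j _ => ht0 j
  set s : ℚ := 1 / (1 + T) with hs
  have hs0 : 0 < s := by positivity
  have hsT : s * T < 1 := by
    rw [hs, div_mul_eq_mul_div, one_mul, div_lt_one (by linarith)]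
    linarith
  have htT : ∀ j, t j ≤ T := fun j =>
    Finset.single_le_sum (f := t) (fun i _ => ht0 i) (Finset.mem_univ j)
  let Q : Fin n → ℚ := fun i => ∑ j, t j * (if i = τ j then 1 else 0)
  have hP0 : ∀ i, 0 ≤ Q i := fun i => Finset.sum_nonneg fun j _ =>
    mul_nonneg (ht0 j) (by split_ifs <;> norm_num)
  have hPT : ∀ i, Q i ≤ T := fun i => Finset.sum_le_sum fun j _ => by
    have := ht0 j
    split_ifs
    · rw [mul_one]
    · rw [mul_zero]
      exact this
  have hPJ : ∀ i ∈ J, Q i = 0 := by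
    intro i hi
    refine Finset.sum_eq_zero fun j _ => ?_
    by_cases hj : t j = 0
    · rw [hj, zero_mul]
    · rw [if_neg, mul_zero]
      rintro rfl
      exact (htτ j hj).2.1 hi
  let g : Fin n → ℚ := fun i => ∑ j, t j * ((if i = τ j then 1 else 0) - (if i = j then 1 else 0))
  have hgP : ∀ i, g i = Q i - t i := by
    intro i
    show ∑ j, t j * ((if i = τ j then 1 else 0) - (if i = j then 1 else 0)) = _
    simp only [mul_sub]
    rw [Finset.sum_sub_distrib]
    congr 1
    simp
  have hgv : ∀ v ∈ G, qd g v = 0 := by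
    intro v hv
    rw [qd_form t τ v, hrel v hv, neg_zero]
  have hgout : ∀ i, i ∉ P → g i = 0 := by
    intro i hi
    have h1 : t i = 0 := by
      by_contra h
      exact hi (hJP (htJ' i h))
    have h2 : Q i = 0 := by
      refine Finset.sum_eq_zero fun j _ => ?_
      by_cases hj : t j = 0
      · rw [hj, zero_mul]
      · rw [if_neg (fun h => hi (by rw [h]; exact (htτ j hj).1)), mul_zero]
    rw [hgP, h1, h2, sub_zero]
  have hgs : ∑ i, g i = 0 := by
    show ∑ i, ∑ j, t j * ((if i = τ j then 1 else 0) - (if i = j then 1 else 0)) = 0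
    rw [Finset.sum_comm]
    refine Finset.sum_eq_zero fun j _ => ?_
    rw [← Finset.mul_sum, Finset.sum_sub_distrib]
    simp
  let y' : Fin n → ℚ := fun i => y i + s * g i
  have hy'v : ∀ v ∈ G, qd y' v = qd y v := by
    intro v hv
    have h1 : qd y' v = qd y v + s * qd g v := by
      unfold qd
      rw [Finset.mul_sum, ← Finset.sum_add_distrib]
      exact Finset.sum_congr rfl fun i _ => by
        show (y i + s * g i) * _ = _
        ring
    rw [h1, hgv v hv, mul_zero, add_zero]
  have hy'0 : ∀ i, 0 ≤ y' i := by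
    intro i
    show 0 ≤ y i + s * g i
    rw [hgP]
    by_cases hi : t i = 0
    · rw [hi, sub_zero]
      have := hy0 i
      have := mul_nonneg hs0.le (hP0 i)
      linarith
    · rw [hyJ i (htJ' i hi)]
      have h1 := mul_nonneg hs0.le (hP0 i)
      have h2 := mul_le_mul_of_nonneg_left (htT i) hs0.le
      rw [mul_sub]
      linarith
  have hy'Y : y' ∈ Ys (Gp P G) := by
    refine ⟨hy'0, fun v hv => ?_⟩
    rcases Finset.mem_union.1 hv with hv | hv
    · rw [hy'v v hv]
      exact hyv v hv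
    · obtain ⟨j, hj, rfl⟩ := Finset.mem_image.1 hv
      rw [qd_single]
      show y j + s * g j ≤ 1
      rw [hgout j (Finset.mem_filter.1 hj).2, hyP j (Finset.mem_filter.1 hj).2]
      norm_num
  have hgood : GoodYP P G y' := by
    refine ⟨hy'Y, ?_⟩
    refine hinf.mono ?_
    rintro k ⟨hk, hm⟩
    refine ⟨hk, hy'Y, fun z hz => ?_⟩
    have h1 : ∑ j, ellP P G k j * y' j = ∑ j, ellP P G k j * y j := by
      have h2 : ∑ j, ellP P G k j * g j = 0 := by
        have h0 : ∀ j, ellP P G k j * g j = ell G k j * g j := by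
          intro j
          unfold ellP
          split_ifs with hjP
          · rfl
          · rw [hgout j hjP, mul_zero, mul_zero]
        rw [Finset.sum_congr rfl fun j _ => h0 j]
        have h3 : ∀ j, ell G k j * g j = g j - (∑ v ∈ G, g j * (v j : ℚ)) / k := by
          intro j
          unfold ell
          rw [← Finset.mul_sum]
          ring
        rw [Finset.sum_congr rfl fun j _ => h3 j, Finset.sum_sub_distrib, hgs,
          ← Finset.sum_div, Finset.sum_comm]
        have h5 : ∑ v ∈ G, ∑ x, g x * (v x : ℚ) = 0 := Finset.sum_eq_zero fun v hv => hgv v hv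
        rw [h5]
        simp
      have h3 : ∀ j, ellP P G k j * y' j = ellP P G k j * y j + s * (ellP P G k j * g j) :=
        fun j => by
        show _ * (y j + s * g j) = _
        ring
      rw [Finset.sum_congr rfl fun j _ => h3 j, Finset.sum_add_distrib, ← Finset.mul_sum, h2,
        mul_zero, add_zero]
    rw [h1]
    exact hm.2 z hz
  have hlt : (ones y').card < (ones y).card := by
    refine Finset.card_lt_card ⟨fun i hi => ?_, fun hsub => ?_⟩
    · have hi1 : y i + s * g i = 1 := (Finset.mem_filter.1 hi).2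
      refine Finset.mem_filter.2 ⟨Finset.mem_univ _, ?_⟩
      by_contra hne
      have hti : t i = 0 := by
        by_contra h
        exact hne (hyJ i (htJ' i h))
      rw [hgP, hti, sub_zero] at hi1
      by_cases hPi : Q i = 0
      · rw [hPi, mul_zero, add_zero] at hi1
        exact hne hi1
      · obtain ⟨j, hj⟩ : ∃ j, t j * (if i = τ j then (1 : ℚ) else 0) ≠ 0 := by
          by_contra hcon
          push Not at hcon
          exact hPi (Finset.sum_eq_zero fun j _ => hcon j)
        have hj1 : t j ≠ 0 := left_ne_zero_of_mul hj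
        have hj2 : i = τ j := by
          by_contra h
          rw [if_neg h, mul_zero] at hj
          exact hj rfl
        rw [hj2, hyτ j hj1, zero_add, ← hj2] at hi1
        have := mul_le_mul_of_nonneg_left (hPT i) hs0.le
        linarith
    · have h1 := hJ (htJ' j₀ hj₀)
      have h2 := (Finset.mem_filter.1 (hsub h1)).2
      have h3 : y j₀ + s * g j₀ = 1 := h2
      rw [hgP, hPJ j₀ (htJ' j₀ hj₀), hyJ j₀ (htJ' j₀ hj₀)] at h3
      have h4 : 0 < t j₀ := lt_of_le_of_ne (ht0 j₀) (Ne.symm hj₀)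
      have := mul_pos hs0 h4
      linarith
  exact absurd (hmin y' hgood) (not_le.2 hlt)


/-- For every sequence of objectives some `y` is optimal infinitely often. -/
theorem exists_goodY_gen {G : Finset (Fin n →₀ ℕ)} (hG : ∀ j, ∃ v ∈ G, v j ≠ 0)
    (L : ℕ → Fin n → ℚ) : ∃ y, y ∈ Ys G ∧ {k : ℕ | 0 < k ∧ Mx G (L k) y}.Infinite := by
  classical
  have hex : ∀ k : ℕ, ∃ y, Mx G (L k) y := by
    intro k
    obtain ⟨y, lam, h1, h2, h3, h4⟩ := lp_dual G hG (L k)
    exact ⟨y, mx_of_dual h1 h2 h3 h4⟩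
  choose Y hY using hex
  let φ : ℕ → Finset (Fin n) × {T : Finset (Fin n →₀ ℕ) // T ∈ G.powerset} := fun k =>
    (Finset.univ.filter fun j => 0 < Y k j,
      ⟨G.filter fun v => qd (Y k) v = 1, Finset.mem_powerset.2 (Finset.filter_subset _ _)⟩)
  obtain ⟨b, hb⟩ := Finite.exists_infinite_fiber φ
  have hinf : (φ ⁻¹' {b}).Infinite := Set.infinite_coe_iff.1 hb
  obtain ⟨k₀, hk₀⟩ := hinf.nonempty
  refine ⟨Y k₀, (hY k₀).1, ?_⟩
  refine (hinf.sdiff (Set.finite_singleton 0)).mono fun k hk => ?_
  obtain ⟨hk1, hk2⟩ := hk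
  have hk0 : k ≠ 0 := fun h => hk2 (by rw [h]; rfl)
  refine ⟨Nat.pos_of_ne_zero hk0, ?_⟩
  have heq : φ k = φ k₀ := by
    have h1 : φ k = b := hk1
    have h2 : φ k₀ = b := hk₀
    rw [h1, h2]
  have e1 := congrArg Prod.fst heq
  have e2 := congrArg (fun x => x.2.1) heq
  simp only [φ] at e1 e2
  refine mx_of_supp hG (hY k) (hY k₀).1 (fun j hj => ?_) fun v hv hqv => ?_
  · have h1 : j ∈ Finset.univ.filter fun j => 0 < Y k j := by
      rw [e1]
      exact Finset.mem_filter.2 ⟨Finset.mem_univ _, hj⟩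
    exact (Finset.mem_filter.1 h1).2
  · have h1 : v ∈ G.filter fun v => qd (Y k₀) v = 1 := by
      rw [← e2]
      exact Finset.mem_filter.2 ⟨hv, hqv⟩
    exact (Finset.mem_filter.1 h1).2

end MPb07157F
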