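import Pool.Agent.Lib.MP_b07157_agN.LatB
import Pool.Agent.Lib.MP_b07157_agN.D1

/-!
# The functional equation on the lattice, without truncation, twisted by `h ^ t`
-/

noncomputable section

namespace MPb07157T

open Finset Matrix MvPolynomial MPb07157

variable {n : ℕ}

/-- A function on the lattice of `f` as a function on the lattice of `f + x₀ h` supported on
`x₀`-exponent zero. -/
def ins (g : (Fin (n + 1) → ℤ) → ℂ) (m : Fin (n + 2) → ℤ) : ℂ :=
  if m 1 = 0 then g (Fin.cons (m 0) (fun j => m j.succ.succ)) else 0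

/-! ### Exterior algebra -/

private theorem la2_con {r : ℕ} (v ξ : Fin r → ℂ) (a : ℂ) :
    con v (gi ξ * algebraMap ℂ (Lam ℂ r) a) = algebraMap ℂ (Lam ℂ r) ((v ⬝ᵥ ξ) * a) := by
  unfold con gi
  have h := CliffordAlgebra.contractLeft_ι_mul (Q := (0 : QuadraticForm ℂ (Fin r → ℂ)))
    (dualv v) ξ (algebraMap ℂ (Lam ℂ r) a)
  have h2 := CliffordAlgebra.contractLeft_algebraMap (Q := (0 : QuadraticForm ℂ (Fin r → ℂ)))
    (dualv v) a
  refine Eq.trans h ?_
  rw [h2, mul_zero, sub_zero, map_mul]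
  rw [Algebra.smul_def]
  rfl

private theorem la2_fil {r : ℕ} (ξ : Fin r → ℂ) (x : Lam ℂ r) : gi ξ * x ∈ Fil ℂ r 1 := by
  unfold Fil
  rw [pow_one]
  exact Submodule.mul_mem_mul ⟨ξ, rfl⟩ trivial

private theorem la2_self {r : ℕ} (ξ : Fin r → ℂ) (x : Lam ℂ r) : gi ξ * (gi ξ * x) = 0 := by
  rw [← mul_assoc]
  unfold gi
  rw [ExteriorAlgebra.ι_sq_zero, zero_mul]

private theorem la2_dot {r : ℕ} (v : Fin r → ℂ) (j : Fin r) : v ⬝ᵥ vec ℂ (ee j) = v j := by
  have h : vec ℂ (ee j) = Pi.single j 1 := by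
    funext i
    unfold vec ee
    by_cases hi : i = j
    · subst hi; simp
    · simp [Pi.single_eq_of_ne hi]
  rw [h, dotProduct_single, mul_one]

/-! ### Solvable functions -/

/-- The cochain with the only component `G` in the direction `x_i`. -/
private def Wn (i : Fin n) (G : (Fin (n + 2) → ℤ) → ℂ) : MFun ℂ (n + 1) := fun m =>
  gi (vec ℂ (ee i.succ)) * algebraMap ℂ (Lam ℂ (n + 1)) (G (m + he i.succ))

private theorem Wn_EEb (t : ℚ) (F : (Fin (n + 1) → ℤ) →₀ ℂ) (i : Fin n)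
    (G : (Fin (n + 2) → ℤ) → ℂ) (m : Fin (n + 2) → ℤ) :
    EEb (bv n t) F (Wn i G) m = algebraMap ℂ (Lam ℂ (n + 1))
      (((m i.succ.succ : ℂ) + 1) * G (m + he i.succ) +
        ∑ v ∈ F.support, F v * ((v i.succ : ℂ) * G (m + he i.succ - sh v))) := by
  unfold EEb Wn
  simp only [la2_con, la2_dot]
  rw [map_add, map_sum]
  refine congrArg₂ (· + ·) ?_ (Finset.sum_congr rfl fun v _ => ?_)
  · congr 2
    show ((m i.succ.succ : ℤ) : ℂ) + bv n t i.succ = _
    unfold bv bq
    rw [Fin.cons_succ]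
    simp
  · rw [Algebra.smul_def, ← map_mul]
    refine congrArg _ ?_
    have h : m - sh v + he i.succ = m + he i.succ - sh v := by abel
    rw [h]
    unfold vec
    ring

/-- Solvable functions. -/
private def Sol (f : MvPolynomial (Fin n) ℂ) (M : ℕ) (g : Fin n → ℂ) (t : ℚ)
    (G : (Fin (n + 2) → ℤ) → ℂ) : Prop :=
  ∃ W : MFun ℂ (n + 1), (Function.support W).Finite ∧ MDeg 1 W ∧
    (∀ m, W m ≠ 0 → ∀ j : Fin n, -1 ≤ m j.succ.succ) ∧
    (∀ m, ∀ j : Fin n, m j.succ.succ = -1 → gi (vec ℂ (ee j.succ)) * W m = 0) ∧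
    ∃ e : (Fin (n + 2) → ℤ) → ℂ,
      (∀ m, EEb (bv n t) (Cay (Fc f) M g) W m = algebraMap ℂ (Lam ℂ (n + 1)) (G m - e m)) ∧
      ∀ m, e m ≠ 0 → (∀ j : Fin n, 0 ≤ m j.succ.succ) ∧
        ∀ σ, Wt f σ → σ.2 ≤ hs (cw σ) ⬝ᵥ m

private theorem Sol.add {f : MvPolynomial (Fin n) ℂ} {M : ℕ} {g : Fin n → ℂ} {t : ℚ}
    {G G' : (Fin (n + 2) → ℤ) → ℂ} (h : Sol f M g t G) (h' : Sol f M g t G') :
    Sol f M g t fun m => G m + G' m := by
  obtain ⟨W, w1, w2, w3, w4, e, e1, e2⟩ := h
  obtain ⟨W', w1', w2', w3', w4', e', e1', e2'⟩ := h'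
  refine ⟨fun m => W m + W' m, (w1.union w1').subset (Function.support_add _ _), fun m =>
    Submodule.add_mem _ (w2 m) (w2' m), ?_, ?_, fun m => e m + e' m, ?_, ?_⟩
  · intro m hm
    by_cases h : W m = 0
    · refine w3' m fun h' => hm ?_
      show W m + W' m = 0
      rw [h, h', add_zero]
    · exact w3 m h
  · intro m j hj
    rw [mul_add, w4 m j hj, w4' m j hj, add_zero]
  · intro m
    have h1 := congrFun (EEb_add (bv n t) (Cay (Fc f) M g) W W') m
    have h2 : EEb (bv n t) (Cay (Fc f) M g) (fun m => W m + W' m) m =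
        EEb (bv n t) (Cay (Fc f) M g) W m + EEb (bv n t) (Cay (Fc f) M g) W' m := h1
    rw [h2, e1, e1', ← map_add]
    congr 1
    ring
  · intro m hm
    by_cases h : e m = 0
    · refine e2' m fun h' => hm ?_
      show e m + e' m = 0
      rw [h, h', add_zero]
    · exact e2 m h

private theorem Sol.neg {f : MvPolynomial (Fin n) ℂ} {M : ℕ} {g : Fin n → ℂ} {t : ℚ}
    {G : (Fin (n + 2) → ℤ) → ℂ} (h : Sol f M g t G) : Sol f M g t fun m => -G m := by
  obtain ⟨W, w1, w2, w3, w4, e, e1, e2⟩ := h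
  refine ⟨fun m => -W m, by
      rw [show (fun m => -W m) = -W from rfl, Function.support_neg]
      exact w1, fun m => Submodule.neg_mem _ (w2 m), ?_, ?_, fun m => -e m, ?_, ?_⟩
  · intro m hm
    exact w3 m fun h => hm (by show -W m = 0; rw [h, neg_zero])
  · intro m j hj
    rw [mul_neg, w4 m j hj, neg_zero]
  · intro m
    have h2 : EEb (bv n t) (Cay (Fc f) M g) (fun m => -W m) m =
        -EEb (bv n t) (Cay (Fc f) M g) W m := by
      unfold EEb
      simp only [map_neg, smul_neg, Finset.sum_neg_distrib]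
      rw [neg_add]
    rw [h2, e1, ← map_neg]
    congr 1
    ring
  · intro m hm
    exact e2 m fun h => hm (by show -e m = 0; rw [h, neg_zero])

private theorem Sol.congr {f : MvPolynomial (Fin n) ℂ} {M : ℕ} {g : Fin n → ℂ} {t : ℚ}
    {G G' : (Fin (n + 2) → ℤ) → ℂ} (h : Sol f M g t G) (h' : ∀ m, G m = G' m) :
    Sol f M g t G' := by
  have : G = G' := funext h'
  rwa [← this]

private theorem he_apply (i l : Fin n) : (he i.succ : Fin (n + 2) → ℤ) l.succ.succ = ee i l := by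
  show (ee i.succ : Fin (n + 1) → ℤ) l.succ = ee i l
  unfold ee
  by_cases h : l = i
  · subst h
    rw [Pi.single_eq_same, Pi.single_eq_same]
  · rw [Pi.single_eq_of_ne h, Pi.single_eq_of_ne (fun h' => h (Fin.succ_injective _ h'))]

/-- `∇_i (φ y₀^j)` is solvable. -/
private theorem sol_nab (f : MvPolynomial (Fin n) ℂ) {M : ℕ} (hM : 1 ≤ M) (g : Fin n → ℂ) (t : ℚ)
    (j : ℤ) {φ : PY n} (hφ : FinS φ) (i : Fin n) :
    Sol f M g t fun m => inj j (nab f i φ) m +
      inj (j + 1) (Polynomial.C ((hd M g i : MvPolynomial (Fin n) ℂ) :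
        MvPowerSeries (Fin n) ℂ) * φ) m := by
  classical
  have hneg : ∀ (m : Fin (n + 2) → ℤ) (l : Fin n), m l.succ.succ < 0 → inj j φ m = 0 := by
    intro m l hl
    unfold inj
    split_ifs
    · exact lb_cf_neg φ _ l.succ hl
    · rfl
  refine ⟨Wn i (inj j φ), ?_, fun m => la2_fil _ _, ?_, ?_, fun _ => 0, ?_, ?_⟩
  · refine ((inj_finite hφ j).image fun m => m - he i.succ).subset ?_
    intro m hm
    refine ⟨m + he i.succ, ?_, by simp⟩
    intro h
    refine hm ?_
    unfold Wn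
    rw [h, map_zero, mul_zero]
  · intro m hm l
    by_contra hc
    refine hm ?_
    unfold Wn
    rw [hneg _ l, map_zero, mul_zero]
    show m l.succ.succ + (he i.succ : Fin (n + 2) → ℤ) l.succ.succ < 0
    rw [he_apply]
    have h1 : ee i l ≤ 1 := by
      unfold ee
      by_cases hl : l = i
      · subst hl; simp
      · rw [Pi.single_eq_of_ne hl]; norm_num
    omega
  · intro m l hl
    unfold Wn
    by_cases h : l = i
    · subst h
      exact la2_self _ _
    · rw [hneg _ l, map_zero, mul_zero, mul_zero]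
      show m l.succ.succ + (he i.succ : Fin (n + 2) → ℤ) l.succ.succ < 0
      rw [he_apply, hl]
      unfold ee
      rw [Pi.single_eq_of_ne h]
      norm_num
  · intro m
    rw [Wn_EEb, inj_nab f hM g j φ i m, sub_zero]
  · intro m hm
    exact absurd rfl hm

private theorem hs_cw (σ : (Fin n → ℤ) × ℤ) (m : Fin (n + 2) → ℤ) :
    hs (cw σ) ⬝ᵥ m = (σ.1 ⬝ᵥ fun l : Fin n => m l.succ.succ) - σ.2 * (m 0 - m 1) := by
  unfold hs cw dotProduct
  rw [Fin.sum_univ_succ, Fin.sum_univ_succ]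
  simp only [Fin.cons_zero, Fin.cons_succ]
  rw [show (Fin.succ 0 : Fin (n + 2)) = 1 from rfl]
  ring

private theorem sol_main {f : MvPolynomial (Fin n) ℂ} {M : ℕ} (hM : 1 ≤ M)
    (g : Fin n → ℂ) (t : ℚ) {φ : PY n} (h : TTp f φ) :
    ∀ (c : MvPolynomial (Fin n) ℂ) (j : ℕ), Sol f M g t
      (inj (j : ℤ) (Polynomial.C (c : MvPowerSeries (Fin n) ℂ) * φ)) := by
  induction h with
  | gen c0 i =>
    intro c j
    refine ⟨fun _ => 0, by
      rw [show (Function.support fun _ : Fin (n + 2) → ℤ => (0 : Lam ℂ (n + 1))) = ∅ from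
        Function.support_zero]
      exact Set.finite_empty, fun m => Submodule.zero_mem _, ?_, ?_,
      inj (j : ℤ) (Polynomial.C (c : MvPowerSeries (Fin n) ℂ) *
        (Polynomial.C (c0 : MvPowerSeries (Fin n) ℂ) *
          (Tht f)^[i] (Polynomial.C (f : MvPowerSeries (Fin n) ℂ)))), ?_, ?_⟩
    · intro m hm
      exact absurd rfl hm
    · intro m j _
      rw [mul_zero]
    · intro m
      rw [sub_self, map_zero]
      unfold EEb
      simp
    · intro m hm
      unfold inj at hm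
      split_ifs at hm with h1
      · refine ⟨fun l => ?_, fun σ hσ => ?_⟩
        · by_contra hc
          exact hm (lb_cf_neg _ _ l.succ (not_le.1 hc))
        · rw [← mul_assoc, ← map_mul] at hm
          have h2 := cf_gen_support f _ i hσ.2.1 hσ.2.2 _ hm
          rw [hs_cw, h1]
          have h3 : (lo (j : ℤ) m) 0 = m 0 - j := rfl
          have h4 : Fin.tail (lo (j : ℤ) m) = fun l : Fin n => m l.succ.succ := rfl
          rw [h3, h4] at h2
          have h5 : σ.2 * (m 0 - j + 1) = σ.2 * (m 0 - j) + σ.2 := by ring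
          linarith
      · exact absurd rfl hm
  | add _ _ ih1 ih2 =>
    intro c j
    refine ((ih1 c j).add (ih2 c j)).congr fun m => ?_
    rw [mul_add, inj_add]
  | @nab m i hm ih =>
    intro c j
    have hf := (hm.mulC c).finS
    have h1 := sol_nab f hM g t (j : ℤ) hf i
    have h2 := ih (hd M g i * c) (j + 1)
    have h3 := ih (-(pderiv i c)) j
    refine ((h1.add h2.neg).add h3).congr fun m' => ?_
    rw [la_nab_C, inj_add]
    have e : Polynomial.C ((hd M g i * c : MvPolynomial (Fin n) ℂ) :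
        MvPowerSeries (Fin n) ℂ) * m = Polynomial.C ((hd M g i : MvPolynomial (Fin n) ℂ) :
        MvPowerSeries (Fin n) ℂ) * (Polynomial.C (c : MvPowerSeries (Fin n) ℂ) * m) := by
      rw [← mul_assoc, ← map_mul, ← MvPolynomial.coe_mul]
    rw [e]
    push_cast
    ring

private theorem la2_cf_C (a : ℂ) (φ : PY n) :
    cf (Polynomial.C (MvPowerSeries.C (σ := Fin n) (R := ℂ) a) * φ) = fun m => a * cf φ m := by
  funext m
  unfold cf
  split_ifs with hm
  · rw [Polynomial.coeff_C_mul, MvPowerSeries.coeff_C_mul]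
  · rw [mul_zero]

private theorem la2_cf_sum {ι : Type*} (s : Finset ι) (g : ι → PY n) (m : Fin (n + 1) → ℤ) :
    cf (∑ i ∈ s, g i) m = ∑ i ∈ s, cf (g i) m := by
  have h := map_sum (AddMonoidHom.mk' (cf (n := n)) cf_add) g s
  have h2 := congrFun h m
  rw [Finset.sum_apply] at h2
  exact h2

private theorem la2_cf_iter (f : MvPolynomial (Fin n) ℂ) (i : ℕ) (φ : PY n) :
    cf ((Tht f)^[i] φ) = (thL (Fc f))^[i] (cf φ) := by
  induction i generalizing φ with
  | zero => rfl
  | succ i ih => rw [Function.iterate_succ_apply, Function.iterate_succ_apply, ih, cf_tht]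

private theorem la2_hs_sub (σ : (Fin n → ℤ) × ℤ) (m : Fin (n + 1) → ℤ) (v : Fin n → ℤ) :
    hs σ ⬝ᵥ (m - sh v) = hs σ ⬝ᵥ m - (σ.1 ⬝ᵥ v - σ.2) := by
  rw [dotProduct_sub]
  have h : hs σ ⬝ᵥ sh v = σ.1 ⬝ᵥ v - σ.2 := by
    unfold hs sh dotProduct
    rw [Fin.sum_univ_succ]
    simp only [Fin.cons_zero, Fin.cons_succ]
    ring
  rw [h]

private theorem la2_supp {F : (Fin n → ℤ) →₀ ℂ} (hF : ∀ v ∈ F.support, ∀ j, 0 ≤ v j) (i : ℕ) :
    ∀ m : Fin (n + 1) → ℤ, (thL F)^[i] (Pi.single 0 1) m ≠ 0 →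
      (∀ j : Fin n, 0 ≤ m j.succ) ∧
      ∀ σ : (Fin n → ℤ) × ℤ, (∀ v ∈ F.support, σ.2 ≤ σ.1 ⬝ᵥ v) → 0 ≤ hs σ ⬝ᵥ m := by
  induction i with
  | zero =>
    intro m hm
    rw [Function.iterate_zero, id] at hm
    have h0 : m = 0 := by
      by_contra hc
      exact hm (Pi.single_eq_of_ne hc _)
    subst h0
    refine ⟨fun j => le_refl _, fun σ _ => ?_⟩
    rw [dotProduct_zero]
  | succ i ih =>
    intro m hm
    rw [Function.iterate_succ_apply'] at hm
    unfold thL at hm
    by_cases hg : (thL F)^[i] (Pi.single 0 1) m = 0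
    · unfold thL at hg
      rw [hg, mul_zero, zero_add] at hm
      obtain ⟨v, hv, hv2⟩ := Finset.exists_ne_zero_of_sum_ne_zero hm
      have h1 : (thL F)^[i] (Pi.single 0 1) (m - sh v) ≠ 0 := by
        intro h2
        apply hv2
        unfold thL at h2
        rw [h2, mul_zero]
      obtain ⟨ha, hc⟩ := ih _ h1
      refine ⟨fun j => ?_, fun σ hσ => ?_⟩
      · have := ha j
        have h3 := hF v hv j
        simp only [Pi.sub_apply, sh, Fin.cons_succ] at this
        omega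
      · have h3 := hc σ hσ
        rw [la2_hs_sub] at h3
        have h4 := hσ v hv
        omega
    · exact ih m hg

private theorem la2_nonneg (f : MvPolynomial (Fin n) ℂ) : ∀ v ∈ (Fc f).support, ∀ j, 0 ≤ v j := by
  classical
  intro v hv j
  unfold Fc at hv
  rw [Finsupp.mem_support_iff, Finsupp.finsetSum_apply] at hv
  obtain ⟨u, _, hu⟩ := Finset.exists_ne_zero_of_sum_ne_zero hv
  rw [Finsupp.single_apply] at hu
  split_ifs at hu with h
  · rw [← h]
    exact Int.natCast_nonneg _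
  · exact absurd rfl hu

/-- The lattice form of `b(s) f^s = P f^{s+1}`, multiplied by `h^t`.

Proof.  (1) `TTp` = as `TT` (`F0.lean`), with polynomial `c`; stable under multiplication with
polynomials and `Θ` (`F1.lean`); `exists_TTp`: if `InDn f k g` then there is `m`, `TTp f m`, with
`ph f K m = g f^(K+1-k)` (as `F3.exists_TT`), so by `ph_injective`
`∑ b_i Θ^i 1` is in `TTp f`.
(2) Call a finitely supported scalar function `G` on the lattice solvable if `G = EEb W + e` with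
`W` as in the statement (finite support, degree one, filled, support in `m 0 ≥ 0`, `b_j ≥ -1`) and
`e` finitely supported on `{m 0 ≥ 0, b_j ≥ 0, hs (cw σ)·m ≥ σ.2 for all Wt f σ}`.  Claim: for
`TTp f m`, every polynomial `c` and every `j`, the function
`cj (c m) j : m' ↦ if m' 1 = j then cf (c m) (m' 0 - j, b) else 0` (the element `c m y₀^j`) is
solvable.  Generators `c Θ^i f`: `e = ` the function itself (`cf_gen_support` of `F5.lean`; only
`m' 1 = j ≥ 0` is different, `hs (cw σ)·m' = w·b - N (m' 0 - j)`).  Sums: clear.  `∇_i m`: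
`c ∇_i m = ∇_i (c m) - (∂_i c) m`, and
`(∇_i (c m)) y₀^j = ∇'_i (c m y₀^j) - (h_i c m) y₀^(j+1)`, where `h_i = M γ_i x_i^(M-1)` and
`∇'_i G = EEb W` for `W m' = gi (ee i.succ) * G (m' + he i.succ)` (`cf_nab`). -/
theorem exists_latticeC {f : MvPolynomial (Fin n) ℂ} (hf : f ≠ 0) {M : ℕ} (hM : 1 ≤ M)
    (g : Fin n → ℂ) {b : Polynomial ℂ} (hb : IsBernsteinSato f b) (t : ℚ) :
    ∃ W : MFun ℂ (n + 1), (Function.support W).Finite ∧ MDeg 1 W ∧
      (∀ m, W m ≠ 0 → ∀ j : Fin n, -1 ≤ m j.succ.succ) ∧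
      (∀ m, ∀ j : Fin n, m j.succ.succ = -1 → gi (vec ℂ (ee j.succ)) * W m = 0) ∧
      (∀ m, EEb (bv n t) (Cay (Fc f) M g) W m ≠ 0 → (∀ j : Fin n, 0 ≤ m j.succ.succ) ∧
        ∀ σ, Wt f σ → 0 ≤ hs (cw σ) ⬝ᵥ m) ∧
      ∀ σ, Wt f σ → ∀ m, hs (cw σ) ⬝ᵥ m = 0 → EEb (bv n t) (Cay (Fc f) M g) W m =
        algebraMap ℂ _ (ins (fun m' => ∑ i ∈ range (b.natDegree + 1),
          b.coeff i * (thL (Fc f))^[i] (Pi.single 0 1) m') m) := by
  classical
  set L : PY n := ∑ i ∈ range (b.natDegree + 1), Polynomial.C (MvPowerSeries.C (b.coeff i)) *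
    (Tht f)^[i] (1 : PY n) with hL
  have hT : TTp f L := functional_eq_p hf hb
  have hcf : cf L = fun m' => ∑ i ∈ range (b.natDegree + 1),
      b.coeff i * (thL (Fc f))^[i] (Pi.single 0 1) m' := by
    funext m'
    rw [hL, la2_cf_sum]
    refine Finset.sum_congr rfl fun i _ => ?_
    rw [la2_cf_C, la2_cf_iter, cf_one]
  rw [← hcf]
  have hins : ∀ m, inj ((0 : ℕ) : ℤ) L m = ins (cf L) m := by
    intro m
    unfold inj ins
    rw [Nat.cast_zero]
    split_ifs
    · congr 1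
      unfold lo
      rw [sub_zero]
    · rfl
  obtain ⟨W, w1, w2, w3, w4, e, e1, e2⟩ := sol_main (g := g) hM t hT 1 0
  rw [MvPolynomial.coe_one, map_one, one_mul] at e1
  have hpos : ∀ m, ins (cf L) m ≠ 0 → (∀ j : Fin n, 0 ≤ m j.succ.succ) ∧
      ∀ σ, Wt f σ → 0 ≤ hs (cw σ) ⬝ᵥ m := by
    intro m hm
    unfold ins at hm
    split_ifs at hm with h1
    · rw [hcf] at hm
      obtain ⟨i, _, hi⟩ := Finset.exists_ne_zero_of_sum_ne_zero hm
      obtain ⟨h2, h3⟩ := la2_supp (la2_nonneg f) i _ (right_ne_zero_of_mul hi)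
      refine ⟨fun j => h2 j, fun σ hσ => ?_⟩
      have h4 := h3 σ hσ.2.2
      rw [hs_cw, h1, sub_zero]
      unfold hs dotProduct at h4
      rw [Fin.sum_univ_succ] at h4
      simp only [Fin.cons_zero, Fin.cons_succ] at h4
      unfold dotProduct
      linarith
    · exact absurd rfl hm
  refine ⟨W, w1, w2, w3, w4, ?_, ?_⟩
  · intro m hm
    rw [e1] at hm
    by_cases h : e m = 0
    · refine hpos m fun h' => hm ?_
      rw [hins, h', h, sub_zero, map_zero]
    · obtain ⟨h1, h2⟩ := e2 m h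
      exact ⟨h1, fun σ hσ => hσ.1.le.trans (h2 σ hσ)⟩
  · intro σ hσ m hm
    rw [e1, hins]
    congr 1
    have h : e m = 0 := by
      by_contra h
      have h1 := (e2 m h).2 σ hσ
      have h2 := hσ.1
      omega
    rw [h, sub_zero]

end MPb07157T
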