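import Pool.Agent.Lib.MP_b07157_agT.F2

/-!
# The module `ℂ[x][s] f^{s+1}` in `ℂ[[x]][y]`
-/

noncomputable section

namespace MPb07157T

open Finset Matrix MvPolynomial MPb07157

variable {n : ℕ}

/-- The submodule `D[s] f^{s+1}` of `ℂ[[x]][y]`: as `TT`, with polynomial coefficients. -/
inductive TTp (f : MvPolynomial (Fin n) ℂ) : PY n → Prop
  | gen (c : MvPolynomial (Fin n) ℂ) (i : ℕ) :
      TTp f (Polynomial.C (c : MvPowerSeries (Fin n) ℂ) *
        (Tht f)^[i] (Polynomial.C (f : MvPowerSeries (Fin n) ℂ)))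
  | add {m m' : PY n} : TTp f m → TTp f m' → TTp f (m + m')
  | nab {m : PY n} (i : Fin n) : TTp f m → TTp f (nab f i m)

/-- `c ∇_i m = ∇_i (c m) - (∂_i c) m`. -/
theorem la_nab_C (f : MvPolynomial (Fin n) ℂ) (i : Fin n) (c : MvPolynomial (Fin n) ℂ)
    (m : PY n) : Polynomial.C (c : MvPowerSeries (Fin n) ℂ) * nab f i m =
      nab f i (Polynomial.C (c : MvPowerSeries (Fin n) ℂ) * m) +
        Polynomial.C ((-(pderiv i c) : MvPolynomial (Fin n) ℂ) : MvPowerSeries (Fin n) ℂ) * m := by
  have h : ((-(pderiv i c) : MvPolynomial (Fin n) ℂ) : MvPowerSeries (Fin n) ℂ) =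
      -((pderiv i c : MvPolynomial (Fin n) ℂ) : MvPowerSeries (Fin n) ℂ) := by
    rw [← MvPolynomial.coeToMvPowerSeries.ringHom_apply, map_neg]
    rfl
  unfold nab
  rw [derivC_mul, derivC_C, MvPowerSeries.pderiv_coe, h, map_neg]
  ring

/-- `TTp` is stable under multiplication by polynomials. -/
theorem TTp.mulC {f : MvPolynomial (Fin n) ℂ} {m : PY n} (h : TTp f m)
    (c : MvPolynomial (Fin n) ℂ) :
    TTp f (Polynomial.C (c : MvPowerSeries (Fin n) ℂ) * m) := by
  induction h generalizing c with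
  | gen c0 i =>
    rw [← mul_assoc, ← map_mul, ← MvPolynomial.coe_mul]
    exact TTp.gen _ _
  | add _ _ ih1 ih2 =>
    rw [mul_add]
    exact (ih1 c).add (ih2 c)
  | nab i _ ih =>
    rw [la_nab_C]
    exact ((ih c).nab i).add (ih _)

private theorem la_tht_C (f : MvPolynomial (Fin n) ℂ) (c : MvPowerSeries (Fin n) ℂ)
    (m : PY n) : Tht f (Polynomial.C c * m) = Polynomial.C c * Tht f m := by
  unfold Tht
  rw [Polynomial.derivative_C_mul]
  ring

private theorem la_tht_add (f : MvPolynomial (Fin n) ℂ) (m m' : PY n) :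
    Tht f (m + m') = Tht f m + Tht f m' := by
  unfold Tht
  rw [map_add]
  ring

private theorem la_deriv_comm (i : Fin n) (m : PY n) :
    Polynomial.derivative (derivC i m) = derivC i (Polynomial.derivative m) := by
  refine Polynomial.ext fun j => ?_
  rw [Polynomial.coeff_derivative, coeff_derivC, coeff_derivC, Polynomial.coeff_derivative,
    Derivation.leibniz]
  have h : MvPowerSeries.pderiv ℂ i ((j : MvPowerSeries (Fin n) ℂ) + 1) = 0 := by
    rw [map_add, Derivation.map_natCast, Derivation.map_one_eq_zero, add_zero]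
  rw [h, smul_zero, zero_add, smul_eq_mul, mul_comm]

private theorem la_derivC_X (i : Fin n) : derivC i (Polynomial.X : PY n) = 0 := by
  refine Polynomial.ext fun j => ?_
  rw [coeff_derivC, Polynomial.coeff_X, Polynomial.coeff_zero]
  split_ifs
  · exact Derivation.map_one_eq_zero _
  · exact map_zero _

private theorem la_tht_nab (f : MvPolynomial (Fin n) ℂ) (i : Fin n) (m : PY n) :
    Tht f (nab f i m) = nab f i (Tht f m) := by
  unfold Tht nab
  rw [map_add, la_deriv_comm, derivC_add, derivC_mul, derivC_mul, derivC_mul, la_derivC_X,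
    derivC_C, MvPowerSeries.pderiv_coe, Polynomial.derivative_mul, Polynomial.derivative_mul,
    Polynomial.derivative_C, Polynomial.derivative_X]
  ring

/-- `TTp` is stable under `Θ`. -/
theorem TTp.tht {f : MvPolynomial (Fin n) ℂ} {m : PY n} (h : TTp f m) : TTp f (Tht f m) := by
  induction h with
  | gen c i =>
    rw [la_tht_C, ← Function.iterate_succ_apply' (Tht f) i]
    exact TTp.gen _ _
  | add _ _ ih1 ih2 =>
    rw [la_tht_add]
    exact ih1.add ih2
  | nab i _ ih =>
    rw [la_tht_nab]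
    exact ih.nab i

private theorem la_TT_zero (f : MvPolynomial (Fin n) ℂ) : TTp f (0 : PY n) := by
  have := TTp.gen (f := f) (0 : MvPolynomial (Fin n) ℂ) 0
  simpa using this

private theorem la_TT_sum {f : MvPolynomial (Fin n) ℂ} {ι : Type} (s : Finset ι) (g : ι → PY n)
    (h : ∀ i ∈ s, TTp f (g i)) : TTp f (∑ i ∈ s, g i) := by
  classical
  induction s using Finset.induction_on with
  | empty => simpa using la_TT_zero f
  | insert a s ha ih =>
    rw [Finset.sum_insert ha]
    exact TTp.add (h a (Finset.mem_insert_self a s))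
      (ih fun i hi => h i (Finset.mem_insert_of_mem hi))

private theorem la_TT_iter {f : MvPolynomial (Fin n) ℂ} {m : PY n} (h : TTp f m) (i : ℕ) :
    TTp f ((Tht f)^[i] m) := by
  induction i with
  | zero => simpa using h
  | succ i ih =>
    rw [Function.iterate_succ_apply']
    exact TTp.tht ih

private theorem la_ph_range (f : MvPolynomial (Fin n) ℂ) (K N : ℕ) (m : PY n)
    (hN : m.natDegree < N) :
    ph f K m = ∑ j ∈ range N, (descPochhammer (MvPowerSeries (Fin n) ℂ) j) * Polynomial.C
      (m.coeff j * (f : MvPowerSeries (Fin n) ℂ) ^ (K - j)) := by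
  unfold ph
  refine Polynomial.sum_over_range' m ?_ N hN
  intro j
  simp

private theorem la_ph_add (f : MvPolynomial (Fin n) ℂ) (K : ℕ) (m m' : PY n) :
    ph f K (m + m') = ph f K m + ph f K m' := by
  unfold ph
  refine Polynomial.sum_add_index m m' _ ?_ ?_
  · intro j
    simp
  · intro j a b
    rw [add_mul, map_add, mul_add]

private theorem la_ph_zero (f : MvPolynomial (Fin n) ℂ) (K : ℕ) : ph f K (0 : PY n) = 0 := by
  unfold ph
  exact Polynomial.sum_zero_index _

private theorem la_ph_sum (f : MvPolynomial (Fin n) ℂ) (K : ℕ) {ι : Type} (s : Finset ι)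
    (g : ι → PY n) : ph f K (∑ i ∈ s, g i) = ∑ i ∈ s, ph f K (g i) := by
  classical
  induction s using Finset.induction_on with
  | empty => simpa using la_ph_zero f K
  | insert a s ha ih => rw [Finset.sum_insert ha, Finset.sum_insert ha, la_ph_add, ih]

private theorem la_ph_C_mul (f : MvPolynomial (Fin n) ℂ) (K : ℕ) (c : MvPowerSeries (Fin n) ℂ)
    (m : PY n) : ph f K (Polynomial.C c * m) = Polynomial.C c * ph f K m := by
  have h1 : (Polynomial.C c * m).natDegree < m.natDegree + 1 :=
    lt_of_le_of_lt (Polynomial.natDegree_C_mul_le c m) (Nat.lt_succ_self _)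
  rw [la_ph_range f K (m.natDegree + 1) _ h1,
    la_ph_range f K (m.natDegree + 1) m (Nat.lt_succ_self _), Finset.mul_sum]
  refine Finset.sum_congr rfl fun j _ => ?_
  rw [Polynomial.coeff_C_mul, mul_assoc c, map_mul]
  ring

private theorem la_ph_succ (f : MvPolynomial (Fin n) ℂ) (K : ℕ) (m : PY n)
    (hm : m.natDegree ≤ K) :
    ph f (K + 1) m = Polynomial.C (f : MvPowerSeries (Fin n) ℂ) * ph f K m := by
  rw [la_ph_range f (K + 1) (K + 1) m (Nat.lt_succ_of_le hm),
    la_ph_range f K (K + 1) m (Nat.lt_succ_of_le hm), Finset.mul_sum]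
  refine Finset.sum_congr rfl fun j hj => ?_
  have hj' : j ≤ K := Nat.lt_succ_iff.1 (Finset.mem_range.1 hj)
  rw [Nat.succ_sub hj', pow_succ, ← mul_assoc, map_mul _ (m.coeff j * _)]
  ring

private theorem la_ph_raise (f : MvPolynomial (Fin n) ℂ) (K j : ℕ) (m : PY n)
    (hm : m.natDegree ≤ K) :
    ph f (K + j) m = Polynomial.C (f : MvPowerSeries (Fin n) ℂ) ^ j * ph f K m := by
  induction j with
  | zero => simp
  | succ j ih =>
    rw [← add_assoc, la_ph_succ f (K + j) m (by omega), ih, pow_succ]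
    ring

private theorem la_deg_tht (f : MvPolynomial (Fin n) ℂ) (m : PY n) :
    (Tht f m).natDegree ≤ m.natDegree + 1 := by
  unfold Tht
  refine Polynomial.natDegree_add_le_of_degree_le ?_ ?_
  · refine le_trans Polynomial.natDegree_mul_le ?_
    have h1 : (Polynomial.X : PY n).natDegree ≤ 1 := Polynomial.natDegree_X_le
    have h2 := Polynomial.natDegree_derivative_le m
    omega
  · refine le_trans Polynomial.natDegree_mul_le ?_
    have h1 : (Polynomial.X * Polynomial.C (f : MvPowerSeries (Fin n) ℂ) : PY n).natDegree ≤ 1 :=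
      le_trans Polynomial.natDegree_mul_le
        (by rw [Polynomial.natDegree_C, add_zero]; exact Polynomial.natDegree_X_le)
    omega

private theorem la_deg_tht_iter (f : MvPolynomial (Fin n) ℂ) (m : PY n) (i : ℕ) :
    ((Tht f)^[i] m).natDegree ≤ m.natDegree + i := by
  induction i with
  | zero => simp
  | succ i ih =>
    rw [Function.iterate_succ_apply']
    have := la_deg_tht f ((Tht f)^[i] m)
    omega

private theorem la_ph_tht_iter (f : MvPolynomial (Fin n) ℂ) (K : ℕ) (m : PY n)
    (hm : m.natDegree ≤ K) (i : ℕ) :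
    ph f (K + i) ((Tht f)^[i] m) =
      Polynomial.C (f : MvPowerSeries (Fin n) ℂ) ^ i * Polynomial.X ^ i * ph f K m := by
  induction i with
  | zero => simp
  | succ i ih =>
    rw [Function.iterate_succ_apply', ← add_assoc,
      ph_tht f (K + i) _ (le_trans (la_deg_tht_iter f m i) (by omega)), ih, pow_succ, pow_succ]
    ring

private theorem la_ph_comb (f : MvPolynomial (Fin n) ℂ) (K N : ℕ) (m : PY n)
    (hm : m.natDegree ≤ K) (c : ℕ → MvPowerSeries (Fin n) ℂ) :
    ph f (K + N) (∑ i ∈ range (N + 1), Polynomial.C (c i) * (Tht f)^[i] m) =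
      Polynomial.C (f : MvPowerSeries (Fin n) ℂ) ^ N *
        (∑ i ∈ range (N + 1), Polynomial.C (c i) * Polynomial.X ^ i) * ph f K m := by
  rw [la_ph_sum, Finset.mul_sum, Finset.sum_mul]
  refine Finset.sum_congr rfl fun i hi => ?_
  have hi' : i ≤ N := Nat.lt_succ_iff.1 (Finset.mem_range.1 hi)
  obtain ⟨j, rfl⟩ := Nat.exists_eq_add_of_le hi'
  have h1 : ((Tht f)^[i] m).natDegree ≤ K + i := le_trans (la_deg_tht_iter f m i) (by omega)
  rw [la_ph_C_mul, ← add_assoc, la_ph_raise f (K + i) j _ h1, la_ph_tht_iter f K m hm i, pow_add]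
  ring

private theorem la_deg_comb (f : MvPolynomial (Fin n) ℂ) (K N : ℕ) (m : PY n)
    (hm : m.natDegree ≤ K) (c : ℕ → MvPowerSeries (Fin n) ℂ) :
    (∑ i ∈ range (N + 1), Polynomial.C (c i) * (Tht f)^[i] m).natDegree ≤ K + N := by
  refine Polynomial.natDegree_sum_le_of_forall_le _ _ fun i hi => ?_
  have hi' : i ≤ N := Nat.lt_succ_iff.1 (Finset.mem_range.1 hi)
  refine le_trans (Polynomial.natDegree_C_mul_le _ _) ?_
  have := la_deg_tht_iter f m i
  omega

private theorem la_deg_nab (f : MvPolynomial (Fin n) ℂ) (i : Fin n) (m : PY n) (K : ℕ)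
    (hm : m.natDegree ≤ K) : (nab f i m).natDegree ≤ K + 1 := by
  unfold nab
  refine Polynomial.natDegree_add_le_of_degree_le ?_ ?_
  · rw [Polynomial.natDegree_le_iff_coeff_eq_zero]
    intro j hj
    rw [coeff_derivC, Polynomial.coeff_eq_zero_of_natDegree_lt (by omega), map_zero]
  · refine le_trans Polynomial.natDegree_mul_le ?_
    have h1 : (Polynomial.X * Polynomial.C ((pderiv i f : MvPolynomial (Fin n) ℂ) :
        MvPowerSeries (Fin n) ℂ) : PY n).natDegree ≤ 1 :=
      le_trans Polynomial.natDegree_mul_le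
        (by rw [Polynomial.natDegree_C, add_zero]; exact Polynomial.natDegree_X_le)
    omega

/-- The coefficient of `s^j`. -/
private def la_sC (j : ℕ) (G : MvPolynomial (Fin n) (Polynomial ℂ)) : MvPolynomial (Fin n) ℂ :=
  ∑ m ∈ G.support, monomial m ((coeff m G).coeff j)

private theorem la_coeff_sC (j : ℕ) (G : MvPolynomial (Fin n) (Polynomial ℂ)) (m : Fin n →₀ ℕ) :
    coeff m (la_sC j G) = (coeff m G).coeff j := by
  classical
  unfold la_sC
  rw [coeff_sum]
  simp only [coeff_monomial]
  rw [Finset.sum_ite_eq']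
  split_ifs with h
  · rfl
  · rw [notMem_support_iff.1 h, Polynomial.coeff_zero]

private theorem la_coe_sC (j : ℕ) (G : MvPolynomial (Fin n) (Polynomial ℂ)) :
    (la_sC j G : MvPowerSeries (Fin n) ℂ) = (toForm G).coeff j := by
  ext m
  rw [coeff_toForm, MvPolynomial.coeff_coe, la_coeff_sC]

/-- The invariant: if `g f^{s+1-k} ∈ D[s] f^{s+1}` then it comes from `TTp`. -/
theorem exists_TTp {f : MvPolynomial (Fin n) ℂ} (hf : f ≠ 0) {k : ℕ}
    {g : MvPolynomial (Fin n) (Polynomial ℂ)} (h : InDn f k g) :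
    ∃ m : PY n, TTp f m ∧ ∃ K : ℕ, m.natDegree ≤ K ∧ k ≤ K + 1 ∧
      ph f K m = toForm g * Polynomial.C (f : MvPowerSeries (Fin n) ℂ) ^ (K + 1 - k) := by
  induction h with
  | base =>
    refine ⟨Polynomial.C (f : MvPowerSeries (Fin n) ℂ), ?_, 0, ?_, ?_, ?_⟩
    · have := TTp.gen (f := f) (1 : MvPolynomial (Fin n) ℂ) 0
      simpa using this
    · rw [Polynomial.natDegree_C]
    · omega
    · rw [map_one, la_ph_range f 0 1 _ (by rw [Polynomial.natDegree_C]; omega)]
      simp
  | @add k g h _ _ ih1 ih2 =>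
    obtain ⟨m1, t1, K1, d1, k1, e1⟩ := ih1
    obtain ⟨m2, t2, K2, d2, k2, e2⟩ := ih2
    rw [map_add]
    generalize toForm g = g at *
    generalize toForm h = h at *
    refine ⟨m1 + m2, t1.add t2, K1 + K2, ?_, ?_, ?_⟩
    · refine Polynomial.natDegree_add_le_of_degree_le ?_ ?_ <;> omega
    · omega
    · rw [la_ph_add, la_ph_raise f K1 K2 m1 d1, add_comm K1 K2, la_ph_raise f K2 K1 m2 d2, e1, e2]
      obtain ⟨u, hu⟩ := Nat.exists_eq_add_of_le k1
      obtain ⟨v, hv⟩ := Nat.exists_eq_add_of_le k2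
      have h1 : K1 + 1 - k = u := by omega
      have h2 : K2 + 1 - k = v := by omega
      have h3 : K2 + K1 + 1 - k = K2 + u := by omega
      have h4 : K2 + u = K1 + v := by omega
      have h5 : Polynomial.C (f : MvPowerSeries (Fin n) ℂ) ^ (K2 + u) =
          Polynomial.C (f : MvPowerSeries (Fin n) ℂ) ^ (K1 + v) := by rw [h4]
      rw [h1, h2, h3, add_mul, h5, ← h5]
      rw [show h * Polynomial.C (f : MvPowerSeries (Fin n) ℂ) ^ (K2 + u) =
        h * Polynomial.C (f : MvPowerSeries (Fin n) ℂ) ^ (K1 + v) by rw [h5], pow_add, pow_add]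
      ring
  | @mul k g c _ ih =>
    obtain ⟨m, t, K, d, kk, e⟩ := ih
    rw [map_mul]
    generalize toForm g = g at *
    have hco : ∀ i, (toForm c).coeff i = (la_sC i c : MvPowerSeries (Fin n) ℂ) := fun i =>
      (la_coe_sC i c).symm
    generalize toForm c = c at *
    refine ⟨∑ i ∈ range (c.natDegree + 1), Polynomial.C (c.coeff i) * (Tht f)^[i] m, ?_,
      K + c.natDegree, la_deg_comb f K c.natDegree m d c.coeff, ?_, ?_⟩
    · exact la_TT_sum _ _ fun i _ => by
        rw [hco]
        exact (la_TT_iter t i).mulC _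
    · omega
    · rw [la_ph_comb f K c.natDegree m d c.coeff, ← Polynomial.as_sum_range_C_mul_X_pow c, e]
      have h1 : K + c.natDegree + 1 - k = c.natDegree + (K + 1 - k) := by omega
      rw [h1, pow_add]
      ring
  | @deriv k g i _ ih =>
    obtain ⟨m, t, K, d, kk, e⟩ := ih
    refine ⟨nab f i m, TTp.nab i t, K + 1, la_deg_nab f i m K d, ?_, ?_⟩
    · omega
    · rw [ph_nab f i K m d, e]
      rw [map_add, map_mul, map_mul, map_mul, toForm_liftS, toForm_liftS, toForm_pderiv, toForm_C]
      simp only [Polynomial.map_sub, Polynomial.map_add, Polynomial.map_X, Polynomial.map_one,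
        Polynomial.map_natCast]
      generalize toForm g = g at *
      obtain ⟨u, hu⟩ := Nat.exists_eq_add_of_le kk
      have h1 : K + 1 - k = u := by omega
      have h2 : K + 1 + 1 - (k + 1) = u := by omega
      rw [h1, h2, derivC_mul, ← Polynomial.C_pow, derivC_C, MvPowerSeries.pderiv_pow,
        MvPowerSeries.pderiv_coe]
      have h3 : (K : PY n) = (k : PY n) + (u : PY n) - 1 := by
        have : ((K + 1 : ℕ) : PY n) = ((k + u : ℕ) : PY n) := by rw [hu]
        push_cast at this
        rw [← this]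
        ring
      rcases u with _ | u
      · rw [h3]
        simp only [pow_zero, map_one, Nat.cast_zero, zero_mul, map_zero, mul_zero, mul_one,
          add_zero]
        ring
      · rw [Nat.add_sub_cancel, h3]
        simp only [map_mul, map_pow, Nat.cast_add, Nat.cast_one, map_add, map_one, map_natCast]
        ring
  | @raise k g _ ih =>
    obtain ⟨m, t, K, d, kk, e⟩ := ih
    refine ⟨m, t, K + 1, by omega, by omega, ?_⟩
    rw [la_ph_succ f K m d, e, map_mul, toForm_liftS]
    have h1 : K + 1 + 1 - (k + 1) = K + 1 - k := by omega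
    rw [h1]
    ring
  | @lower k g _ ih =>
    obtain ⟨m, t, K, d, kk, e⟩ := ih
    refine ⟨m, t, K, d, by omega, ?_⟩
    rw [e, map_mul, toForm_liftS]
    have h1 : K + 1 - k = (K + 1 - (k + 1)) + 1 := by omega
    rw [h1, pow_succ]
    ring

/-- The functional equation in the module. -/
theorem functional_eq_p {f : MvPolynomial (Fin n) ℂ} (hf : f ≠ 0) {b : Polynomial ℂ}
    (hb : IsBernsteinSato f b) :
    TTp f (∑ i ∈ range (b.natDegree + 1), Polynomial.C (MvPowerSeries.C (b.coeff i)) *
      (Tht f)^[i] (1 : PY n)) := by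
  obtain ⟨m, t, K, d, kk, e⟩ := exists_TTp hf hb
  rw [toForm_C] at e
  set L : PY n := ∑ i ∈ range (b.natDegree + 1), Polynomial.C (MvPowerSeries.C (b.coeff i)) *
        (Tht f)^[i] (1 : PY n) with hL
  have h1 : (1 : PY n).natDegree ≤ 0 := by simp
  have hLd : L.natDegree ≤ 0 + b.natDegree :=
    la_deg_comb f 0 b.natDegree 1 h1 fun i => MvPowerSeries.C (b.coeff i)
  have hLp := la_ph_comb f 0 b.natDegree 1 h1 fun i => MvPowerSeries.C (b.coeff i)
  rw [← hL] at hLp
  have h2 : ph f 0 (1 : PY n) = 1 := by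
    rw [la_ph_range f 0 1 _ (by simp)]
    simp
  have h3 : ∑ i ∈ range (b.natDegree + 1), Polynomial.C (MvPowerSeries.C (b.coeff i)) *
      Polynomial.X ^ i = b.map (MvPowerSeries.C (σ := Fin n) (R := ℂ)) := by
    conv_rhs => rw [Polynomial.as_sum_range_C_mul_X_pow b]
    rw [Polynomial.map_sum]
    refine Finset.sum_congr rfl fun i _ => ?_
    rw [Polynomial.map_mul, Polynomial.map_pow, Polynomial.map_X, Polynomial.map_C]
  rw [h2, h3, mul_one, zero_add] at hLp
  rw [zero_add] at hLd
  have h4 : L = m := by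
    refine ph_injective hf (b.natDegree + K) (by omega) (by omega) ?_
    rw [la_ph_raise f b.natDegree K L hLd, hLp, add_comm b.natDegree K,
      la_ph_raise f K b.natDegree m d, e, Nat.add_sub_cancel]
    ring
  rw [h4]
  exact t

end MPb07157T
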