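import Pool.Agent.Lib.MP_b07157_agN.LatA
import Pool.Agent.Lib.MP_b07157_agT.F4
import Pool.Agent.Lib.MP_b07157_agT.F5
import Pool.Agent.Lib.MP_b07157_agN.CDefs

/-!
# The elements `m y₀^j` on the lattice
-/

noncomputable section

namespace MPb07157T

open Finset Matrix MvPolynomial MPb07157

variable {n : ℕ}

/-! ### Coefficients -/

theorem lb_cf_neg (φ : PY n) (m : Fin (n + 1) → ℤ) (i : Fin (n + 1)) (h : m i < 0) :
    cf φ m = 0 := by
  unfold cf
  rw [if_neg]
  intro h'
  exact absurd (h' i) (not_le.mpr h)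

/-- Multiplication with a monomial. -/
theorem cf_C_mon (φ : PY n) (m : Fin (n + 1) → ℤ) (v : Fin n →₀ ℕ) (c : ℂ) :
    cf (Polynomial.C ((monomial v c : MvPolynomial (Fin n) ℂ) :
      MvPowerSeries (Fin n) ℂ) * φ) m =
      c * cf φ (m - (Fin.cons 0 fun j => (v j : ℤ) : Fin (n + 1) → ℤ)) := by
  classical
  set s : Fin (n + 1) → ℤ := Fin.cons 0 fun j => (v j : ℤ) with hs
  have hs0 : (m - s) 0 = m 0 := by
    rw [Pi.sub_apply, hs, Fin.cons_zero, sub_zero]
  have hss : ∀ j : Fin n, (m - s) j.succ = m j.succ - v j := fun j => by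
    rw [Pi.sub_apply, hs, Fin.cons_succ]
  unfold cf
  by_cases hm : ∀ i, 0 ≤ m i
  · rw [if_pos hm, Polynomial.coeff_C_mul, MvPolynomial.coe_monomial,
      MvPowerSeries.coeff_monomial_mul]
    by_cases hle : v ≤ (Finsupp.equivFunOnFinite.symm fun j : Fin n => (m j.succ).toNat)
    · have hle' : ∀ j, v j ≤ (m j.succ).toNat := fun j => by
        have := hle j
        rwa [Finsupp.equivFunOnFinite_symm_apply_apply] at this
      rw [if_pos hle, if_pos, hs0]
      · congr 2
        congr 1
        ext j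
        rw [Finsupp.tsub_apply, Finsupp.equivFunOnFinite_symm_apply_apply,
          Finsupp.equivFunOnFinite_symm_apply_apply, hss]
        have := hm j.succ
        have := hle' j
        omega
      · intro i
        refine Fin.cases ?_ (fun j => ?_) i
        · rw [hs0]
          exact hm 0
        · rw [hss]
          have := hm j.succ
          have := hle' j
          omega
    · rw [if_neg hle, if_neg, mul_zero]
      intro h
      refine hle fun j => ?_
      rw [Finsupp.equivFunOnFinite_symm_apply_apply]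
      have h1 := h j.succ
      rw [hss] at h1
      omega
  · rw [if_neg hm, if_neg, mul_zero]
    intro h
    refine hm fun i => ?_
    revert h
    refine Fin.cases ?_ (fun j => ?_) i
    · intro h
      have h1 := h 0
      rwa [hs0] at h1
    · intro h
      have h1 := h j.succ
      rw [hss] at h1
      have : (0 : ℤ) ≤ v j := Int.natCast_nonneg _
      omega

theorem lb_cf_zero (m : Fin (n + 1) → ℤ) : cf (0 : PY n) m = 0 := by
  unfold cf
  split_ifs
  · rw [Polynomial.coeff_zero, map_zero]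
  · rfl

theorem cf_C_mul (p : MvPolynomial (Fin n) ℂ) (φ : PY n) (m : Fin (n + 1) → ℤ) :
    cf (Polynomial.C (p : MvPowerSeries (Fin n) ℂ) * φ) m =
      ∑ v ∈ p.support, coeff v p *
        cf φ (m - (Fin.cons 0 fun j => (v j : ℤ) : Fin (n + 1) → ℤ)) := by
  classical
  have key : ∀ (s : Finset (Fin n →₀ ℕ)),
      cf (Polynomial.C ((∑ v ∈ s, monomial v (coeff v p) : MvPolynomial (Fin n) ℂ) :
        MvPowerSeries (Fin n) ℂ) * φ) m = ∑ v ∈ s, coeff v p *
        cf φ (m - (Fin.cons 0 fun j => (v j : ℤ) : Fin (n + 1) → ℤ)) := by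
    intro s
    induction s using Finset.induction_on with
    | empty =>
      rw [Finset.sum_empty, Finset.sum_empty, MvPolynomial.coe_zero, map_zero, zero_mul,
        lb_cf_zero]
    | insert a s ha ih =>
      rw [Finset.sum_insert ha, Finset.sum_insert ha, ← ih, MvPolynomial.coe_add, map_add,
        add_mul, cf_add, Pi.add_apply, cf_C_mon]
  conv_lhs => rw [p.as_sum]
  exact key _

/-! ### Finite support -/

/-- Finitely many coefficients. -/
def FinS (φ : PY n) : Prop := (Function.support (cf φ)).Finite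

theorem finite_of_shift {r : ℕ} {G G' : (Fin r → ℤ) → ℂ} {T : Finset (Fin r → ℤ)}
    (hG : (Function.support G').Finite) (h : ∀ m, G m ≠ 0 → ∃ v ∈ T, G' (m - v) ≠ 0) :
    (Function.support G).Finite := by
  classical
  refine ((T.finite_toSet).biUnion fun v _ => hG.image fun m => m + v).subset ?_
  intro m hm
  obtain ⟨v, hv, h1⟩ := h m hm
  rw [Set.mem_iUnion₂]
  refine ⟨v, hv, m - v, h1, ?_⟩
  simp

theorem FinS.C_mul {φ : PY n} (h : FinS φ) (p : MvPolynomial (Fin n) ℂ) :
    FinS (Polynomial.C (p : MvPowerSeries (Fin n) ℂ) * φ) := by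
  classical
  refine finite_of_shift (G' := cf φ)
    (T := p.support.image fun v => (Fin.cons 0 fun j => (v j : ℤ) : Fin (n + 1) → ℤ)) h ?_
  intro m hm
  rw [cf_C_mul] at hm
  obtain ⟨v, hv, h1⟩ := Finset.exists_ne_zero_of_sum_ne_zero hm
  exact ⟨_, Finset.mem_image_of_mem _ hv, right_ne_zero_of_mul h1⟩

theorem FinS.add {φ ψ : PY n} (h : FinS φ) (h' : FinS ψ) : FinS (φ + ψ) := by
  unfold FinS
  rw [cf_add]
  exact (h.union h').subset (Function.support_add _ _)

theorem FinS.tht {φ : PY n} (h : FinS φ) (f : MvPolynomial (Fin n) ℂ) : FinS (Tht f φ) := by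
  classical
  refine finite_of_shift (G' := cf φ) (T := insert 0 ((Fc f).support.image sh)) h ?_
  intro m hm
  rw [cf_tht] at hm
  unfold thL at hm
  by_cases h1 : cf φ m = 0
  · rw [h1, mul_zero, zero_add] at hm
    obtain ⟨v, hv, h2⟩ := Finset.exists_ne_zero_of_sum_ne_zero hm
    exact ⟨_, Finset.mem_insert_of_mem (Finset.mem_image_of_mem _ hv), right_ne_zero_of_mul h2⟩
  · exact ⟨0, Finset.mem_insert_self _ _, by rwa [sub_zero]⟩

theorem FinS.nab {φ : PY n} (h : FinS φ) (f : MvPolynomial (Fin n) ℂ) (i : Fin n) :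
    FinS (nab f i φ) := by
  classical
  refine finite_of_shift (G' := cf φ)
    (T := insert (-he i) ((Fc f).support.image fun v => sh v - he i)) h ?_
  intro m hm
  rw [cf_nab] at hm
  by_cases h1 : cf φ (m + he i) = 0
  · rw [h1, mul_zero, zero_add] at hm
    obtain ⟨v, hv, h2⟩ := Finset.exists_ne_zero_of_sum_ne_zero hm
    refine ⟨_, Finset.mem_insert_of_mem (Finset.mem_image_of_mem _ hv), ?_⟩
    have h3 := right_ne_zero_of_mul h2
    have e : m - (sh v - he i) = m + he i - sh v := by abel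
    rwa [e]
  · exact ⟨-he i, Finset.mem_insert_self _ _, by rwa [sub_neg_eq_add]⟩

theorem cf_one : cf (1 : PY n) = Pi.single 0 1 := by
  funext m
  unfold cf
  by_cases hm : m = 0
  · subst hm
    have h0 : ∀ i : Fin (n + 1), 0 ≤ (0 : Fin (n + 1) → ℤ) i := fun i => le_refl _
    rw [if_pos h0, Pi.single_eq_same]
    have h1 : (Finsupp.equivFunOnFinite.symm fun j : Fin n =>
        ((0 : Fin (n + 1) → ℤ) j.succ).toNat) = 0 := by
      ext j
      simp
    rw [h1]
    simp [Polynomial.coeff_one]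
  · rw [Pi.single_eq_of_ne hm]
    split_ifs with h
    · rw [Polynomial.coeff_one]
      split_ifs with h0
      · rw [MvPowerSeries.coeff_one, if_neg]
        intro h1
        apply hm
        funext i
        refine Fin.cases ?_ (fun j => ?_) i
        · have := h 0
          simp only [Pi.zero_apply]
          omega
        · have h2 := congrArg (fun e : Fin n →₀ ℕ => e j) h1
          simp at h2
          have := h j.succ
          simp only [Pi.zero_apply]
          omega
      · exact map_zero _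
    · rfl

theorem TTp.finS {f : MvPolynomial (Fin n) ℂ} {m : PY n} (h : TTp f m) : FinS m := by
  induction h with
  | gen c i =>
    refine FinS.C_mul ?_ c
    induction i with
    | zero =>
      have h1 : FinS (1 : PY n) := by
        unfold FinS
        rw [cf_one]
        exact (Set.finite_singleton 0).subset fun m hm => by
          by_contra h
          exact hm (Pi.single_eq_of_ne h _)
      have := h1.C_mul f
      rwa [mul_one] at this
    | succ i ih =>
      rw [Function.iterate_succ_apply']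
      exact ih.tht f
  | add _ _ ih1 ih2 => exact ih1.add ih2
  | nab i _ ih => exact ih.nab f i

/-! ### The elements `φ y₀^j` -/

/-- The point of the lattice of `f` below a point of the lattice of `f + x₀ h`. -/
def lo (j : ℤ) (m : Fin (n + 2) → ℤ) : Fin (n + 1) → ℤ :=
  Fin.cons (m 0 - j) fun l => m l.succ.succ

/-- The element `φ y₀^j`. -/
def inj (j : ℤ) (φ : PY n) (m : Fin (n + 2) → ℤ) : ℂ :=
  if m 1 = j then cf φ (lo j m) else 0

theorem inj_add (j : ℤ) (φ ψ : PY n) (m : Fin (n + 2) → ℤ) :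
    inj j (φ + ψ) m = inj j φ m + inj j ψ m := by
  unfold inj
  split_ifs
  · rw [cf_add, Pi.add_apply]
  · rw [add_zero]

theorem inj_finite {φ : PY n} (h : FinS φ) (j : ℤ) : (Function.support (inj j φ)).Finite := by
  refine (h.image fun q : Fin (n + 1) → ℤ =>
    (Fin.cons (q 0 + j) (Fin.cons j fun l => q l.succ) : Fin (n + 2) → ℤ)).subset ?_
  intro m hm
  rw [Function.mem_support] at hm
  unfold inj at hm
  split_ifs at hm with h1
  · refine ⟨lo j m, hm, ?_⟩
    funext i
    refine Fin.cases ?_ (fun i => ?_) i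
    · show (m 0 - j) + j = m 0
      ring
    · refine Fin.cases ?_ (fun l => ?_) i
      · exact h1.symm
      · rfl
  · exact absurd rfl hm

/-- Sums over the exponents of `f + x₀ h`. -/
theorem sum_Cay (F : (Fin n → ℤ) →₀ ℂ) (M : ℕ) (g : Fin n → ℂ) (G : (Fin (n + 1) → ℤ) → ℂ) :
    ∑ v ∈ (Cay F M g).support, Cay F M g v * G v =
      ∑ v ∈ F.support, F v * G (c0 v) +
        (G (c1 0) + ∑ j, g j * G (c1 ((M : ℤ) • ee j))) := by
  classical
  have h0 : ∑ v ∈ (Cay F M g).support, Cay F M g v * G v =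
      (F.mapDomain c0 + (Hf M g).mapDomain c1).sum fun v a => a * G v := rfl
  rw [h0, Finsupp.sum_add_index' (fun _ => zero_mul _) (fun _ _ _ => add_mul _ _ _),
    Finsupp.sum_mapDomain_index (fun _ => zero_mul _) (fun _ _ _ => add_mul _ _ _),
    Finsupp.sum_mapDomain_index (fun _ => zero_mul _) (fun _ _ _ => add_mul _ _ _)]
  congr 1
  unfold Hf
  rw [Finsupp.sum_add_index' (fun _ => zero_mul _) (fun _ _ _ => add_mul _ _ _),
    Finsupp.sum_single_index (zero_mul _), one_mul]
  congr 1
  have h := Finsupp.sum_finsetSum_index (s := (Finset.univ : Finset (Fin n)))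
    (g := fun j : Fin n => Finsupp.single ((M : ℤ) • ee j) (g j))
    (h := fun (v : Fin n → ℤ) (a : ℂ) => a * G (c1 v)) (fun _ => zero_mul _)
    (fun _ _ _ => add_mul _ _ _)
  rw [← h]
  refine Finset.sum_congr rfl fun j _ => ?_
  rw [Finsupp.sum_single_index (zero_mul _)]

/-- `∂_i h`. -/
def hd (M : ℕ) (g : Fin n → ℂ) (i : Fin n) : MvPolynomial (Fin n) ℂ :=
  monomial (Finsupp.single i (M - 1)) (g i * M)

/-- `∇_i (φ y₀^j) = (∇_i φ) y₀^j + (∂_i h) φ y₀^(j+1)`. -/
theorem inj_nab (f : MvPolynomial (Fin n) ℂ) {M : ℕ} (hM : 1 ≤ M) (g : Fin n → ℂ) (j : ℤ)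
    (φ : PY n) (i : Fin n) (m : Fin (n + 2) → ℤ) :
    ((m i.succ.succ : ℂ) + 1) * inj j φ (m + he i.succ) +
      ∑ v ∈ (Cay (Fc f) M g).support, Cay (Fc f) M g v *
        ((v i.succ : ℂ) * inj j φ (m + he i.succ - sh v)) =
      inj j (nab f i φ) m +
        inj (j + 1) (Polynomial.C ((hd M g i : MvPolynomial (Fin n) ℂ) :
          MvPowerSeries (Fin n) ℂ) * φ) m := by
  classical
  have hsum := sum_Cay (Fc f) M g fun v => (v i.succ : ℂ) * inj j φ (m + he i.succ - sh v)
  rw [hsum]
  -- the terms of `h`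
  have e1 : ∀ u : Fin n → ℤ, (c1 u i.succ : ℤ) = u i := fun u => rfl
  have e0 : ∀ u : Fin n → ℤ, (c0 u i.succ : ℤ) = u i := fun u => rfl
  have e2 : ∑ l, g l * (((c1 ((M : ℤ) • ee l) i.succ : ℤ) : ℂ) *
      inj j φ (m + he i.succ - sh (c1 ((M : ℤ) • ee l)))) =
      g i * ((M : ℂ) * inj j φ (m + he i.succ - sh (c1 ((M : ℤ) • ee i)))) := by
    rw [Finset.sum_eq_single i]
    · rw [e1]
      unfold ee
      simp
    · intro l _ hl
      rw [e1]
      unfold ee
      simp [hl.symm]
    · intro h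
      exact absurd (Finset.mem_univ i) h
  rw [e2, e1]
  simp only [e0, Pi.zero_apply, Int.cast_zero, zero_mul, zero_add]
  have hh0 : ∀ (i : Fin n), (he i.succ : Fin (n + 2) → ℤ) 0 = 0 := fun i => rfl
  have hh1 : ∀ (i : Fin n), (he i.succ : Fin (n + 2) → ℤ) 1 = 0 := fun i => by
    show (ee i.succ : Fin (n + 1) → ℤ) 0 = 0
    unfold ee
    exact Pi.single_eq_of_ne (Fin.succ_ne_zero i).symm _
  have hh2 : ∀ (i l : Fin n), (he i.succ : Fin (n + 2) → ℤ) l.succ.succ = ee i l :=
      fun i l => by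
    show (ee i.succ : Fin (n + 1) → ℤ) l.succ = ee i l
    unfold ee
    by_cases h : l = i
    · subst h
      rw [Pi.single_eq_same, Pi.single_eq_same]
    · rw [Pi.single_eq_of_ne h, Pi.single_eq_of_ne (fun h' => h (Fin.succ_injective _ h'))]
  have hlo : lo j (m + he i.succ) = lo j m + he i := by
    funext l
    refine Fin.cases ?_ (fun l => ?_) l
    · show (m 0 + (he i.succ : Fin (n + 2) → ℤ) 0) - j = (m 0 - j) + 0
      rw [hh0]
      ring
    · show m l.succ.succ + (he i.succ : Fin (n + 2) → ℤ) l.succ.succ = m l.succ.succ + ee i l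
      rw [hh2]
  have hlo0 : ∀ v : Fin n → ℤ, lo j (m + he i.succ - sh (c0 v)) = lo j m + he i - sh v := by
    intro v
    funext l
    refine Fin.cases ?_ (fun l => ?_) l
    · show (m 0 + (he i.succ : Fin (n + 2) → ℤ) 0 - 1) - j = (m 0 - j) + 0 - 1
      rw [hh0]
      ring
    · show m l.succ.succ + (he i.succ : Fin (n + 2) → ℤ) l.succ.succ - v l =
        m l.succ.succ + ee i l - v l
      rw [hh2]
  have hlo1 : lo j (m + he i.succ - sh (c1 ((M : ℤ) • ee i))) =
      lo (j + 1) m - (Fin.cons 0 fun l => ((Finsupp.single i (M - 1) : Fin n →₀ ℕ) l : ℤ)) := by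
    funext l
    refine Fin.cases ?_ (fun l => ?_) l
    · show (m 0 + (he i.succ : Fin (n + 2) → ℤ) 0 - 1) - j = (m 0 - (j + 1)) - 0
      rw [hh0]
      ring
    · show m l.succ.succ + (he i.succ : Fin (n + 2) → ℤ) l.succ.succ - ((M : ℤ) • ee i) l =
        m l.succ.succ - ((Finsupp.single i (M - 1) : Fin n →₀ ℕ) l : ℤ)
      rw [hh2]
      unfold ee
      by_cases h : l = i
      · subst h
        rw [Pi.smul_apply, Pi.single_eq_same, Finsupp.single_eq_same, smul_eq_mul, mul_one]
        push_cast [hM]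
        ring
      · rw [Pi.smul_apply, Pi.single_eq_of_ne h, Finsupp.single_eq_of_ne h]
        simp
  have hone : ∀ v : Fin (n + 1) → ℤ, (m + he i.succ - sh v) 1 = m 1 - v 0 := by
    intro v
    show m 1 + (he i.succ : Fin (n + 2) → ℤ) 1 - v 0 = m 1 - v 0
    rw [hh1]
    ring
  have hone' : (m + he i.succ) 1 = m 1 := by
    show m 1 + (he i.succ : Fin (n + 2) → ℤ) 1 = m 1
    rw [hh1]
    ring
  have hc0 : ∀ v : Fin n → ℤ, (c0 v : Fin (n + 1) → ℤ) 0 = 0 := fun v => rfl
  have hc1 : ∀ v : Fin n → ℤ, (c1 v : Fin (n + 1) → ℤ) 0 = 1 := fun v => rfl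
  rw [← add_assoc]
  congr 1
  · unfold inj
    rw [hone']
    simp only [hone, hc0, sub_zero, hlo0, hlo]
    split_ifs with h
    · rw [cf_nab]
      refine congrArg₂ (· + ·) rfl (Finset.sum_congr rfl fun v _ => ?_)
      ring
    · simp
  · unfold inj
    rw [hone, hc1, hlo1]
    by_cases h : m 1 = j + 1
    · rw [if_pos h, if_pos (by rw [h]; ring), hd, cf_C_mon]
      ring
    · rw [if_neg h, if_neg (fun h' => h (by linarith))]
      ring

end MPb07157T
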