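import Pool.Agent.Lib.MP_b07157_agE1.Line

/-!
# The line through an arbitrary base point
-/

namespace MP_b07157_agE1

open Finset Module Polynomial

variable {n : ℕ}

/-- point of the line through `b` and `a` -/
def linb (b a : Fin n → ℚ) (t : ℚ) : Fin n → ℚ := fun l => b l + t * (a l - b l)

theorem rankD_le_rankF_b (G : Geo n) (κ : ℤ) (c : Lat n → ℂ) (b a : Fin n → ℚ)
    (hgb : Good G (fun l => ((b l : ℚ) : ℂ)))
    (hadm : {t : ℚ | Adm G (linb b a t)}.Infinite)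
    (J : ℤ) (hJ : J ≤ κ + G.N) (hF : HF G c J)
    (hstep : ∃ J' : ℤ, ∀ m ∈ G.L0, J' ≤ G.dg m → ∃ v ∈ G.S, m - v ∈ G.L0) :
    finrank ℂ (imD G c (fun l => ((b l : ℚ) : ℂ)) κ) ≤ finrank ℂ (imF G c κ) := by
  classical
  rw [finrank_imD G κ c _ hgb]
  set M1 := MxH G κ (fun l => ((b l : ℚ) : ℂ)) + MxF G κ c with hM1
  obtain ⟨P, Q, hPQ⟩ := rank_unit M1
  -- polynomial matrix
  let bp : Fin n → ℂ[X] := fun l => C ((b l : ℚ) : ℂ) + X * C ((a l : ℂ) - (b l : ℂ))
  let Mp : Matrix (W0 G κ) (W1 G κ) ℂ[X] := MxH G κ bp + MxF G κ (fun v => C (c v))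
  let D : ℂ[X] := ((P.map C) * Mp * (Q.map C)).det
  have hev : ∀ t : ℂ, D.eval t =
      (P * (MxH G κ (fun l => (b l : ℂ) + t * ((a l : ℂ) - (b l : ℂ))) + MxF G κ c) * Q).det := by
    intro t
    have h1 : D.eval t = (evalRingHom t) D := rfl
    rw [h1, RingHom.map_det]
    congr 1
    have h2 : (evalRingHom t).mapMatrix ((P.map C) * Mp * (Q.map C)) =
        ((P.map C) * Mp * (Q.map C)).map (evalRingHom t) := rfl
    have e1 : (P.map C).map (evalRingHom t) = P := by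
      ext i j; simp
    have e2 : (Q.map C).map (evalRingHom t) = Q := by
      ext i j; simp
    rw [h2, Matrix.map_mul, Matrix.map_mul, e1, e2, Matrix.map_add _ (map_add _), MxH_map, MxF_map]
    simp [bp]
  have hD0 : D ≠ 0 := by
    intro h
    have h1 := hev 0
    simp only [zero_mul, add_zero] at h1
    rw [h, eval_zero, ← hM1, hPQ, Matrix.det_one] at h1
    exact zero_ne_one h1
  -- a good `t`
  have hinf : ((fun t : ℚ => (t : ℂ)) '' {t : ℚ | Adm G (linb b a t)}).Infinite :=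
    hadm.image (Rat.cast_injective.injOn)
  have hfin : {x : ℂ | D.IsRoot x}.Finite := by
    refine (D.roots.toFinset.finite_toSet).subset ?_
    intro x hx
    rw [Finset.mem_coe, Multiset.mem_toFinset, mem_roots hD0]
    exact hx
  obtain ⟨x, ⟨t, ht, rfl⟩, hx⟩ := (hinf.diff hfin).nonempty
  have hx' : D.eval (t : ℂ) ≠ 0 := hx
  rw [hev] at hx'
  set M2 := MxH G κ (fun l => (b l : ℂ) + (t:ℂ) * ((a l : ℂ) - (b l : ℂ))) + MxF G κ c with hM2
  have h1 : M1.rank ≤ M2.rank := by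
    have hu : IsUnit (P * M2 * Q) := by
      rw [Matrix.isUnit_iff_isUnit_det]
      exact isUnit_iff_ne_zero.2 hx'
    have h2 : (P * M2 * Q).rank = M1.rank := by
      rw [Matrix.rank_of_isUnit _ hu, Fintype.card_fin]
    calc M1.rank = (P * M2 * Q).rank := h2.symm
      _ ≤ (P * M2).rank := Matrix.rank_mul_le_left _ _
      _ ≤ M2.rank := Matrix.rank_mul_le_right _ _
  have hlin : (fun l => ((linb b a t l : ℚ) : ℂ)) =
      fun l => (b l : ℂ) + (t:ℂ) * ((a l : ℂ) - (b l : ℂ)) := by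
    funext l
    simp [linb]
  obtain ⟨hg, q, hq, hsc⟩ := ht
  have h2 := rankD_le_rankF_rat G κ c (linb b a t) hg q hq hsc J hJ hF hstep
  have hgt : Good G (fun l => ((linb b a t l : ℚ) : ℂ)) := by
    intro l hl
    simp [hg l hl]
  rw [finrank_imD G κ c _ hgt, hlin, ← hM2] at h2
  exact h1.trans h2

/-- **E1**, abstract form, with an arbitrary base point. -/
theorem e1_geo_b (G : Geo n) (c : Lat n → ℂ) (b a : Fin n → ℚ)
    (hgb : Good G (fun l => ((b l : ℚ) : ℂ)))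
    (hadm : {t : ℚ | Adm G (linb b a t)}.Infinite)
    (J : ℤ) (hF : HF G c J)
    (hstep : ∃ J' : ℤ, ∀ m ∈ G.L0, J' ≤ G.dg m → ∃ v ∈ G.S, m - v ∈ G.L0)
    (m : Lat n) (hm : m ∈ G.L0) (w : Fin n → Fn ℂ n) (hw : w ∈ UP G (fun _ => True))
    (hwm : TD G c (fun l => ((b l : ℚ) : ℂ)) w = Finsupp.single m 1) :
    ∃ u ∈ (UP G (fun j => j = G.dg m - G.N) : Submodule ℂ (Fin n → Fn ℂ n)),
      TF G c u = Finsupp.single m 1 := by
  classical
  have hN := G.hN
  obtain ⟨B, hB⟩ := ((Finset.univ.biUnion fun l => (w l).support).image G.dg).exists_le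
  set κ : ℤ := max (max B J) (G.dg m) with hκ
  have k1 : B ≤ κ := (le_max_left _ _).trans (le_max_left _ _)
  have k2 : J ≤ κ := (le_max_right _ _).trans (le_max_left _ _)
  have k3 : G.dg m ≤ κ := le_max_right _ _
  have hw2 : w ∈ UP G (fun j => j ≤ κ) := by
    rw [mem_UP] at hw ⊢
    intro l
    have h1 := hw l
    rw [Finsupp.mem_supported] at h1 ⊢
    intro m' hm'
    refine ⟨(h1 hm').1, ?_⟩
    refine le_trans (hB _ ?_) k1
    exact Finset.mem_image_of_mem _ (Finset.mem_biUnion.2 ⟨l, Finset.mem_univ _, hm'⟩)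
  have h1 : (Finsupp.single m 1 : Fn ℂ n) ∈ imD G c (fun l => ((b l : ℚ) : ℂ)) κ := ⟨w, hw2, hwm⟩
  by_cases h2 : (Finsupp.single m 1 : Fn ℂ n) ∈ imF G c κ
  · obtain ⟨u, hu, hu2⟩ := h2
    have h3 := pd_TF G c (fun j => j = G.dg m) u
    rw [hu2, pd_single_mem _ _ (by exact rfl)] at h3
    refine ⟨_, ?_, h3.symm⟩
    refine UP_mono G ?_ (pdU_mem G _ (fun j => j + G.N = G.dg m) _ hu)
    rintro j ⟨-, hj⟩
    omega
  · exfalso
    have h3 := rankF_lt_rankD G c (fun l => ((b l : ℚ) : ℂ)) hgb κ m hm (by omega) h1 h2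
    have h4 := rankD_le_rankF_b G κ c b a hgb hadm J (by omega) hF hstep
    omega

end MP_b07157_agE1
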