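import Pool.Agent.Lib.MP_b07157_agN.Root
import Pool.Agent.Lib.MP_b07157_agN.H1P
import Pool.Agent.Lib.MP_b07157_agP.P1

/-!
# The strong monodromy conjecture for Newton non-degenerate polynomials
-/

noncomputable section

namespace MPb07157Z

open Finset Matrix MvPolynomial MPb07157 MPb07157T MPb07157F

variable {n : ℕ}

/-- **The strong monodromy conjecture** for Newton non-degenerate polynomials. -/
theorem smc_nondeg {f : MvPolynomial (Fin n) ℂ} (hf : f ≠ 0)
    (h0 : (0 : Fin n →₀ ℕ) ∉ f.support)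
    (hnd : ∀ a : Fin n → ℕ, NondegAt f (face f a (nuf f a))) (hall : NDall f) (s₀ : ℚ)
    (hp : IsPole (Zmot f) s₀) : IsBernsteinSatoRoot f s₀ := by
  by_cases hs : s₀ = -1
  · subst hs
    exact (roots_of_form (f := f) (s₀ := -1) fun b hb => neg_one_root hf h0 b hb).1
  obtain ⟨D, k, hk, ρ, γ, hg⟩ := MPb07157P.exists_good_of_pole hf hnd hs hp
  obtain ⟨w, N, P, ρ', γ', hP, hN, hmin, hgood, hsum⟩ := exists_faceP hk.pos hk.mem hg
  exact fun b hb => root_of_goodP hf h0 hall hN hmin hP hgood hsum b hb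

end MPb07157Z
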