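import Pool.Agent.Lib.MP_b07157_agZ.A1
import Pool.Agent.Lib.MP_b07157_agN.OutC

/-!
# The monomials of degree `-1` of the Cayley complex
-/

noncomputable section

namespace MPb07157Z

open Finset Matrix MvPolynomial MPb07157 MPb07157T MPb07157F

variable {n : ℕ}

/-- As `ones_of_mem` (`A1.lean`).

Proof.  `x = m + a` satisfies `h(x) ≥ 0` for `h ∈ H`, so `x = ∑ l_v v` over the exponents of the
Cayley face (`hcone`, `mem_cay_support`).  Let `L` be the sum of the `l_v` with `v = c0 v'`, `L'` the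
sum of the others: `L' = x 0 = a 0`, `N (L + L') = (cw κ).1·x = -N + N a 0 + ∑ w_j a_j`, so
`L = ∑ w_j a_j / N - 1`.  `∑ y_j x_j ≤ L` (`y·v' ≤ 1`; `y_j = 0` for the exponents
`c1 (M ee j)`, `w_j = 0`), and `∑ y_j x_j ≥ ∑ y_j - y_l`. -/
theorem ones_of_memC {f : MvPolynomial (Fin n) ℂ} {w : Fin n → ℕ} {N : ℕ} (hN : 0 < N)
    {P : Finset (Fin n)} (hP : ∀ j, j ∈ P ↔ 0 < w j) {M : ℕ} (hM : 1 ≤ M) {g : Fin n → ℂ}
    (hg0 : ∀ j, g j ≠ 0) {H : Finset (Fin (n + 1) → ℤ)} (hee : ∀ l, ee l ∈ H)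
    (hcone : ∀ x : Fin (n + 1) → ℝ, (∀ h ∈ H, 0 ≤ rdot h x) → ∃ l : (Fin (n + 1) → ℤ) → ℝ,
      (∀ v ∈ (Fs (cw (kof w N)) (Cay (Fc f) M g)).support, 0 ≤ l v) ∧
      ∀ j, ∑ v ∈ (Fs (cw (kof w N)) (Cay (Fc f) M g)).support, l v * (v j : ℝ) = x j)
    {y : Fin n → ℚ} {a : Fin (n + 1) → ℚ} (hy0 : ∀ j, 0 ≤ y j) (hyP : ∀ j, j ∉ P → y j = 0)
    (hyv : ∀ v ∈ face f w N, qd y v ≤ 1) (ha1 : ∀ j : Fin n, 0 < y j → a j.succ = 1)
    (hd : ∀ j, y j < 1 → (∑ i, (w i : ℚ) * a i.succ) / N - ∑ i, y i < 1 - y j)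
    {m : Fin (n + 1) → ℤ} {l : Fin n} (hm1 : ∀ h ∈ H, -qf h a ≤ ((h ⬝ᵥ m : ℤ) : ℚ))
    (hm0 : m 0 = 0) (hmd : (cw (kof w N)).1 ⬝ᵥ m = -(N : ℤ))
    (hm4 : ∀ j : Fin n, 0 < y j → j ≠ l → 0 ≤ m j.succ) : 1 ≤ y l := by
  classical
  have hNq : (0 : ℚ) < N := by exact_mod_cast hN
  have hNr : (0 : ℝ) < N := by exact_mod_cast hN
  -- the point
  set x : Fin (n + 1) → ℝ := fun i => ((a i : ℚ) : ℝ) + (m i : ℝ) with hx
  have hxH : ∀ h ∈ H, 0 ≤ rdot h x := by
    intro h hh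
    have h1 := hm1 h hh
    have h2 : rdot h x = ((qf h a + ((h ⬝ᵥ m : ℤ) : ℚ) : ℚ) : ℝ) := by
      unfold rdot qf dotProduct
      push_cast
      rw [← Finset.sum_add_distrib]
      exact Finset.sum_congr rfl fun i _ => by simp only [hx]; ring
    rw [h2]
    have h3 : (0 : ℚ) ≤ qf h a + ((h ⬝ᵥ m : ℤ) : ℚ) := by linarith
    exact_mod_cast h3
  obtain ⟨L, hL0, hLx⟩ := hcone x hxH
  set S := (Fs (cw (kof w N)) (Cay (Fc f) M g)).support with hS
  -- the form `(w·x)/N - y·x` is nonnegative on the exponents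
  have hform : ∀ v ∈ S, 0 ≤ ∑ i : Fin n, ((w i : ℝ) / N - (y i : ℝ)) * (v i.succ : ℝ) := by
    intro v hv
    rcases (mem_cay_support f hM hg0 v).1 hv with ⟨v', hv', hκ, rfl⟩ | rfl | ⟨j, hj, rfl⟩
    · obtain ⟨v₀, hv₀, rfl⟩ := mem_Fc_support.1 hv'
      rw [kof_dot] at hκ
      have hwt : wt w v₀ = N := by
        have h0 : (wt w v₀ : ℤ) = (N : ℤ) := hκ
        exact_mod_cast h0
      have hface : v₀ ∈ face f w N := Finset.mem_filter.2 ⟨hv₀, hwt⟩
      have h1 := hyv v₀ hface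
      have h2 : ∑ i : Fin n, ((w i : ℝ) / N - (y i : ℝ)) * ((MPb07157T.c0 (castv v₀) i.succ : ℤ) : ℝ) =
          (∑ i : Fin n, (w i : ℝ) * (v₀ i : ℝ)) / N - ((qd y v₀ : ℚ) : ℝ) := by
        unfold qd MPb07157T.c0 castv
        push_cast
        rw [Finset.sum_div, ← Finset.sum_sub_distrib]
        refine Finset.sum_congr rfl fun i _ => ?_
        rw [Fin.cons_succ]
        push_cast
        ring
      have h3 : ∑ i : Fin n, (w i : ℝ) * (v₀ i : ℝ) = N := by
        rw [← hwt]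
        unfold wt
        push_cast
        rfl
      rw [h2, h3, div_self hNr.ne']
      have h4 : ((qd y v₀ : ℚ) : ℝ) ≤ 1 := by exact_mod_cast h1
      linarith
    · refine (Finset.sum_eq_zero fun i _ => ?_).ge
      unfold MPb07157T.c1
      rw [Fin.cons_succ]
      simp
    · have hwj : w j = 0 := by
        have : ((w j : ℕ) : ℤ) = 0 := hj
        exact_mod_cast this
      have hyj : y j = 0 := hyP j fun h => by
        have := (hP j).1 h
        omega
      refine (Finset.sum_eq_zero fun i _ => ?_).ge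
      unfold MPb07157T.c1
      rw [Fin.cons_succ]
      by_cases hij : i = j
      · rw [hij, hwj, hyj]
        simp
      · unfold ee
        rw [Pi.smul_apply, Pi.single_eq_of_ne hij]
        simp
  have hΦ : 0 ≤ ∑ i : Fin n, ((w i : ℝ) / N - (y i : ℝ)) * x i.succ := by
    have h1 : ∑ i : Fin n, ((w i : ℝ) / N - (y i : ℝ)) * x i.succ =
        ∑ v ∈ S, L v * ∑ i : Fin n, ((w i : ℝ) / N - (y i : ℝ)) * (v i.succ : ℝ) := by
      simp only [← hLx, Finset.mul_sum]
      rw [Finset.sum_comm]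
      exact Finset.sum_congr rfl fun v _ => Finset.sum_congr rfl fun i _ => by ring
    rw [h1]
    exact Finset.sum_nonneg fun v hv => mul_nonneg (hL0 v hv) (hform v hv)
  -- the same over `ℚ`
  have hΦq : 0 ≤ ∑ i : Fin n, ((w i : ℚ) / N - y i) * (a i.succ + (m i.succ : ℚ)) := by
    have h1 : ((∑ i : Fin n, ((w i : ℚ) / N - y i) * (a i.succ + (m i.succ : ℚ)) : ℚ) : ℝ) =
        ∑ i : Fin n, ((w i : ℝ) / N - (y i : ℝ)) * x i.succ := by
      push_cast
      rfl
    have h2 : (0 : ℝ) ≤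
        ((∑ i : Fin n, ((w i : ℚ) / N - y i) * (a i.succ + (m i.succ : ℚ)) : ℚ) : ℝ) := by
      rw [h1]
      exact hΦ
    exact_mod_cast h2
  have hwm : ∑ i : Fin n, (w i : ℚ) * (m i.succ : ℚ) = -N := by
    have h1 : (cw (kof w N)).1 ⬝ᵥ m = ∑ i : Fin n, (w i : ℤ) * m i.succ := by
      unfold cw kof dotProduct
      rw [Fin.sum_univ_succ, hm0, mul_zero, zero_add]
      exact Finset.sum_congr rfl fun i _ => rfl
    rw [h1] at hmd
    have h2 : ((∑ i : Fin n, (w i : ℤ) * m i.succ : ℤ) : ℚ) = ((-(N : ℤ) : ℤ) : ℚ) := by rw [hmd]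
    push_cast at h2
    exact h2
  have hexp : ∑ i : Fin n, ((w i : ℚ) / N - y i) * (a i.succ + (m i.succ : ℚ)) =
      (∑ i, (w i : ℚ) * a i.succ) / N - 1 - ∑ i, y i * a i.succ - ∑ i, y i * (m i.succ : ℚ) := by
    have h1 : (1 : ℚ) = -(∑ i : Fin n, (w i : ℚ) * (m i.succ : ℚ)) / N := by
      rw [hwm, neg_neg, div_self hNq.ne']
    rw [h1, Finset.sum_div, ← Finset.sum_neg_distrib, Finset.sum_div, ← Finset.sum_sub_distrib,
      ← Finset.sum_sub_distrib, ← Finset.sum_sub_distrib]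
    exact Finset.sum_congr rfl fun i _ => by ring
  have hya : ∑ i, y i * a i.succ = ∑ i, y i := by
    refine Finset.sum_congr rfl fun i _ => ?_
    rcases (hy0 i).eq_or_lt with h | h
    · rw [← h, zero_mul]
    · rw [ha1 i h, mul_one]
  have hym : -y l ≤ ∑ i, y i * (m i.succ : ℚ) := by
    rw [← Finset.add_sum_erase _ _ (Finset.mem_univ l)]
    have h1 : 0 ≤ ∑ j ∈ Finset.univ.erase l, y j * (m j.succ : ℚ) := by
      refine Finset.sum_nonneg fun j hj => ?_
      rcases (hy0 j).eq_or_lt with h | h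
      · rw [← h, zero_mul]
      · have h2 := hm4 j h (Finset.ne_of_mem_erase hj)
        exact mul_nonneg h.le (by exact_mod_cast h2)
    have h2 : -y l ≤ y l * (m l.succ : ℚ) := by
      rcases (hy0 l).eq_or_lt with h | h
      · rw [← h, zero_mul, neg_zero]
      · have h3 := hm1 _ (hee l.succ)
        have h4 : qf (ee l.succ) a = a l.succ := by
          unfold qf ee
          rw [Finset.sum_eq_single l.succ]
          · rw [Pi.single_eq_same]
            simp
          · intro i _ hi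
            rw [Pi.single_eq_of_ne hi]
            simp
          · intro h
            exact absurd (Finset.mem_univ _) h
        have h5 : ee l.succ ⬝ᵥ m = m l.succ := by
          unfold ee
          rw [single_one_dotProduct]
        rw [h4, h5, ha1 l h] at h3
        nlinarith
    linarith
  by_contra hcon
  push Not at hcon
  have h1 := hd l hcon
  rw [hexp, hya] at hΦq
  linarith

end MPb07157Z
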