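import Pool.Agent.Lib.MP_b07157_agT.T1
import Pool.Agent.Lib.MP_b07157_agN.CDefs

/-!
# Raising noncritical walls
-/

noncomputable section

namespace MPb07157T

open Finset Matrix

private theorem rw_lin {r : ℕ} (b : Fin r → ℂ) (F : (Fin r → ℤ) →₀ ℂ) (V U : LFun ℂ r) (c : ℂ)
    (m : Fin r → ℤ) : Eop b F (V - c • U) m = Eop b F V m - c • Eop b F U m := by
  unfold Eop iF
  simp only [Pi.sub_apply, Pi.smul_apply, map_sub, map_smul, smul_sub, smul_add,
    Finset.sum_sub_distrib, Finset.smul_sum]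
  simp only [smul_comm (_ : ℂ) c]
  abel

private theorem rw_step {r : ℕ} (b : Fin r → ℂ) (F : (Fin r → ℤ) →₀ ℂ) (h : Fin r → ℤ)
    (hF : ∀ v ∈ F.support, 0 ≤ h ⬝ᵥ v) (p : ℤ) (hp : p < 0) (hne : (p : ℂ) + b ⬝ᵥ vec ℂ h ≠ 0)
    (A : Set (Fin r → ℤ)) (hA : ∀ v ∈ F.support, ∀ m ∈ A, m + v ∈ A)
    (S : List (Fin r)) (hbS : ∀ j ∈ S, b j = 1)
    (hSF : ∀ j ∈ S, ∀ v ∈ F.support, 0 ≤ v j) (hSA : ∀ j ∈ S, ∀ m ∈ A, -1 ≤ m j)
    {V : LFun ℂ r} (hV : SuppIn A V) (hVp : ∀ m, V m ≠ 0 → p ≤ h ⬝ᵥ m) (hd : Deg 1 V)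
    (hf : ∀ m, ∀ j ∈ S, m j = -1 → gi (vec ℂ (ee j)) * V m = 0) (β : ℂ)
    (hE : ∀ m, Eop b F V m = if m = 0 then algebraMap ℂ _ β else 0) :
    ∃ V' : LFun ℂ r, SuppIn A V' ∧ (∀ m, V' m ≠ 0 → p + 1 ≤ h ⬝ᵥ m) ∧ Deg 1 V' ∧
      (∀ m, ∀ j ∈ S, m j = -1 → gi (vec ℂ (ee j)) * V' m = 0) ∧
      ∀ m, Eop b F V' m = if m = 0 then algebraMap ℂ _ β else 0 := by
  classical
  set W : LFun ℂ r := fun m => if h ⬝ᵥ m = p then gi (vec ℂ h) * V m else 0 with hWdef
  have hsplit : ∀ m v : Fin r → ℤ, h ⬝ᵥ (m - v) = h ⬝ᵥ m - h ⬝ᵥ v := fun m v => dotProduct_sub h m v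
  have hW1 : ∀ m, W m ≠ 0 → V m ≠ 0 ∧ h ⬝ᵥ m = p := by
    intro m hm
    simp only [hWdef] at hm
    split_ifs at hm with h1
    · refine ⟨fun h2 => hm ?_, h1⟩
      rw [h2, mul_zero]
    · exact absurd rfl hm
  have hEop : ∀ (U : LFun ℂ r) (m : Fin r → ℤ), Eop b F U m = con (vec ℂ m + b) (U m) +
      ∑ v ∈ F.support, F v • con (vec ℂ v) (U (m - v)) := fun U m => rfl
  -- the value on the level
  have hlev : ∀ m, h ⬝ᵥ m = p → Eop b F W m = ((p : ℂ) + b ⬝ᵥ vec ℂ h) • V m := by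
    intro m hm
    have hm0 : m ≠ 0 := by
      rintro rfl
      rw [dotProduct_zero] at hm
      omega
    have hEV := hE m
    rw [if_neg hm0, hEop] at hEV
    have hterm : ∀ v ∈ F.support, con (vec ℂ v) (W (m - v)) =
        - (gi (vec ℂ h) * con (vec ℂ v) (V (m - v))) := by
      intro v hv
      rcases (hF v hv).lt_or_eq with h1 | h1
      · have h2 : h ⬝ᵥ (m - v) < p := by rw [hsplit]; omega
        have h3 : V (m - v) = 0 := by
          by_contra h4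
          have := hVp _ h4
          omega
        have h4 : W (m - v) = 0 := by
          simp only [hWdef]
          rw [if_neg (by omega)]
        rw [h3, h4, map_zero, mul_zero, neg_zero]
      · have h2 : h ⬝ᵥ (m - v) = p := by rw [hsplit]; omega
        have h4 : W (m - v) = gi (vec ℂ h) * V (m - v) := by
          simp only [hWdef]
          rw [if_pos h2]
        rw [h4, con_gi_mul, vec_dotProduct, dotProduct_comm v h, ← h1, Int.cast_zero, zero_smul,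
          zero_sub]
    have hWm : W m = gi (vec ℂ h) * V m := by
      simp only [hWdef]
      rw [if_pos hm]
    rw [hEop, Finset.sum_congr rfl fun v hv => by rw [hterm v hv], hWm, con_gi_mul,
      add_dotProduct, vec_dotProduct, dotProduct_comm m h, hm]
    have h5 : gi (vec ℂ h) * con (vec ℂ m + b) (V m) +
        ∑ v ∈ F.support, F v • (gi (vec ℂ h) * con (vec ℂ v) (V (m - v))) = 0 := by
      have h6 := congrArg (fun x => gi (vec ℂ h) * x) hEV
      simp only [mul_add, Finset.mul_sum, mul_smul_comm, mul_zero] at h6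
      exact h6
    simp only [smul_neg, Finset.sum_neg_distrib]
    rw [sub_add_eq_add_sub, ← sub_eq_add_neg] 
    rw [eq_comm, ← sub_eq_zero]
    rw [← h5]
    abel
  have hlow : ∀ m, h ⬝ᵥ m < p → Eop b F W m = 0 := by
    intro m hm
    have h1 : W m = 0 := by
      by_contra h2
      have := (hW1 m h2).2
      omega
    rw [hEop, h1, map_zero, zero_add]
    refine Finset.sum_eq_zero fun v hv => ?_
    have h2 : W (m - v) = 0 := by
      by_contra h3
      have h4 := (hW1 _ h3).2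
      rw [hsplit] at h4
      have := hF v hv
      omega
    rw [h2, map_zero, smul_zero]
  have key : ∀ m, Eop b F W m ≠ 0 → W m ≠ 0 ∨ ∃ v ∈ F.support, W (m - v) ≠ 0 := by
    intro m hm
    by_contra hcon
    push Not at hcon
    apply hm
    rw [hEop, hcon.1, map_zero, zero_add]
    refine Finset.sum_eq_zero fun v hv => ?_
    rw [hcon.2 v hv, map_zero, smul_zero]
  have hWd : ∀ m, W m ∈ Fil ℂ r 2 := by
    intro m
    simp only [hWdef]
    split_ifs
    · exact gi_mem_Fil _ (hd m)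
    · exact Submodule.zero_mem _
  refine ⟨V - ((p : ℂ) + b ⬝ᵥ vec ℂ h)⁻¹ • Eop b F W, ⟨?_, fun m hm => ?_⟩, fun m hm => ?_,
    fun m => ?_, fun m j hj hmj => ?_, fun m => ?_⟩
  · have hfin : (Function.support V ∪ ⋃ v ∈ F.support,
        (fun m => m + v) '' Function.support V).Finite :=
      hV.1.union (Set.Finite.biUnion (Finset.finite_toSet _) fun v _ => hV.1.image _)
    refine hfin.subset fun m hm => ?_
    by_cases h1 : V m = 0
    · have h2 : Eop b F W m ≠ 0 := by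
        intro h3
        apply hm
        rw [Pi.sub_apply, Pi.smul_apply, h1, h3, smul_zero, sub_zero]
      rcases key m h2 with h3 | ⟨v, hv, h3⟩
      · exact absurd h1 (hW1 m h3).1
      · refine Or.inr ?_
        simp only [Set.mem_iUnion]
        exact ⟨v, hv, m - v, (hW1 _ h3).1, by simp⟩
    · exact Or.inl h1
  · by_cases h1 : V m = 0
    · have h2 : Eop b F W m ≠ 0 := by
        intro h3
        apply hm
        rw [Pi.sub_apply, Pi.smul_apply, h1, h3, smul_zero, sub_zero]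
      rcases key m h2 with h3 | ⟨v, hv, h3⟩
      · exact absurd h1 (hW1 m h3).1
      · have h4 := hA v hv _ (hV.2 _ (hW1 _ h3).1)
        rwa [sub_add_cancel] at h4
    · exact hV.2 m h1
  · by_contra h1
    apply hm
    rw [Pi.sub_apply, Pi.smul_apply]
    rcases lt_or_eq_of_le (by omega : h ⬝ᵥ m ≤ p) with h2 | h2
    · have h3 : V m = 0 := by
        by_contra h4
        have := hVp m h4
        omega
      rw [h3, hlow m h2, smul_zero, sub_zero]
    · rw [hlev m h2, smul_smul, inv_mul_cancel₀ hne, one_smul, sub_self]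
  · refine Submodule.sub_mem _ (hd m) (Submodule.smul_mem _ _ ?_)
    rw [hEop]
    exact Submodule.add_mem _ (con_mem_Fil _ (hWd m))
      (Submodule.sum_mem _ fun v _ => Submodule.smul_mem _ _ (con_mem_Fil _ (hWd _)))
  · have hdot : ∀ u : Fin r → ℂ, u ⬝ᵥ vec ℂ (ee j) = u j := by
      intro u
      rw [dotProduct, Finset.sum_eq_single j]
      · unfold vec ee
        simp
      · intro i _ hi
        unfold vec ee
        simp [Pi.single_eq_of_ne hi]
      · intro h1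
        exact absurd (Finset.mem_univ _) h1
    have hanti : ∀ (u : Fin r → ℂ) (x : Lam ℂ r), u j = 0 →
        gi (vec ℂ (ee j)) * con u x = - con u (gi (vec ℂ (ee j)) * x) := by
      intro u x hu
      rw [con_gi_mul, hdot, hu, zero_smul, zero_sub, neg_neg]
    have hWf : ∀ m : Fin r → ℤ, m j = -1 → gi (vec ℂ (ee j)) * W m = 0 := by
      intro m hm
      simp only [hWdef]
      split_ifs
      · rw [gi_gi, hf m j hj hm, mul_zero, neg_zero]
      · rw [mul_zero]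
    rw [Pi.sub_apply, Pi.smul_apply, mul_sub, hf m j hj hmj, zero_sub, mul_smul_comm, hEop, mul_add,
      Finset.mul_sum]
    have h1 : gi (vec ℂ (ee j)) * con (vec ℂ m + b) (W m) = 0 := by
      rw [hanti _ _ (by show ((m j : ℤ) : ℂ) + b j = 0; rw [hmj, hbS j hj]; simp), hWf m hmj,
        map_zero, neg_zero]
    have h2 : ∑ v ∈ F.support, gi (vec ℂ (ee j)) * (F v • con (vec ℂ v) (W (m - v))) = 0 := by
      refine Finset.sum_eq_zero fun v hv => ?_
      rw [mul_smul_comm]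
      rcases (hSF j hj v hv).lt_or_eq with h3 | h3
      · have h4 : W (m - v) = 0 := by
          by_contra h5
          have h6 := hSA j hj _ (hV.2 _ (hW1 _ h5).1)
          rw [Pi.sub_apply] at h6
          omega
        rw [h4, map_zero, mul_zero, smul_zero]
      · rw [hanti _ _ (by show ((v j : ℤ) : ℂ) = 0; rw [← h3]; simp),
          hWf (m - v) (by rw [Pi.sub_apply]; omega), map_zero, neg_zero, smul_zero]
    rw [h1, h2, add_zero, smul_zero, neg_zero]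
  · rw [rw_lin, Eop_Eop, Pi.zero_apply, smul_zero, sub_zero]
    exact hE m

private theorem rw_one {r : ℕ} (b : Fin r → ℂ) (F : (Fin r → ℤ) →₀ ℂ) (h : Fin r → ℤ)
    (hF : ∀ v ∈ F.support, 0 ≤ h ⬝ᵥ v) (q : ℤ) (hq : q ≤ 0)
    (hne : ∀ z : ℤ, (z : ℂ) + b ⬝ᵥ vec ℂ h ≠ 0)
    (A : Set (Fin r → ℤ)) (hA : ∀ v ∈ F.support, ∀ m ∈ A, m + v ∈ A)
    (S : List (Fin r)) (hbS : ∀ j ∈ S, b j = 1)
    (hSF : ∀ j ∈ S, ∀ v ∈ F.support, 0 ≤ v j) (hSA : ∀ j ∈ S, ∀ m ∈ A, -1 ≤ m j)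
    {V : LFun ℂ r} (hV : SuppIn A V) (hd : Deg 1 V)
    (hf : ∀ m, ∀ j ∈ S, m j = -1 → gi (vec ℂ (ee j)) * V m = 0) (β : ℂ)
    (hE : ∀ m, Eop b F V m = if m = 0 then algebraMap ℂ _ β else 0) :
    ∃ V' : LFun ℂ r, SuppIn {m | m ∈ A ∧ q ≤ h ⬝ᵥ m} V' ∧ Deg 1 V' ∧
      (∀ m, ∀ j ∈ S, m j = -1 → gi (vec ℂ (ee j)) * V' m = 0) ∧
      ∀ m, Eop b F V' m = if m = 0 then algebraMap ℂ _ β else 0 := by
  have main : ∀ (N : ℕ) (V : LFun ℂ r), SuppIn A V → (∀ m, V m ≠ 0 → q - N ≤ h ⬝ᵥ m) → Deg 1 V →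
      (∀ m, ∀ j ∈ S, m j = -1 → gi (vec ℂ (ee j)) * V m = 0) →
      (∀ m, Eop b F V m = if m = 0 then algebraMap ℂ _ β else 0) →
      ∃ V' : LFun ℂ r, SuppIn {m | m ∈ A ∧ q ≤ h ⬝ᵥ m} V' ∧ Deg 1 V' ∧
        (∀ m, ∀ j ∈ S, m j = -1 → gi (vec ℂ (ee j)) * V' m = 0) ∧
        ∀ m, Eop b F V' m = if m = 0 then algebraMap ℂ _ β else 0 := by
    intro N
    induction N with
    | zero =>
      intro V hV h1 hd hf hE
      exact ⟨V, ⟨hV.1, fun m hm => ⟨hV.2 m hm, by have := h1 m hm; simpa using this⟩⟩, hd, hf, hE⟩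
    | succ N ih =>
      intro V hV h1 hd hf hE
      obtain ⟨V', hV', h1', hd', hf', hE'⟩ := rw_step b F h hF (q - (N + 1 : ℕ)) (by push_cast; omega)
        (hne _) A hA S hbS hSF hSA hV h1 hd hf β hE
      exact ih V' hV' (fun m hm => by have := h1' m hm; push_cast at this ⊢; omega) hd' hf' hE'
  classical
  refine main (hV.1.toFinset.sup fun m => (q - h ⬝ᵥ m).toNat) V hV (fun m hm => ?_) hd hf hE
  have h1 : m ∈ hV.1.toFinset := by
    rw [Set.Finite.mem_toFinset]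
    exact hm
  have h2 : (q - h ⬝ᵥ m).toNat ≤ hV.1.toFinset.sup fun m => (q - h ⬝ᵥ m).toNat :=
    Finset.le_sup (f := fun m => (q - h ⬝ᵥ m).toNat) h1
  omega

/-- Raising the walls `h ∈ O` to `-h(a)`, `h(a) ≥ 0`: on the lowest level `h·m = p < -h(a) ≤ 0` of
`V` the part `V_p` is a cycle of the part of `Eop` that preserves the level (the exponents with
`h·v = 0`), and `{Eop, gi h} = p + h(b) ≠ 0` there: replace `V` by
`V - Eop (gi (vec h) * V_p) / (p + h(b))` (`Eop_Eop`).  `A` is a set of lattice points stable under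
the exponents.  Filled coordinates are preserved as in `Filled.EEb`. -/
theorem raise_walls {r : ℕ} (b : Fin r → ℚ) (F : (Fin r → ℤ) →₀ ℂ) (O : Finset (Fin r → ℤ))
    (hF : ∀ h ∈ O, ∀ v ∈ F.support, 0 ≤ h ⬝ᵥ v) (hO : ∀ h ∈ O, ∀ z : ℤ, qf h b ≠ z)
    (a : Fin r → ℚ) (ha : ∀ h ∈ O, 0 ≤ qf h a) (A : Set (Fin r → ℤ))
    (hA : ∀ v ∈ F.support, ∀ m ∈ A, m + v ∈ A) (S : List (Fin r)) (hbS : ∀ j ∈ S, b j = 1)
    (hSF : ∀ j ∈ S, ∀ v ∈ F.support, 0 ≤ v j) (hSA : ∀ j ∈ S, ∀ m ∈ A, -1 ≤ m j)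
    {V : LFun ℂ r} (hV : SuppIn A V) (hd : Deg 1 V)
    (hf : ∀ m, ∀ j ∈ S, m j = -1 → gi (vec ℂ (ee j)) * V m = 0) (β : ℂ)
    (hE : ∀ m, Eop (fun i => ((b i : ℚ) : ℂ)) F V m = if m = 0 then algebraMap ℂ _ β else 0) :
    ∃ V' : LFun ℂ r, SuppIn {m | m ∈ A ∧ ∀ h ∈ O, -qf h a ≤ ((h ⬝ᵥ m : ℤ) : ℚ)} V' ∧
      Deg 1 V' ∧ (∀ m, ∀ j ∈ S, m j = -1 → gi (vec ℂ (ee j)) * V' m = 0) ∧
      ∀ m, Eop (fun i => ((b i : ℚ) : ℂ)) F V' m = if m = 0 then algebraMap ℂ _ β else 0 := by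
  classical
  induction O using Finset.induction_on with
  | empty =>
    exact ⟨V, ⟨hV.1, fun m hm => ⟨hV.2 m hm, fun h hh => absurd hh (Finset.notMem_empty h)⟩⟩, hd,
      hf, hE⟩
  | insert h O' hh ih =>
    obtain ⟨V1, hV1, hd1, hf1, hE1⟩ := ih (fun h' h1 => hF h' (Finset.mem_insert_of_mem h1))
      (fun h' h1 => hO h' (Finset.mem_insert_of_mem h1))
      (fun h' h1 => ha h' (Finset.mem_insert_of_mem h1))
    have hmem : h ∈ insert h O' := Finset.mem_insert_self h O'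
    have hne : ∀ z : ℤ, (z : ℂ) + (fun i => ((b i : ℚ) : ℂ)) ⬝ᵥ vec ℂ h ≠ 0 := by
      intro z hz
      apply hO h hmem (-z)
      have h1 : (fun i => ((b i : ℚ) : ℂ)) ⬝ᵥ vec ℂ h = ((qf h b : ℚ) : ℂ) := by
        unfold qf vec dotProduct
        push_cast
        exact Finset.sum_congr rfl fun i _ => mul_comm _ _
      rw [h1] at hz
      have h2 : (((z : ℚ) + qf h b : ℚ) : ℂ) = ((0 : ℚ) : ℂ) := by
        push_cast
        exact hz
      have h3 : (z : ℚ) + qf h b = 0 := Rat.cast_injective h2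
      push_cast
      linarith
    obtain ⟨V', hV', hd', hf', hE'⟩ := rw_one (fun i => ((b i : ℚ) : ℂ)) F h (hF h hmem)
      ⌈-qf h a⌉ (Int.ceil_le.2 (by have := ha h hmem; push_cast; linarith)) hne
      {m | m ∈ A ∧ ∀ h' ∈ O', -qf h' a ≤ ((h' ⬝ᵥ m : ℤ) : ℚ)}
      (fun v hv m hm => ⟨hA v hv m hm.1, fun h' h1 => by
        have h2 := hm.2 h' h1
        have h3 := hF h' (Finset.mem_insert_of_mem h1) v hv
        rw [dotProduct_add]
        have h4 : (0 : ℚ) ≤ ((h' ⬝ᵥ v : ℤ) : ℚ) := by exact_mod_cast h3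
        push_cast
        linarith⟩) S (fun j hj => by rw [hbS j hj]; simp) hSF (fun j hj m hm => hSA j hj m hm.1)
      hV1 hd1 hf1 β hE1
    refine ⟨V', ⟨hV'.1, fun m hm => ?_⟩, hd', hf', hE'⟩
    obtain ⟨⟨h1, h2⟩, h3⟩ := hV'.2 m hm
    refine ⟨h1, fun h' h4 => ?_⟩
    rcases Finset.mem_insert.1 h4 with h5 | h5
    · subst h5
      exact Int.ceil_le.1 h3
    · exact h2 h' h5

end MPb07157T
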