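import Pool.Agent.Lib.MP_b07157_agN.OutC

/-!
# The part of degree zero in the new variable
-/

noncomputable section

namespace MPb07157T

open Finset Matrix

variable {n : ℕ}

theorem cay_neg (F : (Fin n → ℤ) →₀ ℂ) (M : ℕ) (g : Fin n → ℂ) (v : Fin (n + 1) → ℤ)
    (hv : v 0 < 0) : Cay F M g v = 0 := by
  unfold Cay
  rw [Finsupp.add_apply, Finsupp.mapDomain_notin_range, Finsupp.mapDomain_notin_range, add_zero]
  · rintro ⟨u, rfl⟩
    simp [c1] at hv
  · rintro ⟨u, rfl⟩
    simp [c0] at hv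

theorem fs_cay_c0 (F : (Fin n → ℤ) →₀ ℂ) (M : ℕ) (g : Fin n → ℂ) (κ : (Fin n → ℤ) × ℤ)
    (v : Fin n → ℤ) : Fs (cw κ) (Cay F M g) (c0 v) = Fs κ F v := by
  classical
  unfold Fs
  rw [Finsupp.filter_apply, Finsupp.filter_apply, cw_dot_c0, Cay_c0]
  rfl

theorem fs_cay_neg (F : (Fin n → ℤ) →₀ ℂ) (M : ℕ) (g : Fin n → ℂ) (κ : (Fin n → ℤ) × ℤ)
    (v : Fin (n + 1) → ℤ) (hv : v 0 < 0) : Fs (cw κ) (Cay F M g) v = 0 := by
  classical
  unfold Fs
  rw [Finsupp.filter_apply, cay_neg F M g v hv, ite_self]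

theorem eq_c0 {v : Fin (n + 1) → ℤ} (hv : v 0 = 0) : v = c0 (Fin.tail v) := by
  unfold c0
  rw [← hv]
  exact (Fin.cons_self_tail v).symm

theorem c0_sub (v w : Fin n → ℤ) : c0 v - c0 w = c0 (v - w) := by
  funext i
  refine Fin.cases ?_ (fun j => ?_) i
  · simp [c0]
  · simp [c0]

/-- The part of degree zero in the new variable of a unit relation for the Cayley polynomial. -/
theorem proj_unit {F : (Fin n → ℤ) →₀ ℂ} {M : ℕ} {g : Fin n → ℂ} {κ : (Fin n → ℤ) × ℤ}
    {u : Fin (n + 1) → LP ℂ (n + 1)} (h1 : ∑ l, u l * thF (Fs (cw κ) (Cay F M g)) l = 1)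
    (h2 : ∀ l, ∀ m ∈ (u l).coeff.support, 0 ≤ m 0) :
    ∃ u' : Fin n → LP ℂ n, ∑ j, u' j * thF (Fs κ F) j = 1 ∧
      ∀ j, ∀ m ∈ (u' j).coeff.support, c0 m ∈ (u j.succ).coeff.support := by
  classical
  refine ⟨fun j => AddMonoidAlgebra.ofCoeff ((u j.succ).coeff.comapDomain c0
    c0_injective.injOn), ?_, ?_⟩
  · ext m
    have h3 := congrArg (fun x => x.coeff (c0 m)) h1
    simp only [AddMonoidAlgebra.coeff_sum, Finsupp.finsetSum_apply, coeff_mul_thF] at h3 ⊢
    rw [Fin.sum_univ_succ] at h3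
    have key : ∀ l : Fin (n + 1), ∑ v ∈ (u l).coeff.support, (u l).coeff v *
        (((c0 m - v) l : ℤ) : ℂ) * Fs (cw κ) (Cay F M g) (c0 m - v) =
        ∑ v ∈ ((u l).coeff.comapDomain c0 c0_injective.injOn).support,
          (u l).coeff (c0 v) * (((c0 (m - v)) l : ℤ) : ℂ) * Fs κ F (m - v) := by
      intro l
      have e1 : ∀ v : Fin n → ℤ, (u l).coeff (c0 v) * (((c0 (m - v)) l : ℤ) : ℂ) * Fs κ F (m - v) =
          (fun v => (u l).coeff v * (((c0 m - v) l : ℤ) : ℂ) *
            Fs (cw κ) (Cay F M g) (c0 m - v)) (c0 v) := by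
        intro v
        simp only [c0_sub, fs_cay_c0]
      rw [Finset.sum_congr rfl fun v _ => e1 v,
        ← Finset.sum_image (s := ((u l).coeff.comapDomain c0 c0_injective.injOn).support)
          (g := c0) (f := fun v => (u l).coeff v * (((c0 m - v) l : ℤ) : ℂ) *
            Fs (cw κ) (Cay F M g) (c0 m - v)) (fun _ _ _ _ h => c0_injective h)]
      symm
      refine Finset.sum_subset ?_ ?_
      · intro v hv
        obtain ⟨w, hw, rfl⟩ := Finset.mem_image.1 hv
        rw [Finsupp.mem_support_iff, Finsupp.comapDomain_apply] at hw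
        exact Finsupp.mem_support_iff.2 hw
      · intro v hv hv'
        have h4 := h2 l v hv
        have h5 : v 0 ≠ 0 := by
          intro h5
          apply hv'
          rw [eq_c0 h5]
          refine Finset.mem_image_of_mem _ ?_
          rw [Finsupp.mem_support_iff, Finsupp.comapDomain_apply, ← eq_c0 h5]
          exact Finsupp.mem_support_iff.1 hv
        rw [fs_cay_neg F M g κ (c0 m - v), mul_zero]
        show (c0 m) 0 - v 0 < 0
        have h6 : c0 m 0 = 0 := by simp [c0]
        omega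
    have key0 : ∑ v ∈ (u 0).coeff.support, (u 0).coeff v *
        (((c0 m - v) 0 : ℤ) : ℂ) * Fs (cw κ) (Cay F M g) (c0 m - v) = 0 := by
      rw [key 0]
      refine Finset.sum_eq_zero fun v _ => ?_
      have h6 : c0 (m - v) 0 = 0 := by simp [c0]
      rw [h6, Int.cast_zero, mul_zero, zero_mul]
    rw [key0, zero_add] at h3
    have h7 : ∀ j : Fin n, ∑ v ∈ (AddMonoidAlgebra.ofCoeff ((u j.succ).coeff.comapDomain c0
        c0_injective.injOn) : LP ℂ n).coeff.support,
        (AddMonoidAlgebra.ofCoeff ((u j.succ).coeff.comapDomain c0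
          c0_injective.injOn) : LP ℂ n).coeff v * (((m - v) j : ℤ) : ℂ) * Fs κ F (m - v) =
        ∑ v ∈ (u j.succ).coeff.support, (u j.succ).coeff v *
        (((c0 m - v) j.succ : ℤ) : ℂ) * Fs (cw κ) (Cay F M g) (c0 m - v) := by
      intro j
      rw [key j.succ]
      refine Finset.sum_congr rfl fun v _ => ?_
      have h8 : c0 (m - v) j.succ = (m - v) j := by simp [c0]
      rw [h8]
      rfl
    rw [Finset.sum_congr rfl fun j _ => h7 j, h3, AddMonoidAlgebra.one_def,
      AddMonoidAlgebra.one_def, AddMonoidAlgebra.coeff_single, AddMonoidAlgebra.coeff_single,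
      Finsupp.single_apply, Finsupp.single_apply]
    have h9 : (0 : Fin (n + 1) → ℤ) = c0 m ↔ (0 : Fin n → ℤ) = m := by
      constructor
      · intro h
        funext j
        have := congrFun h j.succ
        simpa [c0] using this
      · rintro rfl
        funext i
        refine Fin.cases ?_ (fun j => ?_) i <;> simp [c0]
    simp only [h9]
  · intro j m hm
    have h3 : m ∈ ((u j.succ).coeff.comapDomain c0 c0_injective.injOn).support := hm
    rw [Finsupp.mem_support_iff, Finsupp.comapDomain_apply] at h3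
    exact Finsupp.mem_support_iff.2 h3

end MPb07157T
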