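import Pool.Agent.Lib.MP_b07157_agT.W2
import Pool.Agent.Lib.MP_b07157_agN.CDefs

/-!
# Finitely many weights cut out the Newton polyhedron (no convenience)
-/

noncomputable section

namespace MPb07157T

open Finset Matrix

variable {n : ℕ}

private theorem wn_rdot_cons (a : Fin (n + 1) → ℤ) (c : ℝ) (q : Fin n → ℝ) :
    rdot a (Fin.cons c q : Fin (n + 1) → ℝ) = (a 0 : ℝ) * c + rdot (Fin.tail a) q := by
  simp only [rdot, Fin.sum_univ_succ, Fin.cons_zero, Fin.cons_succ, Fin.tail]

/-- As `exists_weights`, without `Convenient` (the weights are only nonnegative). -/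
theorem exists_weightsN (f : MvPolynomial (Fin n) ℂ) (S₀ : Finset ((Fin n → ℤ) × ℤ))
    (hS₀ : ∀ σ ∈ S₀, Wt f σ) :
    ∃ Sg : Finset ((Fin n → ℤ) × ℤ), S₀ ⊆ Sg ∧ CutsOut Sg f ∧ ∀ σ ∈ Sg, Wt f σ := by
  classical
  set S1 : Finset (Fin (n + 1) → ℤ) := (Fc f).support.image fun v => Fin.cons (1 : ℤ) v with hS1
  set S2 : Finset (Fin (n + 1) → ℤ) :=
    (Finset.univ : Finset (Fin n)).image fun l => Fin.cons (0 : ℤ) (Pi.single l (1 : ℤ)) with hS2
  obtain ⟨A, hA⟩ := weyl (S1 ∪ S2)
  have hdisj : Disjoint S1 S2 := by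
    rw [Finset.disjoint_left]
    intro w h1 h2
    rw [hS1, Finset.mem_image] at h1
    rw [hS2, Finset.mem_image] at h2
    obtain ⟨v, _, rfl⟩ := h1
    obtain ⟨l, _, hl⟩ := h2
    have := congrFun hl 0
    simp at this
  -- the forms are nonnegative on the generators
  have hgen : ∀ a ∈ A, ∀ w ∈ S1 ∪ S2, 0 ≤ a ⬝ᵥ w := by
    intro a ha w hw
    have h := (hA (fun i => (w i : ℝ))).mp ⟨fun v => if v = w then 1 else 0, by
      intro v _
      dsimp only
      split_ifs <;> norm_num, by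
      simp [ite_smul, Finset.sum_ite_eq', hw]⟩ a ha
    have h2 : rdot a (fun i => (w i : ℝ)) = ((a ⬝ᵥ w : ℤ) : ℝ) := by
      simp [rdot, dotProduct]
    rw [h2] at h
    exact_mod_cast h
  have hgen1 : ∀ a ∈ A, ∀ v ∈ (Fc f).support, 0 ≤ a 0 + Fin.tail a ⬝ᵥ v := by
    intro a ha v hv
    have h := hgen a ha (Fin.cons (1 : ℤ) v)
      (Finset.mem_union_left _ (Finset.mem_image_of_mem _ hv))
    have h2 : a ⬝ᵥ (Fin.cons (1 : ℤ) v : Fin (n + 1) → ℤ) = a 0 + Fin.tail a ⬝ᵥ v := by
      simp only [dotProduct, Fin.sum_univ_succ, Fin.cons_zero, Fin.cons_succ, Fin.tail, mul_one]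
    rwa [h2] at h
  have hgen2 : ∀ a ∈ A, ∀ l : Fin n, 0 ≤ Fin.tail a l := by
    intro a ha l
    have h := hgen a ha (Fin.cons (0 : ℤ) (Pi.single l (1 : ℤ)))
      (Finset.mem_union_right _ (Finset.mem_image_of_mem _ (Finset.mem_univ l)))
    have h2 : a ⬝ᵥ (Fin.cons (0 : ℤ) (Pi.single l (1 : ℤ)) : Fin (n + 1) → ℤ) = Fin.tail a l := by
      simp only [dotProduct, Fin.sum_univ_succ, Fin.cons_zero, Fin.cons_succ, Fin.tail, mul_zero,
        zero_add]
      rw [Finset.sum_eq_single l]
      · simp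
      · intro b _ hb
        simp [hb]
      · intro h
        exact absurd (Finset.mem_univ l) h
    rwa [h2] at h
  set Sg : Finset ((Fin n → ℤ) × ℤ) :=
    S₀ ∪ (A.filter fun a => a 0 < 0).image fun a => (Fin.tail a, -a 0) with hSg
  refine ⟨Sg, Finset.subset_union_left, ?_, ?_⟩
  · intro q hq hqS
    have hcone : ∀ a ∈ A, 0 ≤ rdot a (Fin.cons (1 : ℝ) q : Fin (n + 1) → ℝ) := by
      intro a ha
      rw [wn_rdot_cons, mul_one]
      by_cases h0 : a 0 < 0
      · have h := hqS (Fin.tail a, -a 0) (Finset.mem_union_right _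
          (Finset.mem_image_of_mem _ (Finset.mem_filter.mpr ⟨ha, h0⟩)))
        simp only [Int.cast_neg] at h
        linarith
      · have h1 : (0 : ℝ) ≤ (a 0 : ℝ) := by exact_mod_cast not_lt.mp h0
        have h2 : 0 ≤ rdot (Fin.tail a) q := by
          rw [rdot]
          refine Finset.sum_nonneg fun i _ => mul_nonneg ?_ (hq i)
          exact_mod_cast hgen2 a ha i
        linarith
    obtain ⟨l, hl0, hl⟩ := (hA _).mpr hcone
    have hinj1 : Function.Injective fun v : Fin n → ℤ => (Fin.cons (1 : ℤ) v : Fin (n + 1) → ℤ) := by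
      intro v w h
      funext i
      have := congrFun h i.succ
      simpa using this
    refine ⟨fun v => l (Fin.cons (1 : ℤ) v), ?_, ?_, ?_⟩
    · intro v hv
      exact hl0 _ (Finset.mem_union_left _ (Finset.mem_image_of_mem _ hv))
    · have h := congrFun hl 0
      rw [Finset.sum_union hdisj] at h
      simp only [Fin.cons_zero, Pi.add_apply, Finset.sum_apply, Pi.smul_apply, smul_eq_mul] at h
      rw [hS1, Finset.sum_image (fun _ _ _ _ h => hinj1 h)] at h
      rw [show (∑ c ∈ S2, l c * ((c 0 : ℤ) : ℝ)) = 0 from by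
        refine Finset.sum_eq_zero fun c hc => ?_
        rw [hS2, Finset.mem_image] at hc
        obtain ⟨j, _, rfl⟩ := hc
        simp] at h
      simp only [Fin.cons_zero, Int.cast_one, mul_one, add_zero] at h
      exact h.symm
    · intro j
      have h := congrFun hl j.succ
      rw [Finset.sum_union hdisj] at h
      simp only [Fin.cons_succ, Pi.add_apply, Finset.sum_apply, Pi.smul_apply, smul_eq_mul] at h
      rw [hS1, Finset.sum_image (fun _ _ _ _ h => hinj1 h)] at h
      simp only [Fin.cons_succ] at h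
      have h2 : 0 ≤ ∑ c ∈ S2, l c * ((c j.succ : ℤ) : ℝ) := by
        refine Finset.sum_nonneg fun c hc => mul_nonneg (hl0 c (Finset.mem_union_right _ hc)) ?_
        rw [hS2, Finset.mem_image] at hc
        obtain ⟨i, _, rfl⟩ := hc
        simp only [Fin.cons_succ, Pi.single_apply]
        split_ifs <;> simp
      linarith
  · intro σ hσ
    rw [hSg, Finset.mem_union] at hσ
    rcases hσ with hσ | hσ
    · exact hS₀ σ hσ
    · rw [Finset.mem_image] at hσ
      obtain ⟨a, ha, rfl⟩ := hσ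
      rw [Finset.mem_filter] at ha
      have hv : ∀ v ∈ (Fc f).support, -a 0 ≤ Fin.tail a ⬝ᵥ v := by
        intro v hv
        have := hgen1 a ha.1 v hv
        linarith
      exact ⟨by simpa using ha.2, fun j => hgen2 a ha.1 j, hv⟩

end MPb07157T
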