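import Pool.Agent.Lib.MP_b07157_agN.Wok
import Pool.Agent.Lib.MP_b07157_agN.Gam
import Pool.Agent.Lib.MP_b07157_agN.Weights
import Pool.Agent.Lib.MP_b07157_agN.FaceC
import Pool.Agent.Lib.MP_b07157_agN.Raise
import Pool.Agent.Lib.MP_b07157_agN.E1C
import Pool.Agent.Lib.MP_b07157_agN.LP
import Pool.Agent.Lib.MP_b07157_agN.Pert
import Pool.Agent.Lib.MP_b07157_agN.Ones
import Pool.Agent.Lib.MP_b07157_agN.RootA
import Pool.Agent.Lib.MP_b07157_agG.Cor
import Pool.Agent.Lib.MP_b07157_agZ.A2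

/-!
# Good sets give roots
-/

noncomputable section

namespace MPb07157Z

open Finset Matrix MvPolynomial MPb07157 MPb07157T MPb07157F

variable {n : ℕ}

/-- A rational number that avoids the resonances. -/
theorem exists_t (O : Finset (Fin (n + 1) → ℤ)) (hO : ∀ h ∈ O, 0 < h 0) :
    ∃ t : ℚ, ∀ h ∈ O, ∀ z : ℤ, qf h (bq n t) ≠ z := by
  classical
  obtain ⟨B, hB⟩ : ∃ B : ℕ, ∀ h ∈ O, h 0 ≤ B := by
    refine ⟨O.sup fun h => (h 0).toNat, fun h hh => ?_⟩
    have h1 : (h 0).toNat ≤ O.sup fun h => (h 0).toNat :=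
      Finset.le_sup (f := fun h : Fin (n + 1) → ℤ => (h 0).toNat) hh
    have h2 := Int.self_le_toNat (h 0)
    exact h2.trans (by exact_mod_cast h1)
  refine ⟨1 / (B + 1), fun h hh z hz => ?_⟩
  unfold qf bq at hz
  rw [Fin.sum_univ_succ] at hz
  simp only [Fin.cons_zero, Fin.cons_succ, mul_one] at hz
  have h1 : (0 : ℚ) < (B : ℚ) + 1 := by positivity
  have h2 : ((h 0 : ℤ) : ℚ) = (B + 1) * ((∑ i : Fin n, (h i.succ : ℚ)) - z) := by
    field_simp at hz
    linarith
  have h3 : h 0 = ((B : ℤ) + 1) * ((∑ i : Fin n, h i.succ) - z) := by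
    have : ((h 0 : ℤ) : ℚ) = ((((B : ℤ) + 1) * ((∑ i : Fin n, h i.succ) - z) : ℤ) : ℚ) := by
      rw [h2]
      push_cast
      rfl
    exact_mod_cast this
  have h4 := hO h hh
  have h5 := hB h hh
  rcases lt_trichotomy ((∑ i : Fin n, h i.succ) - z) 0 with h6 | h6 | h6
  · nlinarith
  · rw [h6, mul_zero] at h3
    omega
  · nlinarith

/-- **Good sets give roots**, without convenience.

Proof.  As `root_of_good` (`A2.lean`).  Suppose `b(s₀) ≠ 0`.  `κ = kof w N`; `exists_weightsN` for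
`{κ}`; `exists_gam`; `M = 2 n + 2`; `exists_wokc` gives `Ho`, `O`; `t` a rational number with
`qf h (bq n t) ∉ ℤ` for `h ∈ O` (possible since `h 0 ≠ 0`); `exists_yaP`, `exists_aC` for
`H = Ho (cw κ)`; `face_identityC` gives `V`, `raise_walls` (for `O`, `A = MMc Sg κ a`) gives `V'`,
`e1_cone` gives `∑ u_l θ_l F = 1` for the Cayley face `F`.  All `m` in the supports have `m 0 ≥ 0`
(`a 0 < 1`); the part with `x₀`-exponent zero is `∑_{l} u_l⁰ θ_l f_G = 1` in `n` variables
(`G = face f w N`); `ones_of_memC`: `u_l⁰ = 0` unless `y l = 1`; `no_unit` gives a contradiction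
(`h4` from `hall` by `cert_of_torus`, see `cert_face_of_nondeg`). -/
theorem root_of_goodP {f : MvPolynomial (Fin n) ℂ} (hf : f ≠ 0)
    (h0 : (0 : Fin n →₀ ℕ) ∉ f.support) (hall : NDall f) {w : Fin n → ℕ} {N : ℕ} (hN : 0 < N)
    (hmin : ∀ v ∈ f.support, N ≤ wt w v) {P : Finset (Fin n)} (hP : ∀ j, j ∈ P ↔ 0 < w j)
    {ρ : Finset (Fin n →₀ ℕ)} {γ : (Fin n →₀ ℕ) → ℚ} (hg : GoodP P (face f w N) ρ γ) {s₀ : ℚ}
    (hs : ∑ v ∈ ρ, γ v = -s₀) (b : Polynomial ℂ) (hb : IsBernsteinSato f b) :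
    b.eval (s₀ : ℂ) = 0 := by
  classical
  by_contra hβ
  set κ := kof w N with hκdef
  have hκ2 : κ.2 = (N : ℤ) := rfl
  have hκ1 : ∀ j, κ.1 j = (w j : ℤ) := fun j => rfl
  have hfc : ∀ v ∈ (Fc f).support, (N : ℤ) ≤ κ.1 ⬝ᵥ v := by
    intro v hv
    obtain ⟨v', hv', rfl⟩ := mem_Fc_support.1 hv
    rw [hκdef, kof_dot]
    exact_mod_cast hmin v' hv'
  have hκW : Wt f κ := ⟨by rw [hκ2]; exact_mod_cast hN, fun j => by rw [hκ1]; positivity, hfc⟩
  obtain ⟨Sg, hS₀, hcut, hSg⟩ := exists_weightsN f {κ} (by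
    intro σ hσ
    rw [Finset.mem_singleton] at hσ
    rw [hσ]
    exact hκW)
  have hκ : κ ∈ Sg := hS₀ (Finset.mem_singleton_self _)
  obtain ⟨g, hgen⟩ := exists_gam f
  have hg0 : ∀ j, g j ≠ 0 := fun j => (hgen j).1
  have hM1 : 1 ≤ 2 * n + 2 := by omega
  obtain ⟨Ho, hW, hHo⟩ := exists_wokc hall hM1 hgen hcut hSg
  obtain ⟨O, hHoO, hee0, hOpos, hcone⟩ := hHo κ hκ
  obtain ⟨t, ht⟩ := exists_t O hOpos
  have hκ' : cw κ ∈ Sg.image cw := Finset.mem_image_of_mem _ hκ
  have hHF := hW.hF (cw κ) hκ'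
  set G := face f w N with hG
  obtain ⟨y, α, hα, ha1, hay, hy0, hyP, hyv, hd1, hd2, hdef⟩ := exists_yaP hg
  obtain ⟨a, haj, hay', ha00, ha01, haH, hagen, had⟩ := exists_aC hN hP hg (M := 2 * n + 2) le_rfl
    hg0 t (Ho (cw κ)) hHF hα ha1 hay hyP hd1 hd2
  set S : List (Fin n) := (Finset.univ.filter fun j => 0 < y j).toList with hS
  have hmemS : ∀ j, j ∈ S ↔ 0 < y j := by
    intro j
    rw [hS, Finset.mem_toList, Finset.mem_filter]
    simp
  have hmemsS : ∀ i, i ∈ sS S ↔ ∃ j, 0 < y j ∧ i = j.succ := by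
    intro i
    unfold sS
    rw [List.mem_map]
    constructor
    · rintro ⟨j, hj, rfl⟩
      exact ⟨j, (hmemS j).1 hj, rfl⟩
    · rintro ⟨j, hj, rfl⟩
      exact ⟨j, (hmemS j).2 hj, rfl⟩
  -- the candidate root
  have hs₀ : s₀ * κ.2 = -∑ j, (κ.1 j : ℚ) := by
    have h1 : ∑ j, (w j : ℚ) = N * (-s₀) := by
      rw [← hs, Finset.mul_sum]
      have h2 : ∀ j, (w j : ℚ) = ∑ v ∈ ρ, γ v * ((w j : ℚ) * (v j : ℚ)) := by
        intro j
        by_cases hj : j ∈ P
        · have h3 := hg.one j hj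
          calc (w j : ℚ) = (w j : ℚ) * ∑ v ∈ ρ, γ v * (v j : ℚ) := by rw [h3, mul_one]
            _ = _ := by
              rw [Finset.mul_sum]
              exact Finset.sum_congr rfl fun v _ => by ring
        · have h3 : w j = 0 := by
            by_contra h4
            exact hj ((hP j).2 (Nat.pos_of_ne_zero h4))
          rw [h3]
          simp
      rw [Finset.sum_congr rfl fun j _ => h2 j, Finset.sum_comm]
      refine Finset.sum_congr rfl fun v hv => ?_
      have h3 : wt w v = N := (Finset.mem_filter.1 (hg.sub hv)).2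
      rw [← Finset.mul_sum]
      have h4 : ∑ j, (w j : ℚ) * (v j : ℚ) = N := by
        rw [← h3]
        unfold wt
        push_cast
        rfl
      rw [h4]
      ring
    have h3 : ∑ j, (κ.1 j : ℚ) = ∑ j, (w j : ℚ) :=
      Finset.sum_congr rfl fun j _ => by rw [hκ1]; push_cast; rfl
    rw [h3, h1, hκ2]
    push_cast
    ring
  have hsubH : ∀ h ∈ H2c (CC n) (Sg.image cw) (cw κ), h ∈ Ho (cw κ) := by
    intro h hh
    rw [hHoO]
    exact Finset.mem_union_left _ hh
  have haS' : ∀ τ ∈ Sg, 0 ≤ qf (et (cw κ) (cw τ)) a := by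
    intro τ hτ
    exact haH _ (hsubH _ (Finset.mem_union_left _
      (Finset.mem_image_of_mem _ (Finset.mem_image_of_mem _ hτ))))
  obtain ⟨V, hV, hV1, hV2, hV3⟩ := face_identityC hf hM1 hSg hW hb hκ t a haj haS' S
    (Finset.nodup_toList _) (fun j hj => hay' j ((hmemS j).1 hj)) s₀ hs₀
  -- raise the outer walls
  have hFs : ∀ v ∈ (Fs (cw κ) (Cay (Fc f) (2 * n + 2) g)).support,
      v ∈ (Cay (Fc f) (2 * n + 2) g).support ∧ (cw κ).1 ⬝ᵥ v = (cw κ).2 := by
    intro v hv
    unfold Fs at hv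
    rw [Finsupp.support_filter, Finset.mem_filter] at hv
    exact hv
  have hbS : ∀ j ∈ sS S, bq n t j = 1 := by
    intro j hj
    obtain ⟨i, -, rfl⟩ := (hmemsS j).1 hj
    unfold bq
    rw [Fin.cons_succ]
  have haS2 : ∀ j ∈ sS S, a j = 1 := by
    intro j hj
    obtain ⟨i, hi, rfl⟩ := (hmemsS j).1 hj
    exact hay' i hi
  have heeC : ∀ j : Fin n, ee j.succ ∈ H2c (CC n) (Sg.image cw) (cw κ) := fun j =>
    Finset.mem_union_right _ (Finset.mem_image_of_mem _
      (Finset.mem_image_of_mem _ (Finset.mem_univ j)))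
  have heedot : ∀ (r : ℕ) (l : Fin r) (v : Fin r → ℤ), ee l ⬝ᵥ v = v l := by
    intro r l v
    unfold ee
    simp
  have hqee : ∀ (r : ℕ) (l : Fin r) (v : Fin r → ℚ), qf (ee l) v = v l := by
    intro r l v
    unfold qf ee
    rw [Finset.sum_eq_single l]
    · simp
    · intro i _ hi
      simp [hi]
    · intro h
      exact absurd (Finset.mem_univ l) h
  obtain ⟨V', hV', hV1', hV2', hV3'⟩ := raise_walls (bq n t)
    (Fs (cw κ) (Cay (Fc f) (2 * n + 2) g)) O
    (fun h hh v hv => hHF h (by rw [hHoO]; exact Finset.mem_union_right _ hh) v hv) ht a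
    (fun h hh => haH h (by rw [hHoO]; exact Finset.mem_union_right _ hh)) (MMc Sg κ a) (by
      intro v hv m hm
      obtain ⟨hm1, hm2⟩ := hm
      refine ⟨?_, fun h hh => ?_⟩
      · rw [dotProduct_add, (hFs v hv).2]
        exact dvd_add hm1 (dvd_refl _)
      · rw [dotProduct_add]
        have h1 := hm2 h hh
        have h2 : (0 : ℚ) ≤ ((h ⬝ᵥ v : ℤ) : ℚ) := by exact_mod_cast hHF h (hsubH h hh) v hv
        push_cast
        push_cast at h1
        linarith) (sS S) hbS (by
      intro j hj v hv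
      exact hW.nonneg v (hFs v hv).1 j) (by
      intro j hj m hm
      obtain ⟨i, hi, rfl⟩ := (hmemsS j).1 hj
      have h1 := hm.2 _ (heeC i)
      rw [hqee, heedot, hay' i hi] at h1
      exact_mod_cast h1) hV hV1 hV2 (b.eval (s₀ : ℂ)) hV3
  -- from the operator to the symbol
  obtain ⟨u, hu1, hu2⟩ := e1_cone (Fs (cw κ) (Cay (Fc f) (2 * n + 2) g)) (cw κ)
    (by show (0 : ℤ) < κ.2; rw [hκ2]; exact_mod_cast hN) (fun v hv => (hFs v hv).2) (Ho (cw κ))
    hHF hcone (hW.nd (cw κ) hκ') (bq n t) a haH hagen (sS S) (fun j _ => hW.all (cw κ) hκ' j)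
    haS2 hbS (b.eval (s₀ : ℂ)) hβ V' (by
      refine ⟨hV'.1, fun m hm => ?_⟩
      obtain ⟨⟨h1, h2⟩, h3⟩ := hV'.2 m hm
      refine ⟨h1, fun h hh => ?_⟩
      rw [hHoO] at hh
      rcases Finset.mem_union.1 hh with hh | hh
      · exact h2 h hh
      · exact h3 h hh) hV1' hV2' hV3'
  -- the part of degree zero in the new variable
  obtain ⟨u', hu1', hu2'⟩ := proj_unit hu1 (fun l m hm => by
    have h1 := (hu2 l m hm).1 (ee 0) (hW.all (cw κ) hκ' 0)
    rw [hqee, heedot] at h1
    by_contra h2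
    have h3 : m 0 ≤ -1 := by omega
    have h4 : ((m 0 : ℤ) : ℚ) ≤ -1 := by exact_mod_cast h3
    linarith)
  -- only the `l` with `y l = 1` matter
  have hyle : ∀ j, y j ≤ 1 := by
    intro j
    by_cases hj : j ∈ P
    · obtain ⟨v, hv, hvj⟩ : ∃ v ∈ ρ, v j ≠ 0 := by
        by_contra hcon
        push Not at hcon
        have h1 := hg.one j hj
        rw [Finset.sum_eq_zero fun v hv => by rw [hcon v hv]; simp] at h1
        exact zero_ne_one h1
      have h1 := hyv v (hg.sub hv)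
      have h2 : y j * (v j : ℚ) ≤ qd y v := by
        unfold qd
        exact Finset.single_le_sum (f := fun i => y i * (v i : ℚ))
          (fun i _ => mul_nonneg (hy0 i) (by positivity)) (Finset.mem_univ j)
      have h3 : (1 : ℚ) ≤ (v j : ℚ) := by exact_mod_cast Nat.one_le_iff_ne_zero.2 hvj
      have h4 := hy0 j
      nlinarith
    · rw [hyP j hj]
      exact zero_le_one
  set J1 : Finset (Fin n) := Finset.univ.filter fun j => y j = 1 with hJ1
  have hu0 : ∀ l, l ∉ J1 → u' l = 0 := by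
    intro l hl
    by_contra hne
    obtain ⟨m, hm⟩ : ∃ m, m ∈ (u' l).coeff.support := by
      by_contra hcon
      push Not at hcon
      apply hne
      ext m
      have := hcon m
      rw [Finsupp.mem_support_iff, not_not] at this
      simpa using this
    obtain ⟨hm1, hmd, hmS⟩ := hu2 l.succ _ (hu2' l m hm)
    have h1 := ones_of_memC hN hP hM1 hg0 (hW.all (cw κ) hκ') hcone hy0 hyP hyv hay' had
      (m := MPb07157T.c0 m) (l := l) hm1 (by simp [MPb07157T.c0]) hmd
      (fun j hj hjl => hmS j.succ ((hmemsS _).2 ⟨j, hj, rfl⟩)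
        (fun h => hjl (Fin.succ_injective _ h)))
    exact hl (Finset.mem_filter.2 ⟨Finset.mem_univ _, le_antisymm (hyle l) h1⟩)
  have hsum : ∑ l ∈ J1, u' l * thF (toF f G) l = 1 := by
    rw [← hu1', ← Fs_kof]
    refine Finset.sum_subset (Finset.subset_univ _) fun l _ hl => ?_
    rw [hu0 l hl, zero_mul]
  have hle1 : ∀ v ∈ G, ∑ j ∈ J1, v j ≤ 1 := by
    intro v hv
    have h1 := hyv v hv
    have h2 : ((∑ j ∈ J1, v j : ℕ) : ℚ) ≤ qd y v := by
      unfold qd
      push_cast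
      calc ∑ j ∈ J1, (v j : ℚ) = ∑ j ∈ J1, y j * (v j : ℚ) := by
            refine Finset.sum_congr rfl fun j hj => ?_
            rw [(Finset.mem_filter.1 hj).2, one_mul]
        _ ≤ _ := Finset.sum_le_sum_of_subset_of_nonneg (Finset.subset_univ _)
            fun j _ _ => mul_nonneg (hy0 j) (by positivity)
    exact_mod_cast h2.trans h1
  -- the face is not empty
  have hGne : G.Nonempty := by
    rcases ρ.eq_empty_or_nonempty with rfl | ⟨v, hv⟩
    · exfalso
      have hPe : ∀ j, w j = 0 := by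
        intro j
        by_contra h4
        have h5 := hg.one j ((hP j).2 (Nat.pos_of_ne_zero h4))
        simp at h5
      obtain ⟨v, hv⟩ := MvPolynomial.support_nonempty.2 hf
      have h6 := hmin v hv
      have h7 : wt w v = 0 := by
        unfold wt
        exact Finset.sum_eq_zero fun j _ => by rw [hPe j, zero_mul]
      omega
    · exact ⟨v, hg.sub hv⟩
  have hnuf : nuf f w = N := by
    obtain ⟨v, hv⟩ := hGne
    exact nuf_eq_of_isMinWt ⟨hmin, v, (Finset.mem_filter.1 hv).1, (Finset.mem_filter.1 hv).2⟩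
  refine MPb07157G.no_unit f G (Finset.filter_subset _ _) J1 ?_ ?_ ?_ ?_ u' hsum
  · intro v hv l hl
    exact (Finset.single_le_sum (f := fun j => v j) (fun _ _ => Nat.zero_le _) hl).trans (hle1 v hv)
  · intro v hv l hl l' hl' h1 h2
    by_contra hne
    have h3 : ∑ j ∈ ({l, l'} : Finset (Fin n)), v j ≤ ∑ j ∈ J1, v j :=
      Finset.sum_le_sum_of_subset (by
        intro j hj
        rcases Finset.mem_insert.1 hj with rfl | hj
        · exact hl
        · rw [Finset.mem_singleton.1 hj]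
          exact hl')
    rw [Finset.sum_pair hne, h1, h2] at h3
    have := hle1 v hv
    omega
  · intro J hJ
    rcases J.eq_empty_or_nonempty with rfl | hne
    · simp
    · exact hdef J (fun j hj => (Finset.mem_filter.1 (hJ hj)).2) hne
  · intro c I hI hne h5 h6
    have hN' : 0 < nuf f w := by rw [hnuf]; exact hN
    have h7 := hall w hN' c
    rw [hnuf] at h7
    have h8 : fc (face f w N) c = I := by
      ext v
      unfold fc
      rw [Finset.mem_filter]
      constructor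
      · rintro ⟨hv, h9⟩
        refine h6 v hv fun v₁ hv₁ => ?_
        exact le_antisymm (h5 v₁ hv₁ v hv) (h9 v₁ (hI hv₁))
      · intro hv
        exact ⟨hI hv, fun u hu => h5 v hv u hu⟩
    rw [h8] at h7
    have hU := unitOn_of_nondegAt f I h7 (fun i => (w i : ℤ)) (N : ℤ) (by exact_mod_cast hN.ne') (by
      intro v hv
      have h1 := (Finset.mem_filter.1 (hI hv)).2
      rw [← h1]
      unfold wt dotProduct castv
      push_cast
      rfl) [] (by simp)
    rw [unitOn_iff] at hU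
    exact hU.mono (Set.subset_univ _)

end MPb07157Z
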