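import Pool.Agent.Lib.MP_b07157_agN.NDC

/-!
# The standing hypotheses for the Cayley polynomial
-/

noncomputable section

namespace MPb07157T

open Finset Matrix

variable {n : ℕ}

/-- The exponents of the Cayley polynomial. -/
theorem cay_support_sub {F : (Fin n → ℤ) →₀ ℂ} {M : ℕ} {g : Fin n → ℂ} {v : Fin (n + 1) → ℤ}
    (hv : v ∈ (Cay F M g).support) :
    (∃ v' ∈ F.support, v = c0 v') ∨ v = c1 0 ∨ ∃ j, v = c1 ((M : ℤ) • ee j) := by
  classical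
  unfold Cay at hv
  rcases Finset.mem_union.1 (Finsupp.support_add hv) with h | h
  · obtain ⟨v', hv', rfl⟩ := Finset.mem_image.1 (Finsupp.mapDomain_support h)
    exact Or.inl ⟨v', hv', rfl⟩
  · obtain ⟨u, hu, rfl⟩ := Finset.mem_image.1 (Finsupp.mapDomain_support h)
    unfold Hf at hu
    rcases Finset.mem_union.1 (Finsupp.support_add hu) with hu | hu
    · right
      left
      have := Finsupp.support_single_subset hu
      rw [Finset.mem_singleton] at this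
      rw [this]
    · right
      right
      obtain ⟨j, -, hj⟩ := Finset.mem_biUnion.1 (Finsupp.support_finset_sum hu)
      have := Finsupp.support_single_subset hj
      rw [Finset.mem_singleton] at this
      exact ⟨j, by rw [this]⟩

private theorem wok_dot_cw (σ : (Fin n → ℤ) × ℤ) (x : ℤ) (v : Fin n → ℤ) :
    (cw σ).1 ⬝ᵥ (Fin.cons x v : Fin (n + 1) → ℤ) = σ.2 * x + σ.1 ⬝ᵥ v := by
  unfold cw
  simp only [dotProduct, Fin.sum_univ_succ, Fin.cons_zero, Fin.cons_succ]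

private theorem wok_ee (r : ℕ) (l : Fin r) (v : Fin r → ℤ) : ee l ⬝ᵥ v = v l := by
  unfold ee
  simp

private theorem wok_dot_ee {r : ℕ} (l : Fin r) (v : Fin r → ℤ) : v ⬝ᵥ ee l = v l := by
  unfold ee
  simp

private theorem wok_et (σ τ : (Fin n → ℤ) × ℤ) (v : Fin n → ℤ) :
    et σ τ ⬝ᵥ v = σ.2 * (τ.1 ⬝ᵥ v) - τ.2 * (σ.1 ⬝ᵥ v) := by
  unfold et
  rw [sub_dotProduct, smul_dotProduct, smul_dotProduct, smul_eq_mul, smul_eq_mul]

private theorem wok_fc_nonneg {f : MvPolynomial (Fin n) ℂ} {v : Fin n → ℤ}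
    (hv : v ∈ (Fc f).support) (j : Fin n) : 0 ≤ v j := by
  obtain ⟨v', -, rfl⟩ := mem_Fc_support.1 hv
  exact castv_nonneg v' j

private theorem wok_le {f : MvPolynomial (Fin n) ℂ} {M : ℕ} {g : Fin n → ℂ}
    {σ : (Fin n → ℤ) × ℤ} (hσ : Wt f σ) {v : Fin (n + 1) → ℤ}
    (hv : v ∈ (Cay (Fc f) M g).support) : (cw σ).2 ≤ (cw σ).1 ⬝ᵥ v := by
  rcases cay_support_sub hv with ⟨v', hv', rfl⟩ | rfl | ⟨j, rfl⟩
  · unfold c0
    rw [wok_dot_cw, mul_zero, zero_add]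
    exact hσ.2.2 v' hv'
  · unfold c1
    rw [wok_dot_cw, mul_one, dotProduct_zero, add_zero]
    exact le_refl _
  · unfold c1
    rw [wok_dot_cw, mul_one, dotProduct_smul, wok_dot_ee, smul_eq_mul]
    have := hσ.2.1 j
    have h2 : (0 : ℤ) ≤ (M : ℤ) * σ.1 j := mul_nonneg (by positivity) this
    show σ.2 ≤ σ.2 + (M : ℤ) * σ.1 j
    linarith

private theorem wok_nonneg {f : MvPolynomial (Fin n) ℂ} {M : ℕ} {g : Fin n → ℂ}
    {v : Fin (n + 1) → ℤ} (hv : v ∈ (Cay (Fc f) M g).support) (j : Fin (n + 1)) : 0 ≤ v j := by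
  rcases cay_support_sub hv with ⟨v', hv', rfl⟩ | rfl | ⟨i, rfl⟩
  · unfold c0
    refine Fin.cases ?_ (fun j => ?_) j
    · simp
    · rw [Fin.cons_succ]
      exact wok_fc_nonneg hv' j
  · unfold c1
    refine Fin.cases ?_ (fun j => ?_) j
    · simp
    · simp
  · unfold c1
    refine Fin.cases ?_ (fun j => ?_) j
    · simp
    · rw [Fin.cons_succ, Pi.smul_apply, smul_eq_mul]
      unfold ee
      by_cases h : j = i
      · subst h
        simp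
      · simp [h]

/-- Everything about the cones of the Cayley polynomial. -/
theorem exists_wokc {f : MvPolynomial (Fin n) ℂ} (hall : NDall f) {M : ℕ} (hM : 1 ≤ M)
    {g : Fin n → ℂ} (hgen : Gen f g) {Sg : Finset ((Fin n → ℤ) × ℤ)} (hcut : CutsOut Sg f)
    (hSg : ∀ σ ∈ Sg, Wt f σ) :
    ∃ Ho : (Fin (n + 1) → ℤ) × ℤ → Finset (Fin (n + 1) → ℤ),
      WOKc (CC n) (ee 0) (Sg.image cw) Ho (Cay (Fc f) M g) ∧
      ∀ κ ∈ Sg, ∃ O : Finset (Fin (n + 1) → ℤ),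
        Ho (cw κ) = H2c (CC n) (Sg.image cw) (cw κ) ∪ O ∧ ee 0 ∈ O ∧ (∀ h ∈ O, 0 < h 0) ∧
        ∀ x : Fin (n + 1) → ℝ, (∀ h ∈ Ho (cw κ), 0 ≤ rdot h x) →
          ∃ l : (Fin (n + 1) → ℤ) → ℝ,
            (∀ v ∈ (Fs (cw κ) (Cay (Fc f) M g)).support, 0 ≤ l v) ∧
            ∀ j, ∑ v ∈ (Fs (cw κ) (Cay (Fc f) M g)).support, l v * (v j : ℝ) = x j := by
  classical
  have hex : ∀ σ' : (Fin (n + 1) → ℤ) × ℤ, ∃ O : Finset (Fin (n + 1) → ℤ),
      σ' ∈ Sg.image cw → (ee 0 ∈ O ∧ (∀ h ∈ O, 0 < h 0) ∧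
      (∀ h ∈ O, ∀ v ∈ (Fs σ' (Cay (Fc f) M g)).support, 0 ≤ h ⬝ᵥ v) ∧
      ∀ x : Fin (n + 1) → ℝ, (∀ h ∈ H2c (CC n) (Sg.image cw) σ' ∪ O, 0 ≤ rdot h x) →
        ∃ l : (Fin (n + 1) → ℤ) → ℝ, (∀ v ∈ (Fs σ' (Cay (Fc f) M g)).support, 0 ≤ l v) ∧
          ∀ j, ∑ v ∈ (Fs σ' (Cay (Fc f) M g)).support, l v * (v j : ℝ) = x j) := by
    intro σ'
    by_cases h : σ' ∈ Sg.image cw
    · obtain ⟨κ, hκ, rfl⟩ := Finset.mem_image.1 h
      obtain ⟨O, hO⟩ := exists_out hcut hSg hκ hM (g := g) fun j => (hgen j).1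
      exact ⟨O, fun _ => hO⟩
    · exact ⟨∅, fun h' => absurd h' h⟩
  choose O hO using hex
  let Ho : (Fin (n + 1) → ℤ) × ℤ → Finset (Fin (n + 1) → ℤ) := fun σ' =>
    H2c (CC n) (Sg.image cw) σ' ∪ O σ'
  have hall' : ∀ σ' ∈ Sg.image cw, ∀ l, ee l ∈ Ho σ' := by
    intro σ' hσ' l
    refine Fin.cases ?_ (fun j => ?_) l
    · exact Finset.mem_union_right _ (hO σ' hσ').1
    · refine Finset.mem_union_left _ (Finset.mem_union_right _ (Finset.mem_image_of_mem _ ?_))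
      exact Finset.mem_image_of_mem _ (Finset.mem_univ j)
  have hHF : ∀ σ' ∈ Sg.image cw, ∀ h ∈ Ho σ', ∀ v ∈ (Fs σ' (Cay (Fc f) M g)).support,
      0 ≤ h ⬝ᵥ v := by
    intro σ' hσ' h hh v hv
    rcases Finset.mem_union.1 hh with hh | hh
    · have hv' : v ∈ (Cay (Fc f) M g).support ∧ σ'.1 ⬝ᵥ v = σ'.2 := by
        unfold Fs at hv
        rw [Finsupp.support_filter, Finset.mem_filter] at hv
        exact hv
      unfold H2c at hh
      rcases Finset.mem_union.1 hh with hh | hh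
      · obtain ⟨τ', hτ', rfl⟩ := Finset.mem_image.1 hh
        obtain ⟨τ, hτ, rfl⟩ := Finset.mem_image.1 hτ'
        obtain ⟨σ, hσ, rfl⟩ := Finset.mem_image.1 hσ'
        rw [wok_et, hv'.2]
        have h1 := wok_le (hSg τ hτ) hv'.1
        have h2 : 0 < (cw σ).2 := (hSg σ hσ).1
        nlinarith
      · obtain ⟨l, -, rfl⟩ := Finset.mem_image.1 hh
        rw [wok_ee]
        exact wok_nonneg hv'.1 l
    · exact (hO σ' hσ').2.2.1 h hh v hv
  refine ⟨Ho, ⟨?_, ?_, fun v hv j => wok_nonneg hv j, ?_, ?_, ?_, ?_, hall', ?_, hHF, ?_⟩, ?_⟩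
  · intro σ' hσ'
    obtain ⟨σ, hσ, rfl⟩ := Finset.mem_image.1 hσ'
    exact (hSg σ hσ).1
  · intro σ' hσ' j
    obtain ⟨σ, hσ, rfl⟩ := Finset.mem_image.1 hσ'
    unfold cw
    refine Fin.cases ?_ (fun j => ?_) j
    · exact (hSg σ hσ).1.le
    · exact (hSg σ hσ).2.1 j
  · intro σ' hσ' v hv
    obtain ⟨σ, hσ, rfl⟩ := Finset.mem_image.1 hσ'
    exact wok_le (hSg σ hσ) hv
  · intro j hj
    obtain ⟨i, -, rfl⟩ := Finset.mem_image.1 hj
    unfold ee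
    simp
  · intro σ' hσ' τ' hτ'
    obtain ⟨σ, hσ, rfl⟩ := Finset.mem_image.1 hσ'
    obtain ⟨τ, hτ, rfl⟩ := Finset.mem_image.1 hτ'
    rw [wok_et, wok_dot_ee, wok_dot_ee]
    unfold cw
    simp only [Fin.cons_zero]
    ring
  · intro σ' hσ'
    exact Finset.subset_union_left
  · intro σ' hσ' h hh h2
    rcases Finset.mem_union.1 hh with hh | hh
    · exact absurd hh h2
    · rw [wok_dot_ee]
      exact (hO σ' hσ').2.1 h hh
  · intro σ' hσ'
    obtain ⟨σ, hσ, rfl⟩ := Finset.mem_image.1 hσ'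
    exact nd_cay hall hM hgen (hSg σ hσ) (Ho (cw σ)) (hall' _ hσ') (hHF _ hσ')
      (hO (cw σ) hσ').2.2.2
  · intro κ hκ
    have hκ' : cw κ ∈ Sg.image cw := Finset.mem_image_of_mem _ hκ
    obtain ⟨h1, h2, -, h4⟩ := hO (cw κ) hκ'
    exact ⟨O (cw κ), rfl, h1, h2, h4⟩

end MPb07157T
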